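import Pool.Agent.Lib.MP_237b21_an.Sphere

/-! The normalised Bessel functions: recurrences, series bounds, Riccati comparison. -/

namespace Pool.Agent.Lib.MP_237b21_an

open MeasureTheory Set Real Filter
open scoped Topology

lemma hasDerivAt_param {F F' : ℝ → ℝ → ℝ} {U : Set ℝ} (hU : IsOpen U)
    (hF : ∀ r ∈ U, Continuous (F r))
    (hF' : ContinuousOn (fun p : ℝ × ℝ => F' p.1 p.2) (U ×ˢ univ))
    (hd : ∀ r ∈ U, ∀ α, HasDerivAt (fun r => F r α) (F' r α) r) {r : ℝ} (hr : r ∈ U) :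
    HasDerivAt (fun r => ∫ α in (0 : ℝ)..π, F r α) (∫ α in (0 : ℝ)..π, F' r α) r := by
  obtain ⟨ε, hε, hsub⟩ := Metric.nhds_basis_closedBall.mem_iff.1 (hU.mem_nhds hr)
  have hK : IsCompact (Metric.closedBall r ε ×ˢ uIcc (0 : ℝ) π) :=
    (isCompact_closedBall r ε).prod isCompact_uIcc
  obtain ⟨C, hC⟩ := hK.exists_bound_of_continuousOn
    (hF'.mono (prod_mono hsub (subset_univ _)))
  have hc : Continuous (F' r) := by
    rw [← continuousOn_univ]
    exact hF'.comp (f := fun α => (r, α)) (by fun_prop) (fun α _ => ⟨hr, mem_univ _⟩)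
  refine (intervalIntegral.hasDerivAt_integral_of_dominated_loc_of_deriv_le
    (s := Metric.closedBall r ε) (bound := fun _ => C) (Metric.closedBall_mem_nhds r hε) ?_
    ((hF r hr).intervalIntegrable _ _) hc.aestronglyMeasurable ?_ intervalIntegrable_const ?_).2
  · filter_upwards [hU.mem_nhds hr] with x hx
    exact (hF x hx).aestronglyMeasurable
  · exact Eventually.of_forall fun t ht x hx => hC (x, t) ⟨hx, uIoc_subset_uIcc ht⟩
  · exact Eventually.of_forall fun t _ x hx => hd x (hsub hx) t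

lemma int_exact {g g' : ℝ → ℝ} (hg : ∀ α, HasDerivAt g (g' α) α) (hc : Continuous g')
    (h0 : g 0 = 0) (hpi : g π = 0) : ∫ α in (0 : ℝ)..π, g' α = 0 := by
  rw [intervalIntegral.integral_eq_sub_of_hasDerivAt (fun α _ => hg α) (hc.intervalIntegrable _ _),
    h0, hpi, sub_zero]

lemma le_of_deriv_nonneg {f f' : ℝ → ℝ} {a b : ℝ} (hab : a ≤ b)
    (hd : ∀ t ∈ Icc a b, HasDerivAt f (f' t) t) (h : ∀ t ∈ Ioo a b, 0 ≤ f' t) : f a ≤ f b := by
  have : MonotoneOn f (Icc a b) := by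
    refine monotoneOn_of_deriv_nonneg (convex_Icc a b)
      (fun t ht => (hd t ht).continuousAt.continuousWithinAt) ?_ ?_
    · rw [interior_Icc]
      exact fun t ht => (hd t (Ioo_subset_Icc_self ht)).differentiableAt.differentiableWithinAt
    · rw [interior_Icc]
      intro t ht
      rw [(hd t (Ioo_subset_Icc_self ht)).deriv]
      exact h t ht
  exact this (left_mem_Icc.2 hab) (right_mem_Icc.2 hab) hab

lemma le_of_deriv_nonpos {f f' : ℝ → ℝ} {a b : ℝ} (hab : a ≤ b)
    (hd : ∀ t ∈ Icc a b, HasDerivAt f (f' t) t) (h : ∀ t ∈ Ioo a b, f' t ≤ 0) : f b ≤ f a := by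
  have := le_of_deriv_nonneg (f := fun t => -f t) (f' := fun t => -f' t) hab
    (fun t ht => (hd t ht).neg) (fun t ht => neg_nonneg.2 (h t ht))
  linarith

/-- The characteristic function of a coordinate of the uniform vector on the sphere of
`R^(n+2)`. -/
noncomputable def jn (n : ℕ) (t : ℝ) : ℝ :=
  (∫ α in (0 : ℝ)..π, cos (t * cos α) * sin α ^ n) / W n

lemma jn_zero (n : ℕ) : jn n 0 = 1 := by
  have := W_pos n
  simp only [jn, zero_mul, cos_zero, one_mul]
  exact div_self this.ne'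

lemma jn_neg (n : ℕ) (t : ℝ) : jn n (-t) = jn n t := by
  simp [jn, neg_mul, cos_neg]

lemma jn_abs (n : ℕ) (t : ℝ) : jn n |t| = jn n t := by
  rcases abs_choice t with h | h <;> simp [h, jn_neg]

lemma abs_jn_le (n : ℕ) (t : ℝ) : |jn n t| ≤ 1 := by
  have hW := W_pos n
  rw [jn, abs_div, abs_of_pos hW, div_le_one hW]
  refine (intervalIntegral.abs_integral_le_integral_abs pi_pos.le).trans ?_
  refine intervalIntegral.integral_mono_on pi_pos.le
    (Continuous.intervalIntegrable (by fun_prop) _ _)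
    (Continuous.intervalIntegrable (by fun_prop) _ _) fun α hα => ?_
  have hs : 0 ≤ sin α ^ n := pow_nonneg (sin_nonneg_of_mem_Icc hα) _
  rw [abs_mul, abs_of_nonneg hs]
  exact mul_le_of_le_one_left hs (abs_cos_le_one _)

lemma jn_aux (n : ℕ) (t : ℝ) : HasDerivAt (fun t => ∫ α in (0 : ℝ)..π, cos (t * cos α) * sin α ^ n)
    (∫ α in (0 : ℝ)..π, -sin (t * cos α) * cos α * sin α ^ n) t := by
  refine hasDerivAt_param (F := fun t α => cos (t * cos α) * sin α ^ n)
    (F' := fun t α => -sin (t * cos α) * cos α * sin α ^ n) isOpen_univ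
    (fun r _ => by fun_prop) (Continuous.continuousOn (by fun_prop)) (fun r _ α => ?_) (mem_univ t)
  have := ((hasDerivAt_id r).mul_const (cos α)).cos.mul_const (sin α ^ n)
  simpa using this

lemma int_lin (f g : ℝ → ℝ) (hf : Continuous f) (hg : Continuous g) (a b : ℝ) :
    ∫ α in (0 : ℝ)..π, (a * f α + b * g α) =
      a * (∫ α in (0 : ℝ)..π, f α) + b * ∫ α in (0 : ℝ)..π, g α := by
  rw [intervalIntegral.integral_add ((hf.intervalIntegrable _ _).const_mul _)
    ((hg.intervalIntegrable _ _).const_mul _), intervalIntegral.integral_const_mul,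
    intervalIntegral.integral_const_mul]

lemma jn_aux2 (n : ℕ) (t : ℝ) :
    ((n : ℝ) + 1) * (∫ α in (0 : ℝ)..π, -sin (t * cos α) * cos α * sin α ^ n) +
      t * ∫ α in (0 : ℝ)..π, cos (t * cos α) * sin α ^ (n + 2) = 0 := by
  rw [← int_lin _ _ (by fun_prop) (by fun_prop)]
  refine int_exact (g := fun α => -(sin (t * cos α) * sin α ^ (n + 1))) (fun α => ?_) (by fun_prop)
    (by simp) (by simp)
  have := ((((hasDerivAt_cos α).const_mul t).sin).mul ((hasDerivAt_sin α).pow (n + 1))).neg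
  refine HasDerivAt.congr_deriv this ?_
  simp only [Pi.pow_apply, Nat.add_sub_cancel]
  push_cast
  ring

lemma hasDerivAt_jn (n : ℕ) (t : ℝ) :
    HasDerivAt (jn n) (-(t / (n + 2)) * jn (n + 2) t) t := by
  have h := (jn_aux n t).div_const (W n)
  have h2 := jn_aux2 n t
  have hW := W_pos n
  refine HasDerivAt.congr_deriv h ?_
  rw [jn, W_succ]
  have : (∫ α in (0 : ℝ)..π, -sin (t * cos α) * cos α * sin α ^ n) =
      -(t * ∫ α in (0 : ℝ)..π, cos (t * cos α) * sin α ^ (n + 2)) / (n + 1) := by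
    rw [eq_div_iff (by positivity)]
    linarith
  rw [this]
  field_simp

lemma continuous_jn (n : ℕ) : Continuous (jn n) :=
  continuous_iff_continuousAt.2 fun t => (hasDerivAt_jn n t).continuousAt

lemma jn_rec (n : ℕ) (t : ℝ) :
    t ^ 2 * jn (n + 4) t = (n + 2) * (n + 4) * (jn (n + 2) t - jn n t) := by
  have h2 := jn_aux2 (n + 2) t
  have hW := W_pos n
  have h3 : (((n : ℝ) + 1) * (∫ α in (0 : ℝ)..π, cos (t * cos α) * sin α ^ n) +
      (-((n : ℝ) + 2)) * ∫ α in (0 : ℝ)..π, cos (t * cos α) * sin α ^ (n + 2)) +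
      (-t) * (∫ α in (0 : ℝ)..π, -sin (t * cos α) * cos α * sin α ^ (n + 2)) = 0 := by
    rw [← int_lin _ _ (by fun_prop) (by fun_prop), ← one_mul (∫ α in (0 : ℝ)..π, _),
      ← int_lin _ _ (by fun_prop) (by fun_prop)]
    refine int_exact (g := fun α => cos (t * cos α) * (sin α ^ (n + 1) * cos α)) (fun α => ?_)
      (by fun_prop) (by simp) (by simp)
    have := (((hasDerivAt_cos α).const_mul t).cos).mul
      (((hasDerivAt_sin α).pow (n + 1)).mul (hasDerivAt_cos α))
    refine HasDerivAt.congr_deriv this ?_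
    simp only [Pi.pow_apply, Pi.mul_apply, Nat.add_sub_cancel]
    push_cast
    have hc : cos α ^ 2 = 1 - sin α ^ 2 := cos_sq' α
    linear_combination (((n : ℝ) + 1) * cos (t * cos α) * sin α ^ n) * hc
  simp only [jn, show n + 4 = n + 2 + 2 from rfl, W_succ]
  push_cast at h2 ⊢
  set A := ∫ α in (0 : ℝ)..π, cos (t * cos α) * sin α ^ n
  set B := ∫ α in (0 : ℝ)..π, cos (t * cos α) * sin α ^ (n + 2)
  set C := ∫ α in (0 : ℝ)..π, cos (t * cos α) * sin α ^ (n + 2 + 2)
  set D := ∫ α in (0 : ℝ)..π, -sin (t * cos α) * cos α * sin α ^ (n + 2)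
  field_simp
  linear_combination ((n : ℝ) + 4) * t * h2 + ((n : ℝ) + 4) * ((n : ℝ) + 3) * h3

/-- The derivative of `jn (n + 2)` multiplied by `t`. -/
lemma hasDerivAt_pow_jn (n : ℕ) (t : ℝ) :
    HasDerivAt (fun t => t ^ (n + 2) * jn (n + 2) t) ((n + 2) * t ^ (n + 1) * jn n t) t := by
  have h := (hasDerivAt_pow (n + 2) t).mul (hasDerivAt_jn (n + 2) t)
  refine HasDerivAt.congr_deriv h ?_
  have := jn_rec n t
  simp only [show n + 2 - 1 = n + 1 from rfl, show n + 2 + 2 = n + 4 from rfl]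
  push_cast
  have h4 : (n : ℝ) + 2 + 2 ≠ 0 := by positivity
  field_simp
  linear_combination (-(t ^ n * t)) * this

/-- Partial sums of the power series of `jn`. -/
noncomputable def sK (K n : ℕ) (t : ℝ) : ℝ :=
  ∑ k ∈ Finset.range (K + 1), (-1) ^ k * t ^ (2 * k) /
    ∏ i ∈ Finset.range k, ((2 * (i : ℝ) + 2) * (n + 2 + 2 * i))

lemma sK_zero (K n : ℕ) : sK K n 0 = 1 := by
  rw [sK, Finset.sum_range_succ']
  simp

lemma hasDerivAt_sK (K n : ℕ) (t : ℝ) :
    HasDerivAt (sK (K + 1) n) (-(t / (n + 2)) * sK K (n + 2) t) t := by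
  have h : sK (K + 1) n = fun t => ∑ k ∈ Finset.range (K + 1), (-1) ^ (k + 1) * t ^ (2 * (k + 1)) /
      (∏ i ∈ Finset.range (k + 1), ((2 * (i : ℝ) + 2) * (n + 2 + 2 * i))) + 1 := by
    ext t
    rw [sK, Finset.sum_range_succ']
    simp
  rw [h, sK, Finset.mul_sum]
  refine HasDerivAt.add_const _ (HasDerivAt.fun_sum fun k _ => ?_)
  have := ((hasDerivAt_pow (2 * (k + 1)) t).const_mul ((-1) ^ (k + 1))).div_const
    (∏ i ∈ Finset.range (k + 1), ((2 * (i : ℝ) + 2) * (n + 2 + 2 * i)))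
  refine HasDerivAt.congr_deriv this ?_
  have e1 : ∏ i ∈ Finset.range (k + 1), ((2 * (i : ℝ) + 2) * (n + 2 + 2 * i)) =
      (2 * (k : ℝ) + 2) * (n + 2) * ∏ i ∈ Finset.range k,
        ((2 * (i : ℝ) + 2) * (((n + 2 : ℕ) : ℝ) + 2 + 2 * i)) := by
    rw [Finset.prod_mul_distrib, Finset.prod_mul_distrib, Finset.prod_range_succ,
      Finset.prod_range_succ' (fun i : ℕ => (n : ℝ) + 2 + 2 * i)]
    push_cast
    have : ∀ i : ℕ, (n : ℝ) + 2 + 2 * (i + 1) = n + 2 + 2 + 2 * i := fun i => by ring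
    simp only [this]
    ring
  have hp : 0 < ∏ i ∈ Finset.range k, ((2 * (i : ℝ) + 2) * (((n + 2 : ℕ) : ℝ) + 2 + 2 * i)) :=
    Finset.prod_pos fun i _ => by positivity
  rw [e1, show 2 * (k + 1) - 1 = 2 * k + 1 from rfl]
  push_cast at hp ⊢
  field_simp
  ring

lemma sK_sign (K : ℕ) : ∀ (n : ℕ) (t : ℝ), 0 ≤ t → 0 ≤ (-1) ^ K * (sK K n t - jn n t) := by
  induction K with
  | zero =>
    intro n t _
    have := (abs_le.1 (abs_jn_le n t)).2
    simp [sK]; linarith
  | succ K ih =>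
    intro n t ht
    have := le_of_deriv_nonneg (f := fun t => (-1) ^ (K + 1) * (sK (K + 1) n t - jn n t))
      (f' := fun t => (t / (n + 2)) * ((-1) ^ K * (sK K (n + 2) t - jn (n + 2) t))) ht
      (fun s _ => by
        have := ((hasDerivAt_sK K n s).sub (hasDerivAt_jn n s)).const_mul ((-1 : ℝ) ^ (K + 1))
        refine HasDerivAt.congr_deriv this ?_
        ring)
      (fun s hs => mul_nonneg (by have := hs.1; positivity) (ih _ _ hs.1.le))
    simpa [sK_zero, jn_zero] using this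

lemma jn_le_sK (K n : ℕ) (t : ℝ) (ht : 0 ≤ t) : jn n t ≤ sK (2 * K) n t := by
  have := sK_sign (2 * K) n t ht
  rw [pow_mul] at this
  simp at this; linarith

lemma sK_le_jn (K n : ℕ) (t : ℝ) (ht : 0 ≤ t) : sK (2 * K + 1) n t ≤ jn n t := by
  have := sK_sign (2 * K + 1) n t ht
  rw [pow_succ, pow_mul] at this
  simp at this; linarith

lemma one_sub_le_jn (n : ℕ) (t : ℝ) : 1 - t ^ 2 / (2 * (n + 2)) ≤ jn n t := by
  have := sK_le_jn 0 n |t| (abs_nonneg t)
  rw [jn_abs] at this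
  simp [sK, Finset.sum_range_succ] at this
  rw [neg_div] at this
  linarith

end Pool.Agent.Lib.MP_237b21_an
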