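import Pool.Agent.Lib.MP_237b21_an.Bessel

/-! The law of a weighted sum of independent uniform vectors. -/

namespace Pool.Agent.Lib.MP_237b21_an

open MeasureTheory Set Real
open scoped ENNReal RealInnerProductSpace

/-- The law of `a X`. -/
noncomputable def sa (n : ℕ) (a : ℝ) : Measure (V n) := (sv n).map (a • ·)

instance (n : ℕ) (a : ℝ) : IsProbabilityMeasure (sa n a) :=
  Measure.isProbabilityMeasure_map (by fun_prop)

/-- The law of the weighted sum. -/
noncomputable def law (n : ℕ) : List ℝ → Measure (V n)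
  | [] => Measure.dirac 0
  | a :: l => (sa n a) ∗ (law n l)

instance law_prob (n : ℕ) : ∀ l : List ℝ, IsProbabilityMeasure (law n l)
  | [] => by rw [law]; infer_instance
  | a :: l => by
    have := law_prob n l
    rw [law]; infer_instance

lemma law_perm (n : ℕ) {l l' : List ℝ} (h : l.Perm l') : law n l = law n l' := by
  induction h with
  | nil => rfl
  | cons a _ ih => rw [law, law, ih]
  | swap a b l =>
    rw [law, law, law, law, ← Measure.conv_assoc, ← Measure.conv_assoc,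
      Measure.conv_comm (sa n a)]
  | trans _ _ ih1 ih2 => rw [ih1, ih2]

lemma lint_law_cons (n : ℕ) (a : ℝ) (l : List ℝ) (f : V n → ℝ≥0∞) (hf : Measurable f) :
    ∫⁻ y, f y ∂law n (a :: l) = ∫⁻ x, ∫⁻ y, f (a • x + y) ∂law n l ∂sv n := by
  rw [law, Measure.lintegral_conv hf, sa, lintegral_map _ (by fun_prop)]
  exact Measurable.lintegral_prod_right' (f := fun p : V n × V n => f (p.1 + p.2)) (by fun_prop)

lemma law_iso (n : ℕ) (U : V n ≃ₗᵢ[ℝ] V n) (l : List ℝ) : ∀ (f : V n → ℝ≥0∞), Measurable f →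
    ∫⁻ y, f (U y) ∂law n l = ∫⁻ y, f y ∂law n l := by
  have hU : Measurable U := U.continuous.measurable
  induction l with
  | nil =>
    intro f hf
    rw [law, lintegral_dirac, lintegral_dirac, map_zero]
  | cons a l ih =>
    intro f hf
    rw [lint_law_cons n a l _ (by fun_prop), lint_law_cons n a l _ hf,
      ← sv_iso n U (fun x => ∫⁻ y, f (a • x + y) ∂law n l)
        (Measurable.lintegral_prod_right' (f := fun p : V n × V n => f (a • p.1 + p.2))
          (by fun_prop))]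
    refine lintegral_congr fun x => ?_
    rw [← ih (fun y => f (a • U x + y)) (by fun_prop)]
    simp only [map_add, map_smul]

/-- The expectation of `F (|v + S|^2)`. -/
noncomputable def Mv (n : ℕ) (F : ℝ → ℝ≥0∞) (l : List ℝ) (v : V n) : ℝ≥0∞ :=
  ∫⁻ y, F (‖v + y‖ ^ 2) ∂law n l

/-- The expectation of `F (|S|^2)`. -/
noncomputable def NN (n : ℕ) (F : ℝ → ℝ≥0∞) (l : List ℝ) : ℝ≥0∞ :=
  ∫⁻ y, F (‖y‖ ^ 2) ∂law n l

variable {n : ℕ} {F : ℝ → ℝ≥0∞}

lemma Mv_meas (hF : Measurable F) (l : List ℝ) : Measurable (Mv n F l) :=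
  Measurable.lintegral_prod_right' (f := fun p : V n × V n => F (‖p.1 + p.2‖ ^ 2)) (by fun_prop)

lemma Mv_radial (hF : Measurable F) (l : List ℝ) {v w : V n} (h : ‖v‖ = ‖w‖) :
    Mv n F l v = Mv n F l w := by
  obtain ⟨U, hU⟩ := exists_iso n v w h
  rw [Mv, Mv, ← law_iso n U l (fun y => F (‖w + y‖ ^ 2)) (by fun_prop)]
  refine lintegral_congr fun y => ?_
  rw [← hU, ← map_add, U.norm_map]

lemma NN_cons (hF : Measurable F) (a : ℝ) (l : List ℝ) {v : V n} (h : ‖v‖ = |a|) :
    NN n F (a :: l) = Mv n F l v := by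
  rw [NN, lint_law_cons n a l _ (by fun_prop)]
  have : ∀ᵐ x ∂sv n, ∫⁻ y, F (‖a • x + y‖ ^ 2) ∂law n l = Mv n F l v := by
    filter_upwards [sv_norm n] with x hx
    exact Mv_radial hF l (by rw [norm_smul, hx, h, mul_one, norm_eq_abs])
  rw [lintegral_congr_ae this, lintegral_const, measure_univ, mul_one]

/-- A fixed unit vector. -/
noncomputable def e0 (n : ℕ) : V n := EuclideanSpace.single 0 1

lemma norm_e0 (n : ℕ) : ‖e0 n‖ = 1 := by simp [e0]

lemma NN_cons' (hF : Measurable F) (a : ℝ) (l : List ℝ) :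
    NN n F (a :: l) = Mv n F l (a • e0 n) :=
  NN_cons hF a l (by rw [norm_smul, norm_e0, mul_one, norm_eq_abs])

lemma NN_meas (hF : Measurable F) (l : List ℝ) : Measurable fun a => NN n F (a :: l) := by
  simp only [NN_cons' hF]
  exact (Mv_meas hF l).comp (by fun_prop)

lemma NN_perm {l l' : List ℝ} (h : l.Perm l') : NN n F l = NN n F l' := by
  rw [NN, NN, law_perm n h]

lemma NN_abs (hF : Measurable F) (a : ℝ) (l : List ℝ) : NN n F (|a| :: l) = NN n F (a :: l) := by
  rw [NN_cons' hF a, NN_cons hF |a| l (v := a • e0 n) (by rw [norm_smul, norm_e0, mul_one, norm_eq_abs, abs_abs])]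

lemma NN_single (hF : Measurable F) (a : ℝ) : NN n F [a] = F (a ^ 2) := by
  rw [NN_cons' hF, Mv, law, lintegral_dirac, add_zero, norm_smul, norm_e0, mul_one, norm_eq_abs,
    sq_abs]

lemma NN_merge (hF : Measurable F) (a b : ℝ) (l : List ℝ) :
    NN n F (a :: b :: l) =
      ∫⁻ α, NN n F (sqrt (a ^ 2 + b ^ 2 + 2 * a * b * cos α) :: l) ∂ang n := by
  rw [NN_cons' hF, Mv, lint_law_cons n b l _ (by fun_prop),
    ← lint_inner n (e0 n) (norm_e0 n) (fun θ => NN n F (sqrt (a ^ 2 + b ^ 2 + 2 * a * b * θ) :: l))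
      ((NN_meas hF l).comp (by fun_prop))]
  refine lintegral_congr_ae ?_
  filter_upwards [sv_norm n] with x hx
  rw [NN_cons hF _ l (v := a • e0 n + b • x)]
  · simp only [Mv, add_assoc]
  · rw [abs_of_nonneg (sqrt_nonneg _), ← sqrt_sq (norm_nonneg (a • e0 n + b • x)), norm_add_sq_real,
      norm_smul, norm_smul, norm_e0, hx, inner_smul_left, inner_smul_right]
    simp only [mul_one, norm_eq_abs, sq_abs, conj_trivial]
    congr 1
    ring

lemma law_scale (c : ℝ) (l : List ℝ) : ∀ (f : V n → ℝ≥0∞), Measurable f →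
    ∫⁻ y, f y ∂law n (l.map (c * ·)) = ∫⁻ y, f (c • y) ∂law n l := by
  induction l with
  | nil =>
    intro f hf
    rw [List.map_nil, law, lintegral_dirac, lintegral_dirac, smul_zero]
  | cons a l ih =>
    intro f hf
    rw [List.map_cons, lint_law_cons n _ _ _ hf, lint_law_cons n a l _ (by fun_prop)]
    refine lintegral_congr fun x => ?_
    rw [ih (fun y => f ((c * a) • x + y)) (by fun_prop)]
    simp only [smul_add, smul_smul]

lemma NN_scale (hF : Measurable F) (c : ℝ) (l : List ℝ) :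
    NN n F (l.map (c * ·)) = NN n (fun ρ => F (c ^ 2 * ρ)) l := by
  rw [NN, law_scale c l _ (by fun_prop), NN]
  simp only [norm_smul, mul_pow, norm_eq_abs, sq_abs]

lemma NN_mono {F G : ℝ → ℝ≥0∞} (h : ∀ ρ, 0 ≤ ρ → F ρ ≤ G ρ) (l : List ℝ) :
    NN n F l ≤ NN n G l := lintegral_mono fun _ => h _ (sq_nonneg _)

instance sph_sigma (n : ℕ) : SigmaFinite (sph (n + 2)) :=
  @IsFiniteMeasure.toSigmaFinite _ _ (sph (n + 2)) inferInstance

lemma lint_pi (n : ℕ) : ∀ (k : ℕ) (a : Fin k → ℝ) (f : V n → ℝ≥0∞), Measurable f →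
    ∫⁻ x : Fin k → Metric.sphere (0 : V n) 1, f (∑ j, a j • (x j : V n))
      ∂(Measure.pi fun _ => sph (n + 2)) = ∫⁻ y, f y ∂law n (List.ofFn a) := by
  intro k
  induction k with
  | zero =>
    intro a f hf
    simp [law]
  | succ k ih =>
    intro a f hf
    have hm : Measurable (fun p : Metric.sphere (0 : V n) 1 × (Fin k → Metric.sphere (0 : V n) 1) =>
        f (a 0 • (p.1 : V n) + ∑ j, a j.succ • (p.2 j : V n))) := by fun_prop
    have h2 := (@measurePreserving_piFinSuccAbove _ _ _ (fun _ : Fin (k + 1) => sph (n + 2))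
      (fun _ => sph_sigma n) 0).lintegral_comp hm
    rw [List.ofFn_succ, lint_law_cons n _ _ _ hf, sv, lintegral_map
      (Measurable.lintegral_prod_right' (f := fun p : V n × V n => f (a 0 • p.1 + p.2))
          (by fun_prop)) measurable_subtype_coe]
    simp only [Fin.sum_univ_succ]
    refine Eq.trans ?_ (h2.trans ?_)
    · refine lintegral_congr fun x => ?_
      simp [Fin.tail]
    · rw [lintegral_prod _ hm.aemeasurable]
      refine lintegral_congr fun x => ?_
      exact ih (fun j => a j.succ) (fun y => f (a 0 • (x : V n) + y)) (by fun_prop)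

lemma charFun_sv (n : ℕ) (ξ : V n) : charFun (sv n) ξ = jn n ‖ξ‖ := by
  obtain ⟨e, he, hξ⟩ : ∃ e : V n, ‖e‖ = 1 ∧ ξ = ‖ξ‖ • e := by
    rcases eq_or_ne ξ 0 with h | h
    · exact ⟨e0 n, norm_e0 n, by simp [h]⟩
    · exact ⟨‖ξ‖⁻¹ • ξ, norm_smul_inv_norm h, by
        rw [smul_smul, mul_inv_cancel₀ (norm_ne_zero_iff.2 h), one_smul]⟩
  have h1 : ∀ x : V n, Complex.exp (⟪x, ξ⟫ * Complex.I) =
      ((cos (‖ξ‖ * ⟪e, x⟫) : ℝ) : ℂ) + ((sin (‖ξ‖ * ⟪e, x⟫) : ℝ) : ℂ) * Complex.I := by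
    intro x
    have : ⟪x, ξ⟫ = ‖ξ‖ * ⟪e, x⟫ := by
      conv_lhs => rw [hξ]
      rw [inner_smul_right, real_inner_comm]
    rw [this, Complex.exp_mul_I, Complex.ofReal_cos, Complex.ofReal_sin]
  have i1 : Integrable (fun x : V n => cos (‖ξ‖ * ⟪e, x⟫)) (sv n) :=
    (integrable_const (1 : ℝ)).mono' (by fun_prop)
      (Filter.Eventually.of_forall fun _ => abs_cos_le_one _)
  have i2 : Integrable (fun x : V n => sin (‖ξ‖ * ⟪e, x⟫)) (sv n) :=
    (integrable_const (1 : ℝ)).mono' (by fun_prop)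
      (Filter.Eventually.of_forall fun _ => abs_sin_le_one _)
  have h2 : ∫ x, sin (‖ξ‖ * ⟪e, x⟫) ∂sv n = 0 := by
    have := integral_map (μ := sv n) (φ := (LinearIsometryEquiv.neg ℝ : V n ≃ₗᵢ[ℝ] V n))
      (f := fun x => sin (‖ξ‖ * ⟪e, x⟫)) (by fun_prop) (by fun_prop)
    rw [sv_map_iso] at this
    simp only [LinearIsometryEquiv.coe_neg, inner_neg_right, mul_neg, sin_neg, integral_neg] at this
    linarith
  rw [charFun_apply]
  simp only [h1]
  rw [integral_add i1.ofReal (i2.ofReal.mul_const _), integral_mul_const, integral_complex_ofReal,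
    integral_complex_ofReal, h2, int_inner n e he (fun θ => cos (‖ξ‖ * θ)) (by fun_prop), jn]
  simp

lemma charFun_law (n : ℕ) (l : List ℝ) (ξ : V n) :
    charFun (law n l) ξ = (((l.map fun a => jn n (a * ‖ξ‖)).prod : ℝ) : ℂ) := by
  induction l with
  | nil => simp [law, charFun_apply]
  | cons a l ih =>
    rw [law, charFun_conv, ih, sa, charFun_map_smul, charFun_sv, List.map_cons, List.prod_cons,
      norm_smul, ← jn_abs n (a * ‖ξ‖), abs_mul, abs_norm, norm_eq_abs]
    push_cast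
    rfl

/-- The product of the characteristic functions. -/
noncomputable def PJ (n : ℕ) (l : List ℝ) (t : ℝ) : ℝ := (l.map fun a => jn n (a * t)).prod

lemma continuous_PJ (n : ℕ) (l : List ℝ) : Continuous (PJ n l) := by
  induction l with
  | nil => exact continuous_const
  | cons a l ih =>
    have : PJ n (a :: l) = fun t => jn n (a * t) * PJ n l t := by ext t; simp [PJ]
    rw [this]
    exact ((continuous_jn n).comp (by fun_prop)).mul ih

lemma abs_PJ_le (n : ℕ) (l : List ℝ) (t : ℝ) : |PJ n l t| ≤ 1 := by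
  induction l with
  | nil => simp [PJ]
  | cons a l ih =>
    have : PJ n (a :: l) t = jn n (a * t) * PJ n l t := by simp [PJ]
    rw [this, abs_mul]
    exact mul_le_one₀ (abs_jn_le _ _) (abs_nonneg _) ih

lemma gauss_mix_aux (n : ℕ) (l : List ℝ) (v : ℝ) (hv : 0 ≤ v) :
    (2 * π) ^ (((n : ℝ) + 2) / 2) * ∫ y, exp (-(v ^ 2 * ‖y‖ ^ 2 / 2)) ∂law n l =
      ((n + 2 : ℕ) : ℝ) * ((volume : Measure (V n)).real (Metric.ball 0 1) *
        ∫ r in Ioi (0 : ℝ), r ^ (n + 1) * (exp (-(r ^ 2 / 2)) * PJ n l (v * r))) := by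
  have hb : 0 < ((1 / 2 : ℂ)).re := by norm_num
  have h1 : ∀ y : V n, (((2 * π) ^ (((n : ℝ) + 2) / 2) * exp (-(v ^ 2 * ‖y‖ ^ 2 / 2)) : ℝ) : ℂ) =
      ∫ g : V n, Complex.exp (-(1 / 2 : ℂ) * ‖g‖ ^ 2 + (v * Complex.I) * ⟪y, g⟫) := by
    intro y
    rw [GaussianFourier.integral_cexp_neg_mul_sq_norm_add hb, Complex.ofReal_mul,
      Complex.ofReal_cpow (by positivity), Complex.ofReal_exp]
    congr 2
    · push_cast; ring
    · simp
    · push_cast
      rw [mul_pow, Complex.I_sq]; ring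
  have hint : Integrable (fun p : V n × V n =>
      Complex.exp (-(1 / 2 : ℂ) * ‖p.2‖ ^ 2 + (v * Complex.I) * ⟪p.1, p.2⟫)) ((law n l).prod volume) := by
    have := (GaussianFourier.integrable_cexp_neg_mul_sq_norm_add hb 0 (0 : V n)).norm
    refine (this.comp_snd (law n l)).mono' (by fun_prop) (Filter.Eventually.of_forall fun p => ?_)
    simp [Complex.norm_exp]
  have h2 : ∀ g : V n, ∫ y, Complex.exp (-(1 / 2 : ℂ) * ‖g‖ ^ 2 + (v * Complex.I) * ⟪y, g⟫) ∂law n l =
      ((exp (-(‖g‖ ^ 2 / 2)) * PJ n l (v * ‖g‖) : ℝ) : ℂ) := by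
    intro g
    have := charFun_law n l (v • g)
    rw [charFun_apply, norm_smul, norm_eq_abs, abs_of_nonneg hv] at this
    simp only [Complex.exp_add]
    rw [integral_const_mul, Complex.ofReal_mul, PJ, ← this]
    congr 1
    · push_cast; congr 1; ring
    · refine integral_congr_ae (Filter.Eventually.of_forall fun y => ?_)
      simp only [inner_smul_right]
      push_cast
      congr 1; ring
  have h3 := integral_integral_swap (f := fun (y g : V n) =>
    Complex.exp (-(1 / 2 : ℂ) * ‖g‖ ^ 2 + (v * Complex.I) * ⟪y, g⟫)) hint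
  simp only [← h1, h2] at h3
  rw [integral_complex_ofReal, integral_complex_ofReal, Complex.ofReal_inj, integral_const_mul] at h3
  rw [h3, integral_fun_norm_addHaar volume (fun r => exp (-(r ^ 2 / 2)) * PJ n l (v * r))]
  simp

/-- The Gaussian radial moment. -/
lemma int_gauss {b : ℝ} (hb : 0 < b) {s : ℝ} (hs : 0 < s) :
    ∫ r in Ioi (0 : ℝ), r ^ (2 * s - 1) * exp (-b * r ^ (2 : ℝ)) = b ^ (-s) * (1 / 2) * Gamma s := by
  rw [integral_rpow_mul_exp_neg_mul_rpow two_pos (by linarith) hb]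
  congr 2
  · congr 1; ring
  · ring

lemma gauss_mix (n : ℕ) (l : List ℝ) (v : ℝ) (hv : 0 ≤ v) :
    (2 ^ (((n : ℝ) + 2) / 2) * (1 / 2) * Gamma (((n : ℝ) + 2) / 2)) *
      ∫ y, exp (-(v ^ 2 * ‖y‖ ^ 2 / 2)) ∂law n l =
      ∫ r in Ioi (0 : ℝ), r ^ (n + 1) * (exp (-(r ^ 2 / 2)) * PJ n l (v * r)) := by
  have h1 := gauss_mix_aux n l v hv
  have h0 := gauss_mix_aux n [] v hv
  simp only [law, integral_dirac, norm_zero, PJ, List.map_nil, List.prod_nil, mul_one] at h0
  have h2 : ∫ r in Ioi (0 : ℝ), r ^ (n + 1) * exp (-(r ^ 2 / 2)) =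
      2 ^ (((n : ℝ) + 2) / 2) * (1 / 2) * Gamma (((n : ℝ) + 2) / 2) := by
    have := int_gauss (b := 1 / 2) (by norm_num) (s := ((n : ℝ) + 2) / 2) (by positivity)
    rw [one_div, inv_rpow (by norm_num), ← rpow_neg (by norm_num), neg_neg] at this
    rw [one_div, ← this]
    refine setIntegral_congr_fun measurableSet_Ioi fun r hr => ?_
    rw [show 2 * (((n : ℝ) + 2) / 2) - 1 = ((n + 1 : ℕ) : ℝ) by push_cast; ring, rpow_natCast,
      rpow_two]
    congr 2; ring
  rw [h2] at h0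
  simp only [ne_eq, OfNat.ofNat_ne_zero, not_false_eq_true, zero_pow, mul_zero, zero_div, neg_zero,
    exp_zero, mul_one] at h0
  rw [h0] at h1
  have hB : 0 < (volume : Measure (V n)).real (Metric.ball 0 1) :=
    ENNReal.toReal_pos (Metric.measure_ball_pos _ _ one_pos).ne' measure_ball_lt_top.ne
  have hn : (0 : ℝ) < ((n + 2 : ℕ) : ℝ) := by positivity
  rw [mul_assoc, mul_assoc] at h1
  exact mul_left_cancel₀ hB.ne' (mul_left_cancel₀ hn.ne' h1)

end Pool.Agent.Lib.MP_237b21_an
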