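import Pool.Agent.Lib.MP_237b21_an.Bessel

-- part Pool.Agent.Lib.MP_237b21_an.Bessel2
section

/-! Riccati comparison, positivity, energy and tail bounds. -/

namespace Pool.Agent.Lib.MP_237b21_an

open MeasureTheory Set Real Filter
open scoped Topology

lemma jn_cmp (n : ℕ) (T s : ℝ) (lam lam' β : ℝ → ℝ)
    (hl : ∀ t ∈ Icc 0 T, HasDerivAt lam (lam' t) t)
    (hβ : ∀ t ∈ Icc 0 T, HasDerivAt β (-(t * lam t / (n + 2)) * β t) t)
    (hβp : ∀ t ∈ Icc 0 T, 0 < β t) (hβ0 : β 0 = 1)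
    (hB : ∀ t ∈ Icc 0 T, 0 ≤ s * ((n + 2) - (n + 2) * lam t - t * lam' t +
      t ^ 2 * lam t ^ 2 / (n + 2)))
    (hpos : ∀ t ∈ Icc 0 T, 0 ≤ jn n t) :
    ∀ t ∈ Icc 0 T, 0 ≤ s * (jn (n + 2) t - lam t * jn n t) ∧ 0 ≤ s * (β t - jn n t) := by
  have hm : (0 : ℝ) < n + 2 := by positivity
  have h1 : ∀ t ∈ Icc 0 T, 0 ≤ s * (jn (n + 2) t - lam t * jn n t) := by
    intro t ht
    rcases ht.1.eq_or_lt with h0 | h0
    · subst h0
      have := hB 0 ht
      simp only [jn_zero, mul_one]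
      have e : s * ((n + 2) - (n + 2) * lam 0 - 0 * lam' 0 + 0 ^ 2 * lam 0 ^ 2 / (n + 2)) =
          (n + 2) * (s * (1 - lam 0)) := by ring
      rw [e] at this
      exact (mul_nonneg_iff_of_pos_left hm).1 this
    · have := le_of_deriv_nonneg
        (f := fun t => s * (β t * (t ^ (n + 2) * jn (n + 2) t - t ^ (n + 2) * lam t * jn n t)))
        (f' := fun t => β t * t ^ (n + 1) * jn n t * (s * ((n + 2) - (n + 2) * lam t - t * lam' t +
          t ^ 2 * lam t ^ 2 / (n + 2)))) ht.1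
        (fun r hr => by
          have hr' : r ∈ Icc 0 T := ⟨hr.1, hr.2.trans ht.2⟩
          have := ((hβ r hr').mul ((hasDerivAt_pow_jn n r).sub
            (((hasDerivAt_pow (n + 2) r).mul (hl r hr')).mul (hasDerivAt_jn n r)))).const_mul s
          refine HasDerivAt.congr_deriv this ?_
          simp only [Pi.mul_apply, Pi.sub_apply, show n + 2 - 1 = n + 1 from rfl]
          push_cast
          field_simp
          ring)
        (fun r hr => by
          have hr' : r ∈ Icc 0 T := ⟨hr.1.le, hr.2.le.trans ht.2⟩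
          exact mul_nonneg (mul_nonneg (mul_nonneg (hβp r hr').le (pow_nonneg hr.1.le _))
            (hpos r hr')) (hB r hr'))
      simp only [ne_eq, Nat.add_eq_zero_iff, OfNat.ofNat_ne_zero, and_false, not_false_eq_true,
        zero_pow, zero_mul, sub_self, mul_zero] at this
      have e : s * (β t * (t ^ (n + 2) * jn (n + 2) t - t ^ (n + 2) * lam t * jn n t)) =
          (β t * t ^ (n + 2)) * (s * (jn (n + 2) t - lam t * jn n t)) := by ring
      rw [e] at this
      exact (mul_nonneg_iff_of_pos_left (mul_pos (hβp t ht) (pow_pos h0 _))).1 this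
  intro t ht
  refine ⟨h1 t ht, ?_⟩
  have := le_of_deriv_nonpos (f := fun t => s * (jn n t / β t))
    (f' := fun t => -(t / (n + 2) / β t * (s * (jn (n + 2) t - lam t * jn n t)))) ht.1
    (fun r hr => by
      have hr' : r ∈ Icc 0 T := ⟨hr.1, hr.2.trans ht.2⟩
      have := ((hasDerivAt_jn n r).div (hβ r hr') (hβp r hr').ne').const_mul s
      refine HasDerivAt.congr_deriv this ?_
      have := (hβp r hr').ne'
      field_simp
      ring)
    (fun r hr => by
      have hr' : r ∈ Icc 0 T := ⟨hr.1.le, hr.2.le.trans ht.2⟩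
      have := hr.1
      exact neg_nonpos.2 (mul_nonneg (div_nonneg (by positivity) (hβp r hr').le) (h1 r hr')))
  simp only [jn_zero, hβ0, div_one, mul_one] at this
  have hb := hβp t ht
  have e : s * (β t - jn n t) = β t * (s - s * (jn n t / β t)) := by field_simp
  rw [e]
  exact mul_nonneg hb.le (by linarith)

lemma jn_beta (n : ℕ) (T : ℝ) (hT : T ^ 2 < (n + 2) * (n + 4))
    (hpos : ∀ t ∈ Icc 0 T, 0 ≤ jn n t) : ∀ t ∈ Icc 0 T,
    (n + 2) * (n + 4) / ((n + 2) * (n + 4) - t ^ 2) * jn n t ≤ jn (n + 2) t ∧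
    jn n t ≤ (1 - t ^ 2 / ((n + 2) * (n + 4))) ^ (((n : ℝ) + 4) / 2) := by
  set c : ℝ := (n + 2) * (n + 4) with hc
  have hc0 : 0 < c := by positivity
  have hlt : ∀ t ∈ Icc 0 T, 0 < c - t ^ 2 := fun t ht => by
    have := pow_le_pow_left₀ ht.1 ht.2 2
    linarith
  have hlt' : ∀ t ∈ Icc 0 T, 0 < 1 - t ^ 2 / c := fun t ht => by
    have := hlt t ht
    rw [sub_pos, div_lt_one hc0]; linarith
  have := jn_cmp n T 1 (fun t => c / (c - t ^ 2)) (fun t => c * (2 * t) / (c - t ^ 2) ^ 2)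
    (fun t => (1 - t ^ 2 / c) ^ (((n : ℝ) + 4) / 2))
    (fun t ht => by
      have := (hasDerivAt_const t c).div ((hasDerivAt_pow 2 t).const_sub c) (hlt t ht).ne'
      refine HasDerivAt.congr_deriv this ?_
      simp)
    (fun t ht => by
      have := (((hasDerivAt_pow 2 t).div_const c).const_sub 1).rpow_const
        (p := ((n : ℝ) + 4) / 2) (Or.inl (hlt' t ht).ne')
      refine HasDerivAt.congr_deriv this ?_
      rw [rpow_sub_one (hlt' t ht).ne']
      have h1 := (hlt t ht).ne'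
      have h2 := (hlt' t ht).ne'
      have e : 1 - t ^ 2 / c = (c - t ^ 2) / c := by field_simp
      simp only [Nat.cast_ofNat, Nat.add_one_sub_one, pow_one]
      generalize (1 - t ^ 2 / c) ^ (((n : ℝ) + 4) / 2) = b
      rw [e]
      field_simp
      rw [hc]; ring)
    (fun t ht => rpow_pos_of_pos (hlt' t ht) _) (by simp)
    (fun t ht => by
      have h1 := hlt t ht
      have e : 1 * (((n : ℝ) + 2) - (n + 2) * (c / (c - t ^ 2)) - t * (c * (2 * t) / (c - t ^ 2) ^ 2) +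
          t ^ 2 * (c / (c - t ^ 2)) ^ 2 / (n + 2)) = (n + 2) * t ^ 4 / (c - t ^ 2) ^ 2 := by
        field_simp
        rw [hc]; ring
      rw [e]; positivity) hpos
  intro t ht
  have := this t ht
  constructor <;> linarith [this.1, this.2]

lemma pos_of_step {f : ℝ → ℝ} (hf : Continuous f) (h0 : 0 < f 0) {T : ℝ}
    (h : ∀ z ∈ Icc 0 T, (∀ t ∈ Icc 0 z, 0 ≤ f t) → 0 < f z) : ∀ t ∈ Icc 0 T, 0 < f t := by
  by_contra hne
  push Not at hne
  have hK : IsCompact (Icc 0 T ∩ {t | f t ≤ 0}) :=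
    isCompact_Icc.inter_right (isClosed_le hf continuous_const)
  obtain ⟨z, ⟨hz, hz0⟩, hmin⟩ := hK.exists_isLeast (by
    obtain ⟨t, ht, ht0⟩ := hne
    exact ⟨t, ht, ht0⟩)
  have hz0' : f z ≤ 0 := hz0
  obtain ⟨y, hy, hy0⟩ := intermediate_value_Icc' hz.1 hf.continuousOn
    (show (0 : ℝ) ∈ Icc (f z) (f 0) from ⟨hz0', h0.le⟩)
  have hyz : z ≤ y := hmin ⟨⟨hy.1, hy.2.trans hz.2⟩, hy0.le⟩
  have hzy : y = z := le_antisymm hy.2 hyz
  have := h z hz fun t ht => by
    by_contra hlt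
    have : z ≤ t := hmin ⟨⟨ht.1, ht.2.trans hz.2⟩, (not_le.1 hlt).le⟩
    have : t = z := le_antisymm ht.2 this
    rw [this, ← hzy, hy0] at hlt
    exact hlt le_rfl
  linarith

lemma jn_super (n : ℕ) (z : ℝ) (hz : z ≤ (n + 2) / 2) (hpos : ∀ t ∈ Icc 0 z, 0 ≤ jn n t) :
    ∀ t ∈ Icc 0 z, jn (n + 2) t ≤ 2 * jn n t ∧ exp (-(t ^ 2 / (n + 2))) ≤ jn n t := by
  have hm : (0 : ℝ) < n + 2 := by positivity
  have := jn_cmp n z (-1) (fun _ => 2) (fun _ => 0) (fun t => exp (-(t ^ 2 / (n + 2))))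
    (fun t _ => hasDerivAt_const t 2)
    (fun t _ => by
      have := ((hasDerivAt_pow 2 t).div_const ((n : ℝ) + 2)).neg.exp
      refine HasDerivAt.congr_deriv this ?_
      simp only [Pi.neg_apply]
      simp; ring)
    (fun t _ => exp_pos _) (by simp)
    (fun t ht => by
      have h1 : t ^ 2 ≤ (((n : ℝ) + 2) / 2) ^ 2 := pow_le_pow_left₀ ht.1 (ht.2.trans hz) 2
      have e : -1 * (((n : ℝ) + 2) - (n + 2) * 2 - t * 0 + t ^ 2 * 2 ^ 2 / (n + 2)) =
          4 * ((((n : ℝ) + 2) / 2) ^ 2 - t ^ 2) / (n + 2) := by field_simp; ring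
      rw [e]
      exact div_nonneg (by linarith) hm.le) hpos
  intro t ht
  have := this t ht
  constructor <;> linarith [this.1, this.2]

lemma jn_pos_half (n : ℕ) : ∀ t ∈ Icc (0 : ℝ) ((n + 2) / 2), 0 < jn n t :=
  pos_of_step (continuous_jn n) (by simp [jn_zero]) fun z hz h =>
    (exp_pos _).trans_le (jn_super n z hz.2 h z ⟨hz.1, le_rfl⟩).2

lemma jn_pos_step (n : ℕ) (T : ℝ) (h2 : ∀ t ∈ Icc 0 T, 0 < jn (n + 2) t) (hT : 0 < jn n T) :
    ∀ t ∈ Icc 0 T, 0 < jn n t := by
  intro t ht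
  refine hT.trans_le (le_of_deriv_nonpos ht.2 (fun r _ => hasDerivAt_jn n r) fun r hr => ?_)
  have hr0 : 0 ≤ r := ht.1.trans hr.1.le
  have := h2 r ⟨hr0, hr.2.le⟩
  have : 0 ≤ r / (n + 2) * jn (n + 2) r := by positivity
  linarith

lemma jn_pos_chain (i : ℕ) : ∀ (n : ℕ) (T : ℝ), T ≤ (n + 2 + 2 * i) / 2 →
    (∀ k < i, 0 < jn (n + 2 * k) T) → ∀ t ∈ Icc 0 T, 0 < jn n t := by
  induction i with
  | zero =>
    intro n T hT _ t ht
    exact jn_pos_half n t ⟨ht.1, ht.2.trans (by simpa using hT)⟩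
  | succ i ih =>
    intro n T hT h
    refine jn_pos_step n T (ih (n + 2) T (by push_cast at hT ⊢; linarith) fun k hk => ?_)
      (h 0 (Nat.succ_pos i))
    have := h (k + 1) (Nat.succ_lt_succ hk)
    rwa [show n + 2 * (k + 1) = n + 2 + 2 * k by ring] at this

/-- The Liouville normal form. -/
noncomputable def uu (n : ℕ) (t : ℝ) : ℝ := t ^ (((n : ℝ) + 1) / 2) * jn n t

/-- The companion function. -/
noncomputable def vv (n : ℕ) (t : ℝ) : ℝ :=
  -(t ^ 2 / (n + 2)) * jn (n + 2) t + (n + 1) / 2 * jn n t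

/-- The derivative of the normal form. -/
noncomputable def uu1 (n : ℕ) (t : ℝ) : ℝ := t ^ (((n : ℝ) + 1) / 2) * (vv n t / t)

/-- The potential. -/
noncomputable def QQ (n : ℕ) (t : ℝ) : ℝ := 1 - ((n : ℝ) + 1) * (n - 1) / 4 / t ^ 2

lemma hasDerivAt_uu (n : ℕ) {t : ℝ} (ht : 0 < t) : HasDerivAt (uu n) (uu1 n t) t := by
  have := (hasDerivAt_rpow_const (p := ((n : ℝ) + 1) / 2) (Or.inl ht.ne')).mul (hasDerivAt_jn n t)
  refine HasDerivAt.congr_deriv this ?_
  rw [rpow_sub_one ht.ne', uu1, vv]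
  field_simp
  ring

lemma hasDerivAt_uu1 (n : ℕ) {t : ℝ} (ht : 0 < t) :
    HasDerivAt (uu1 n) (-(QQ n t * uu n t)) t := by
  have hv := ((((hasDerivAt_pow 2 t).div_const ((n : ℝ) + 2)).neg.mul
    (hasDerivAt_jn (n + 2) t)).add ((hasDerivAt_jn n t).const_mul (((n : ℝ) + 1) / 2))).div
    (hasDerivAt_id t) ht.ne'
  have := (hasDerivAt_rpow_const (p := ((n : ℝ) + 1) / 2) (Or.inl ht.ne')).mul hv
  refine HasDerivAt.congr_deriv this ?_
  have hr := jn_rec n t
  rw [rpow_sub_one ht.ne', uu, QQ]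
  simp only [Pi.div_apply, Pi.add_apply, Pi.mul_apply, Pi.neg_apply, id,
    show n + 2 + 2 = n + 4 from rfl]
  push_cast
  generalize t ^ (((n : ℝ) + 1) / 2) = b
  have h4 : (n : ℝ) + 2 + 2 ≠ 0 := by positivity
  field_simp
  linear_combination (16 * b * t ^ 2) * hr

lemma hasDerivAt_QQ (n : ℕ) {t : ℝ} (ht : 0 < t) :
    HasDerivAt (QQ n) (((n : ℝ) + 1) * (n - 1) / 2 / t ^ 3) t := by
  have := ((hasDerivAt_const t (((n : ℝ) + 1) * (n - 1) / 4)).div (hasDerivAt_pow 2 t)
    (pow_pos ht 2).ne').const_sub 1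
  refine HasDerivAt.congr_deriv this ?_
  simp only [Nat.cast_ofNat, Nat.add_one_sub_one, pow_one]
  field_simp
  ring

/-- The energy bound beyond `T`. -/
def Energy (n : ℕ) (T E : ℝ) : Prop :=
  ∀ t, T ≤ t → uu n t ^ 2 ≤ E ∧ uu1 n t ^ 2 + QQ n t * uu n t ^ 2 ≤ E ∧ 0 ≤ QQ n t

lemma rpow_half_sq (n : ℕ) {t : ℝ} (ht : 0 < t) : (t ^ (((n : ℝ) + 1) / 2)) ^ 2 = t ^ (n + 1) := by
  rw [← rpow_natCast, ← rpow_mul ht.le, ← rpow_natCast]
  congr 1
  push_cast
  ring

lemma energy_big (n : ℕ) (hn : 1 ≤ n) (T ρ : ℝ) (hT : 0 < T)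
    (hl : ((n : ℝ) + 1) * (n - 1) / 4 < T ^ 2)
    (hρ : jn n T ^ 2 + vv n T ^ 2 / (T ^ 2 - ((n : ℝ) + 1) * (n - 1) / 4) ≤ ρ ^ 2) :
    Energy n T (T ^ (n + 1) * ρ ^ 2) := by
  have hn' : (1 : ℝ) ≤ n := by exact_mod_cast hn
  have hlam : 0 ≤ ((n : ℝ) + 1) * (n - 1) / 4 := by
    have : 0 ≤ (n : ℝ) - 1 := by linarith
    positivity
  have hQ : ∀ t, T ≤ t → 0 < QQ n t ∧ QQ n t ≤ 1 := fun t ht => by
    have ht0 := hT.trans_le ht
    have h2 := pow_le_pow_left₀ hT.le ht 2
    rw [QQ, sub_pos, div_lt_one (by positivity)]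
    exact ⟨by linarith, by have : 0 ≤ ((n : ℝ) + 1) * (n - 1) / 4 / t ^ 2 := by positivity
                           linarith⟩
  intro t ht
  have hE := le_of_deriv_nonpos (f := fun t => uu n t ^ 2 + uu1 n t ^ 2 / QQ n t)
    (f' := fun t => -(uu1 n t ^ 2 * (((n : ℝ) + 1) * (n - 1) / 2 / t ^ 3) / QQ n t ^ 2)) ht
    (fun r hr => by
      have hr0 := hT.trans_le hr.1
      have := ((hasDerivAt_uu n hr0).pow 2).add
        (((hasDerivAt_uu1 n hr0).pow 2).div (hasDerivAt_QQ n hr0) (hQ r hr.1).1.ne')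
      refine HasDerivAt.congr_deriv this ?_
      have := (hQ r hr.1).1.ne'
      simp only [Pi.pow_apply, Nat.cast_ofNat, Nat.add_one_sub_one, pow_one]
      field_simp
      ring)
    (fun r hr => by
      have hr0 := hT.trans hr.1
      have : 0 ≤ ((n : ℝ) + 1) * (n - 1) / 2 / r ^ 3 := by
        have : 0 ≤ ((n : ℝ) + 1) * (n - 1) / 2 := by linarith
        positivity
      exact neg_nonpos.2 (by positivity))
  have hET : uu n T ^ 2 + uu1 n T ^ 2 / QQ n T ≤ T ^ (n + 1) * ρ ^ 2 := by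
    refine le_trans (le_of_eq ?_) (mul_le_mul_of_nonneg_left hρ (pow_pos hT _).le)
    rw [uu, uu1, mul_pow, mul_pow, rpow_half_sq n hT, QQ]
    have : T ^ 2 - ((n : ℝ) + 1) * (n - 1) / 4 ≠ 0 := by linarith
    have : 1 - ((n : ℝ) + 1) * (n - 1) / 4 / T ^ 2 = (T ^ 2 - ((n : ℝ) + 1) * (n - 1) / 4) / T ^ 2 := by
      field_simp
    rw [this]
    field_simp
  obtain ⟨hq0, hq1⟩ := hQ t ht
  have hle := hE.trans hET
  have h1 : 0 ≤ uu1 n t ^ 2 / QQ n t := by positivity
  refine ⟨by linarith, ?_, hq0.le⟩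
  have e : uu1 n t ^ 2 + QQ n t * uu n t ^ 2 = QQ n t * (uu n t ^ 2 + uu1 n t ^ 2 / QQ n t) := by
    field_simp; ring
  rw [e]
  have : 0 ≤ uu n t ^ 2 + uu1 n t ^ 2 / QQ n t := by positivity
  nlinarith

lemma energy_zero (T ρ : ℝ) (hT : 0 < T)
    (hρ : (1 + 1 / (4 * T ^ 2)) * jn 0 T ^ 2 + vv 0 T ^ 2 / T ^ 2 ≤ ρ ^ 2) :
    Energy 0 T (T ^ (0 + 1) * ρ ^ 2) := by
  have hQ : ∀ t, QQ 0 t = 1 + 1 / (4 * t ^ 2) := fun t => by
    rw [QQ]; simp; ring
  intro t ht
  have hE := le_of_deriv_nonpos (f := fun t => uu1 0 t ^ 2 + QQ 0 t * uu 0 t ^ 2)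
    (f' := fun t => -(uu 0 t ^ 2 / (2 * t ^ 3))) ht
    (fun r hr => by
      have hr0 := hT.trans_le hr.1
      have := ((hasDerivAt_uu1 0 hr0).pow 2).add
        ((hasDerivAt_QQ 0 hr0).mul ((hasDerivAt_uu 0 hr0).pow 2))
      refine HasDerivAt.congr_deriv this ?_
      simp only [Pi.pow_apply, Nat.cast_ofNat, Nat.add_one_sub_one, pow_one, Nat.cast_zero]
      field_simp
      ring)
    (fun r hr => by
      have hr0 := hT.trans hr.1
      exact neg_nonpos.2 (by positivity))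
  have hET : uu1 0 T ^ 2 + QQ 0 T * uu 0 T ^ 2 ≤ T ^ (0 + 1) * ρ ^ 2 := by
    refine le_trans (le_of_eq ?_) (mul_le_mul_of_nonneg_left hρ (pow_pos hT _).le)
    rw [uu, uu1, mul_pow, mul_pow, rpow_half_sq 0 hT, hQ]
    field_simp
    ring
  have h1 : 1 ≤ QQ 0 t := by
    rw [hQ]
    have : 0 ≤ 1 / (4 * t ^ 2) := by positivity
    linarith
  have hle := hE.trans hET
  refine ⟨?_, hle, by linarith⟩
  nlinarith [sq_nonneg (uu 0 t), sq_nonneg (uu1 0 t)]

end Pool.Agent.Lib.MP_237b21_an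
end

-- part Pool.Agent.Lib.MP_237b21_an.Tail
section

/-! Tail bounds for powers of the normalised Bessel functions. -/

namespace Pool.Agent.Lib.MP_237b21_an

open MeasureTheory Set Real Filter
open scoped Topology ENNReal

lemma abs_uu_le {n : ℕ} {T ρ : ℝ} (hT : 0 < T) (hρ : 0 ≤ ρ)
    (hE : Energy n T (T ^ (n + 1) * ρ ^ 2)) {t : ℝ} (ht : T ≤ t) :
    |uu n t| ≤ T ^ (((n : ℝ) + 1) / 2) * ρ := by
  refine abs_le_of_sq_le_sq' ?_ (by positivity) |> abs_le.2
  rw [mul_pow, rpow_half_sq n hT]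
  exact (hE t ht).1

lemma abs_jn_eq (n : ℕ) {t : ℝ} (ht : 0 < t) :
    |jn n t| = |uu n t| * t ^ (-(((n : ℝ) + 1) / 2)) := by
  rw [uu, abs_mul, abs_of_pos (rpow_pos_of_pos ht _), rpow_neg ht.le]
  have := (rpow_pos_of_pos ht (((n : ℝ) + 1) / 2)).ne'
  field_simp

lemma abs_jn_le_rho {n : ℕ} {T ρ : ℝ} (hT : 0 < T) (hρ : 0 ≤ ρ)
    (hE : Energy n T (T ^ (n + 1) * ρ ^ 2)) {t : ℝ} (ht : T ≤ t) : |jn n t| ≤ ρ := by
  have ht0 := hT.trans_le ht
  refine abs_le_of_sq_le_sq' ?_ hρ |> abs_le.2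
  have h1 := (hE t ht).1
  rw [uu, mul_pow, rpow_half_sq n ht0] at h1
  have h2 : T ^ (n + 1) ≤ t ^ (n + 1) := pow_le_pow_left₀ hT.le ht _
  have h3 : t ^ (n + 1) * jn n t ^ 2 ≤ t ^ (n + 1) * ρ ^ 2 :=
    h1.trans (mul_le_mul_of_nonneg_right h2 (sq_nonneg _))
  exact le_of_mul_le_mul_left h3 (pow_pos ht0 _)

end Pool.Agent.Lib.MP_237b21_an
end

-- part Pool.Agent.Lib.MP_237b21_an.GammaB
section

/-! Two-sided elementary bounds for ratios of Gamma functions. -/

namespace Pool.Agent.Lib.MP_237b21_an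

open Set Real Filter
open scoped Topology

/-- The logarithm of a Gamma ratio. -/
noncomputable def LG (y q : ℝ) : ℝ := log (Gamma (y + q)) - log (Gamma y)

lemma LG_succ {y q : ℝ} (hy : 0 < y) (hq : 0 ≤ q) :
    LG (y + 1) q = LG y q + (log (y + q) - log y) := by
  have h1 : 0 < y + q := by linarith
  rw [LG, LG, show y + 1 + q = y + q + 1 by ring, Gamma_add_one h1.ne', Gamma_add_one hy.ne',
    log_mul h1.ne' (Gamma_pos_of_pos h1).ne', log_mul hy.ne' (Gamma_pos_of_pos hy).ne']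
  ring

lemma LG_lower0 {z q : ℝ} (hz : 1 < z) (hq : 0 ≤ q) : q * log (z - 1) ≤ LG z q := by
  rcases hq.eq_or_lt with h | h
  · simp [← h, LG]
  have := convexOn_log_Gamma.slope_mono_adjacent (x := z - 1) (y := z) (z := z + q)
    (show 0 < z - 1 by linarith) (show 0 < z + q by linarith) (by linarith) (by linarith)
  simp only [Function.comp] at this
  have h1 : 0 < z - 1 := by linarith
  have h2 : Gamma z = (z - 1) * Gamma (z - 1) := by
    rw [← Gamma_add_one h1.ne']; simp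
  rw [show z - (z - 1) = 1 by ring, show z + q - z = q by ring, div_one, le_div_iff₀ h] at this
  have h3 : log (Gamma z) - log (Gamma (z - 1)) = log (z - 1) := by
    rw [h2, log_mul h1.ne' (Gamma_pos_of_pos h1).ne']; ring
  rw [h3] at this
  rw [LG]; linarith

lemma LG_upper0 {z q : ℝ} (hz : 0 < z) (hq : 0 ≤ q) : LG z q ≤ q * log (z + q) := by
  rcases hq.eq_or_lt with h | h
  · simp [← h, LG]
  have h1 : 0 < z + q := by linarith
  have := convexOn_log_Gamma.slope_mono_adjacent (x := z) (y := z + q) (z := z + q + 1)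
    hz (show 0 < z + q + 1 by linarith) (by linarith) (by linarith)
  simp only [Function.comp] at this
  rw [show z + q + 1 - (z + q) = 1 by ring, show z + q - z = q by ring, div_one, div_le_iff₀ h,
    Gamma_add_one h1.ne', log_mul h1.ne' (Gamma_pos_of_pos h1).ne'] at this
  rw [LG]; linarith

lemma tele (f : ℕ → ℝ) (h : ∀ n, f (n + 1) ≤ f n) (C : ℝ)
    (hC : ∀ n : ℕ, -(C / (n + 1)) ≤ f (n + 2)) : 0 ≤ f 0 := by
  have ha : Antitone f := antitone_nat_of_succ_le h
  have : Tendsto (fun n : ℕ => -(C / ((n : ℝ) + 1))) atTop (𝓝 0) := by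
    have := (tendsto_one_div_add_atTop_nhds_zero_nat (𝕜 := ℝ)).const_mul (-C)
    simp only [mul_zero] at this
    refine this.congr fun n => by ring
  exact le_of_tendsto' this fun n => (hC n).trans (ha (Nat.zero_le _))

lemma log_trap {x : ℝ} (hx : 0 ≤ x) : log (1 + x) ≤ (x + x / (1 + x)) / 2 := by
  have := le_of_deriv_nonneg (f := fun x => (x + x / (1 + x)) / 2 - log (1 + x))
    (f' := fun x => (1 - 1 / (1 + x)) ^ 2 / 2) hx
    (fun t ht => by
      have h : 1 + t ≠ 0 := by linarith [ht.1]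
      have := (((hasDerivAt_id t).add ((hasDerivAt_id t).div ((hasDerivAt_id t).const_add 1)
        h)).div_const 2).sub (((hasDerivAt_id t).const_add 1).log h)
      refine HasDerivAt.congr_deriv this ?_
      simp only [id]
      field_simp
      ring)
    (fun t _ => by positivity)
  simp at this
  linarith

lemma log_mid {z : ℝ} (hz : 1 / 2 < z) : 1 / z ≤ log (z + 1 / 2) - log (z - 1 / 2) := by
  obtain ⟨w, rfl⟩ : ∃ w, z = w + 1 / 2 := ⟨z - 1 / 2, by ring⟩
  have h : 0 < w := by linarith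
  have := le_log_one_add_of_nonneg (x := 1 / w) (by positivity)
  rw [add_sub_cancel_right, ← log_div (by linarith) h.ne']
  have e1 : 1 + 1 / w = (w + 1 / 2 + 1 / 2) / w := by field_simp; ring
  have e2 : 2 * (1 / w) / (1 / w + 2) = 1 / (w + 1 / 2) := by
    field_simp; ring
  rwa [e1, e2] at this

lemma log_sub_le {a b : ℝ} (ha : 0 < a) (hb : 0 < b) : log a - log b ≤ (a - b) / b := by
  rw [← log_div ha.ne' hb.ne']
  refine (log_le_sub_one_of_pos (div_pos ha hb)).trans (le_of_eq ?_)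
  field_simp

theorem LG_lower {y q : ℝ} (hy : 1 / 2 < y) (hq : 0 ≤ q) :
    q / 2 * (log (y - 1 / 2) + log (y - 1 / 2 + q)) ≤ LG y q := by
  have := tele (fun n => LG (y + n) q - q / 2 * (log (y + n - 1 / 2) + log (y + n - 1 / 2 + q)))
    (fun n => by
      have hn : (0 : ℝ) ≤ n := n.cast_nonneg
      set z := y + n with hz
      have hz0 : 1 / 2 < z := by linarith
      push_cast
      rw [show y + (n + 1) = z + 1 by rw [hz]; ring, LG_succ (by linarith) hq]
      have h1 := log_mid hz0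
      have h2 := log_mid (show 1 / 2 < z + q by linarith)
      have h3 := log_trap (show 0 ≤ q / z by have : 0 < z := by linarith
                                             positivity)
      have hz1 : 0 < z := by linarith
      have e1 : 1 + q / z = (z + q) / z := by field_simp
      rw [e1, log_div (by linarith) hz1.ne'] at h3
      have e2 : (q / z + q / z / ((z + q) / z)) / 2 = q / 2 * (1 / z + 1 / (z + q)) := by
        have : z + q ≠ 0 := by linarith
        field_simp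
      rw [e2] at h3
      rw [show z + 1 - 1 / 2 = z + 1 / 2 by ring, show z + 1 / 2 + q = z + q + 1 / 2 by ring,
        show z - 1 / 2 + q = z + q - 1 / 2 by ring]
      have := mul_le_mul_of_nonneg_left (add_le_add h1 h2) (show 0 ≤ q / 2 by positivity)
      linarith) (q * (q + 1 / 2))
    (fun n => by
      have hn : (0 : ℝ) ≤ n := n.cast_nonneg
      push_cast
      set z := y + (n + 2) with hz
      have h1 := LG_lower0 (show 1 < z by linarith) hq
      have h2 : log (z - 1 / 2) ≤ log (z - 1 / 2 + q) := log_le_log (by linarith) (by linarith)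
      have h3 := log_sub_le (show 0 < z - 1 / 2 + q by linarith) (show 0 < z - 1 by linarith)
      have h4 : (z - 1 / 2 + q - (z - 1)) / (z - 1) ≤ (q + 1 / 2) / (n + 1) := by
        rw [show z - 1 / 2 + q - (z - 1) = q + 1 / 2 by ring]
        exact div_le_div_of_nonneg_left (by linarith) (by positivity) (by linarith)
      have h5 := mul_le_mul_of_nonneg_left (h3.trans h4) hq
      have h6 := mul_le_mul_of_nonneg_left h2 hq
      rw [mul_div_assoc]
      linarith)
  simpa using this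

lemma artanh_upper {u : ℝ} (hu : 0 ≤ u) (hu1 : u < 1) :
    log (1 + u) - log (1 - u) ≤ 2 * u + 2 / 3 * u ^ 3 / (1 - u ^ 2) ^ 2 := by
  have := le_of_deriv_nonneg
    (f := fun u => 2 * u + 2 / 3 * u ^ 3 / (1 - u ^ 2) ^ 2 - (log (1 + u) - log (1 - u)))
    (f' := fun u => (2 * u ^ 2 * (1 - (1 - u ^ 2) ^ 2) + 2 / 3 * u ^ 4) / (1 - u ^ 2) ^ 3) hu
    (fun t ht => by
      have h1 : 1 + t ≠ 0 := by linarith [ht.1]
      have h2 : 1 - t ≠ 0 := by linarith [ht.2]
      have h3 : 1 - t ^ 2 ≠ 0 := by rw [show 1 - t ^ 2 = (1 + t) * (1 - t) by ring]; positivity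
      have := (((hasDerivAt_id t).const_mul 2).add (((hasDerivAt_pow 3 t).const_mul (2 / 3)).div
        (((hasDerivAt_pow 2 t).const_sub 1).pow 2) (pow_ne_zero 2 h3))).sub
        ((((hasDerivAt_id t).const_add 1).log h1).sub (((hasDerivAt_id t).const_sub 1).log h2))
      refine HasDerivAt.congr_deriv this ?_
      simp only [id, Pi.pow_apply, Nat.cast_ofNat, Nat.add_one_sub_one, pow_one]
      rw [show 1 - t ^ 2 = (1 + t) * (1 - t) by ring]
      field_simp
      ring)
    (fun t ht => by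
      have h1 : t ^ 2 < 1 := by nlinarith [ht.1, ht.2]
      have h2 : 0 < 1 - t ^ 2 := by linarith
      have h3 : 0 ≤ 1 - (1 - t ^ 2) ^ 2 := by nlinarith [sq_nonneg t]
      positivity)
  simp at this
  linarith

theorem LG_upper {y r : ℝ} (hy : 0 < y) (hr : 0 ≤ r) (hr1 : r ≤ 1) (hc : 0 < y + (r - 1) / 2) :
    LG y r ≤ r * log (y + (r - 1) / 2) + r / (24 * (y + (r - 1) / 2) ^ 2) := by
  have := tele (fun n => r * log (y + n + (r - 1) / 2) + r / (24 * (y + n + (r - 1) / 2) ^ 2)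
      - LG (y + n) r)
    (fun n => by
      have hn : (0 : ℝ) ≤ n := n.cast_nonneg
      set z := y + n with hz
      have hz0 : 0 < z := by linarith
      set c := z + (r - 1) / 2 with hcd
      have hc0 : 0 < c := by linarith
      push_cast
      rw [show y + (n + 1) = z + 1 by rw [hz]; ring, LG_succ hz0 hr,
        show z + 1 + (r - 1) / 2 = c + 1 by rw [hcd]; ring]
      have hu := artanh_upper (u := 1 / (2 * c + 1)) (by positivity)
        (by rw [div_lt_one (by positivity)]; linarith)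
      have e1 : 1 + 1 / (2 * c + 1) = (c + 1) * (2 / (2 * c + 1)) := by field_simp; ring
      have e2 : 1 - 1 / (2 * c + 1) = c * (2 / (2 * c + 1)) := by field_simp; ring
      have e3 : 2 * (1 / (2 * c + 1)) + 2 / 3 * (1 / (2 * c + 1)) ^ 3 /
          (1 - (1 / (2 * c + 1)) ^ 2) ^ 2 =
          2 / (2 * c + 1) + (1 / (24 * c ^ 2) - 1 / (24 * (c + 1) ^ 2)) := by
        have : 1 - (1 / (2 * c + 1)) ^ 2 = 4 * c * (c + 1) / (2 * c + 1) ^ 2 := by field_simp; ring
        rw [this]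
        field_simp
        ring
      rw [e3, e1, e2, log_mul (by positivity) (by positivity),
        log_mul (by positivity) (by positivity)] at hu
      have h2 := le_log_one_add_of_nonneg (x := r / z) (by positivity)
      have e4 : 1 + r / z = (z + r) / z := by field_simp
      have e5 : 2 * (r / z) / (r / z + 2) = r * (2 / (2 * c + 1)) := by
        rw [hcd]
        have : r + 2 * z ≠ 0 := by linarith
        have : 2 * z + r ≠ 0 := by linarith
        have : 2 * (z + (r - 1) / 2) + 1 = 2 * z + r := by ring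
        rw [this]
        field_simp
        ring
      rw [e4, e5, log_div (by linarith) hz0.ne'] at h2
      have := mul_le_mul_of_nonneg_left hu hr
      have e6 : r / (24 * (c + 1) ^ 2) = r * (1 / (24 * (c + 1) ^ 2)) := by ring
      have e7 : r / (24 * c ^ 2) = r * (1 / (24 * c ^ 2)) := by ring
      rw [e6, e7]
      linarith) 2
    (fun n => by
      have hn : (0 : ℝ) ≤ n := n.cast_nonneg
      push_cast
      set z := y + (n + 2) with hz
      have h1 := LG_upper0 (show 0 < z by linarith) hr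
      have h3 := log_sub_le (show 0 < z + r by linarith) (show 0 < z + (r - 1) / 2 by linarith)
      have h4 : (z + r - (z + (r - 1) / 2)) / (z + (r - 1) / 2) ≤ 2 / (n + 1) :=
        div_le_div₀ (by norm_num) (by linarith) (by positivity) (by linarith)
      have h5 := mul_le_mul_of_nonneg_left (h3.trans h4) hr
      have h6 : r * (2 / (n + 1)) ≤ 2 / (n + 1) := mul_le_of_le_one_left (by positivity) hr1
      have h7 : 0 ≤ r / (24 * (z + (r - 1) / 2) ^ 2) := by positivity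
      linarith)
  simpa using this

lemma Gamma_eq_LG {y q : ℝ} (hy : 0 < y) (hq : 0 ≤ q) : Gamma (y + q) = Gamma y * exp (LG y q) := by
  have h1 := Gamma_pos_of_pos hy
  have h2 := Gamma_pos_of_pos (show 0 < y + q by linarith)
  rw [LG, exp_sub, exp_log h1, exp_log h2]
  field_simp

end Pool.Agent.Lib.MP_237b21_an
end
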