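import Pool.Agent.Lib.MP_237b21_an.Conv
import Pool.Agent.Lib.MP_237b21_an.GammaB

-- part Pool.Agent.Lib.MP_237b21_an.Fourier
section

/-! The Fourier formula for negative moments and Hoelder's inequality. -/

namespace Pool.Agent.Lib.MP_237b21_an

open MeasureTheory Set Real
open scoped ENNReal

/-- The negative power. -/
noncomputable def Fq (q ρ : ℝ) : ℝ≥0∞ := (ENNReal.ofReal ρ) ^ (-q)

lemma Fq_meas (q : ℝ) : Measurable (Fq q) := by unfold Fq; fun_prop

lemma Fq_pos (q : ℝ) {ρ : ℝ} (h : 0 < ρ) : Fq q ρ = ENNReal.ofReal (ρ ^ (-q)) := by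
  rw [Fq, ENNReal.ofReal_rpow_of_pos h]

/-- The Gaussian normalisation. -/
noncomputable def kap (s : ℝ) : ℝ := 2 ^ s * (1 / 2) * Gamma s

lemma kap_pos {s : ℝ} (hs : 0 < s) : 0 < kap s := by
  have := Gamma_pos_of_pos hs
  unfold kap; positivity

/-- The Mellin measure. -/
noncomputable def mw (p : ℝ) : Measure ℝ :=
  (volume.restrict (Ioi 0)).withDensity fun t => ENNReal.ofReal (t ^ (p - 1))

instance (p : ℝ) : SFinite (mw p) := by unfold mw; infer_instance

lemma lint_mw (p : ℝ) {f : ℝ → ℝ≥0∞} (hf : Measurable f) :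
    ∫⁻ t, f t ∂mw p = ∫⁻ t in Ioi (0 : ℝ), ENNReal.ofReal (t ^ (p - 1)) * f t := by
  rw [mw, lintegral_withDensity_eq_lintegral_mul _ (by fun_prop) hf]
  rfl

lemma mw_pos (p : ℝ) : ∀ᵐ t ∂mw p, 0 < t :=
  withDensity_absolutelyContinuous _ _ (ae_restrict_mem measurableSet_Ioi)

lemma mw_scale (p : ℝ) {a : ℝ} (ha : 0 < a) {f : ℝ → ℝ≥0∞} (hf : Measurable f) :
    ∫⁻ t, f (a * t) ∂mw p = ENNReal.ofReal (a ^ (-p)) * ∫⁻ t, f t ∂mw p := by
  rw [lint_mw p hf, lint_mw p (by fun_prop)]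
  have h := lintegral_image_eq_lintegral_abs_deriv_mul (s := Ioi (0 : ℝ)) (f := fun t => a * t)
    (f' := fun _ => a) measurableSet_Ioi
    (fun x _ => ((hasDerivAt_id x).const_mul a).hasDerivWithinAt.congr_deriv (by simp))
    (fun x _ y _ hxy => mul_left_cancel₀ ha.ne' hxy)
    (fun t => ENNReal.ofReal (t ^ (p - 1)) * f t)
  have him : (fun t => a * t) '' Ioi (0 : ℝ) = Ioi 0 := by
    rw [image_const_mul_Ioi_zero ha]
  rw [him] at h
  rw [h, ← lintegral_const_mul _ (by fun_prop)]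
  refine setLIntegral_congr_fun measurableSet_Ioi fun t ht => ?_
  have ht' : (0 : ℝ) < t := ht
  rw [← mul_assoc, ← mul_assoc, ← ENNReal.ofReal_mul (by positivity),
    ← ENNReal.ofReal_mul (by positivity), abs_of_pos ha, mul_rpow ha.le ht'.le]
  congr 2
  rw [← mul_assoc, ← rpow_add_one ha.ne', ← rpow_add ha]
  simp

lemma integrable_gauss {b : ℝ} (hb : 0 < b) {s : ℝ} (hs : 0 < s) :
    IntegrableOn (fun r : ℝ => r ^ (2 * s - 1) * exp (-b * r ^ (2 : ℝ))) (Ioi 0) :=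
  integrableOn_rpow_mul_exp_neg_mul_rpow (by linarith) two_pos hb

lemma mw_gauss {b : ℝ} (hb : 0 < b) {s : ℝ} (hs : 0 < s) :
    ∫⁻ t, ENNReal.ofReal (exp (-(b * t ^ 2))) ∂mw (2 * s) =
      ENNReal.ofReal (b ^ (-s) * (1 / 2) * Gamma s) := by
  rw [lint_mw _ (by fun_prop), ← int_gauss hb hs, ofReal_integral_eq_lintegral_ofReal
    (integrable_gauss hb hs) (ae_restrict_of_forall_mem measurableSet_Ioi fun t ht =>
      mul_nonneg (rpow_nonneg (le_of_lt ht) _) (exp_nonneg _))]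
  refine setLIntegral_congr_fun measurableSet_Ioi fun t ht => ?_
  rw [ENNReal.ofReal_mul (rpow_nonneg (le_of_lt ht) _), rpow_two, neg_mul]

lemma mw_univ (p : ℝ) : ∫⁻ _, 1 ∂mw p = ⊤ := by
  rw [lint_mw _ measurable_const]
  by_contra h
  refine not_integrableOn_Ioi_rpow (p - 1) ⟨by fun_prop, ?_⟩
  rw [hasFiniteIntegral_iff_ofReal (ae_restrict_of_forall_mem measurableSet_Ioi fun t ht =>
      rpow_nonneg (le_of_lt ht) _)]
  simpa [lt_top_iff_ne_top] using h

lemma gamma_mix {q : ℝ} (hq : 0 < q) {ρ : ℝ} (hρ : 0 ≤ ρ) :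
    ENNReal.ofReal (kap q) * Fq q ρ =
      ∫⁻ v, ENNReal.ofReal (exp (-(v ^ 2 * ρ / 2))) ∂mw (2 * q) := by
  rcases hρ.eq_or_lt with rfl | h
  · simp only [mul_zero, zero_div, neg_zero, exp_zero, ENNReal.ofReal_one, mw_univ, Fq,
      ENNReal.ofReal_zero]
    rw [ENNReal.zero_rpow_of_neg (by linarith), ENNReal.mul_top (by simpa using kap_pos hq)]
  · have := mw_gauss (b := ρ / 2) (by positivity) hq
    simp only [show ∀ v : ℝ, v ^ 2 * ρ / 2 = ρ / 2 * v ^ 2 from fun v => by ring]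
    rw [this, Fq_pos q h, ← ENNReal.ofReal_mul (kap_pos hq).le, kap, div_rpow h.le (by norm_num),
      rpow_neg (by norm_num : (0 : ℝ) ≤ 2)]
    congr 1
    have : (0 : ℝ) < 2 ^ q := by positivity
    field_simp

/-- The Mellin transform of the modulus of the characteristic function. -/
noncomputable def IP (n : ℕ) (q : ℝ) (l : List ℝ) : ℝ≥0∞ :=
  ∫⁻ t, ENNReal.ofReal |PJ n l t| ∂mw (2 * q)

lemma fourier_A (n : ℕ) {q : ℝ} (hq : q < ((n : ℝ) + 2) / 2) (l : List ℝ) :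
    ∫⁻ v, (∫⁻ r in Ioi (0 : ℝ), ENNReal.ofReal (r ^ (n + 1) * exp (-(r ^ 2 / 2))) *
      ENNReal.ofReal |PJ n l (v * r)|) ∂mw (2 * q) =
      ENNReal.ofReal (kap (((n : ℝ) + 2) / 2 - q)) * IP n q l := by
  have hc := (continuous_PJ n l).measurable
  rw [lintegral_lintegral_swap (by fun_prop)]
  have h1 := gamma_mix (q := ((n : ℝ) + 2) / 2 - q) (by linarith) zero_le_one
  rw [Fq_pos _ one_pos, one_rpow, ENNReal.ofReal_one, mul_one, lint_mw _ (by fun_prop)] at h1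
  rw [h1, ← lintegral_mul_const _ (by fun_prop)]
  refine setLIntegral_congr_fun measurableSet_Ioi fun r hr => ?_
  have hr' : (0 : ℝ) < r := hr
  rw [lintegral_const_mul _ (by fun_prop)]
  simp only [mul_comm _ r]
  rw [mw_scale (2 * q) hr' (f := fun t => ENNReal.ofReal |PJ n l t|) (by fun_prop), IP,
    ← mul_assoc, ← ENNReal.ofReal_mul (by positivity), ← ENNReal.ofReal_mul (by positivity)]
  congr 2
  rw [show 2 * (((n : ℝ) + 2) / 2 - q) - 1 = ((n + 1 : ℕ) : ℝ) + -(2 * q) by push_cast; ring,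
    rpow_add hr', rpow_natCast, mul_one]
  ring

lemma fourier_B (n : ℕ) {q : ℝ} (hq : 0 < q) (l : List ℝ) :
    ENNReal.ofReal (kap q * kap (((n : ℝ) + 2) / 2)) * NN n (Fq q) l =
      ∫⁻ v, ENNReal.ofReal (∫ r in Ioi (0 : ℝ),
        r ^ (n + 1) * (exp (-(r ^ 2 / 2)) * PJ n l (v * r))) ∂mw (2 * q) := by
  have hk : 0 < kap (((n : ℝ) + 2) / 2) := kap_pos (by positivity)
  rw [mul_comm (kap q), ENNReal.ofReal_mul hk.le, mul_assoc, NN,
    ← lintegral_const_mul (f := fun y : V n => Fq q (‖y‖ ^ 2)) _ ((Fq_meas q).comp (by fun_prop))]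
  simp only [gamma_mix hq (sq_nonneg _)]
  rw [lintegral_lintegral_swap (by fun_prop), ← lintegral_const_mul _
    (Measurable.lintegral_prod_right' (f := fun p : ℝ × V n =>
      ENNReal.ofReal (exp (-(p.1 ^ 2 * ‖p.2‖ ^ 2 / 2)))) (by fun_prop))]
  refine lintegral_congr_ae ?_
  filter_upwards [mw_pos (2 * q)] with v hv
  rw [← gauss_mix n l v hv.le, ← kap, ENNReal.ofReal_mul hk.le,
    ofReal_integral_eq_lintegral_ofReal _ (Filter.Eventually.of_forall fun _ => exp_nonneg _)]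
  refine (integrable_const (1 : ℝ)).mono' (by fun_prop) (Filter.Eventually.of_forall fun y => ?_)
  rw [norm_eq_abs, abs_of_pos (exp_pos _), exp_le_one_iff, neg_nonpos]
  positivity

lemma fourier_int (n : ℕ) (l : List ℝ) (v : ℝ) : IntegrableOn
    (fun r : ℝ => r ^ (n + 1) * (exp (-(r ^ 2 / 2)) * PJ n l (v * r))) (Ioi 0) := by
  have hc := continuous_PJ n l
  have := integrable_gauss (b := 1 / 2) (by norm_num) (s := ((n : ℝ) + 2) / 2) (by positivity)
  refine this.mono' (by fun_prop) (ae_restrict_of_forall_mem measurableSet_Ioi fun r hr => ?_)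
  have hr' : (0 : ℝ) < r := hr
  rw [show 2 * (((n : ℝ) + 2) / 2) - 1 = ((n + 1 : ℕ) : ℝ) by push_cast; ring, rpow_natCast,
    rpow_two, norm_eq_abs, abs_mul, abs_mul, abs_of_pos (by positivity), abs_of_pos (exp_pos _),
    show -(1 / 2) * r ^ 2 = -(r ^ 2 / 2) by ring]
  gcongr
  exact mul_le_of_le_one_right (exp_nonneg _) (abs_PJ_le _ _ _)

theorem fourier_le (n : ℕ) {q : ℝ} (hq : 0 < q) (hq' : q < ((n : ℝ) + 2) / 2) (l : List ℝ) :
    ENNReal.ofReal (kap q * kap (((n : ℝ) + 2) / 2)) * NN n (Fq q) l ≤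
      ENNReal.ofReal (kap (((n : ℝ) + 2) / 2 - q)) * IP n q l := by
  rw [fourier_B n hq, ← fourier_A n hq']
  refine lintegral_mono fun v => ?_
  refine (ENNReal.ofReal_le_ofReal (le_abs_self _)).trans ?_
  rw [← norm_eq_abs, ofReal_norm]
  refine (enorm_integral_le_lintegral_enorm _).trans (le_of_eq ?_)
  refine setLIntegral_congr_fun measurableSet_Ioi fun r hr => ?_
  have hr' : (0 : ℝ) < r := hr
  rw [← ofReal_norm, norm_eq_abs, ← ENNReal.ofReal_mul (by positivity), abs_mul, abs_mul,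
    abs_of_pos (by positivity), abs_of_pos (exp_pos _), mul_assoc]

theorem fourier_eq (n : ℕ) {q : ℝ} (hq : 0 < q) (hq' : q < ((n : ℝ) + 2) / 2) (l : List ℝ)
    (hl : ∀ t, 0 ≤ PJ n l t) :
    ENNReal.ofReal (kap q * kap (((n : ℝ) + 2) / 2)) * NN n (Fq q) l =
      ENNReal.ofReal (kap (((n : ℝ) + 2) / 2 - q)) * IP n q l := by
  rw [fourier_B n hq, ← fourier_A n hq']
  refine lintegral_congr fun v => ?_
  rw [ofReal_integral_eq_lintegral_ofReal (fourier_int n l v)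
    (ae_restrict_of_forall_mem measurableSet_Ioi fun r hr =>
      mul_nonneg (pow_nonneg (le_of_lt hr) _) (mul_nonneg (exp_nonneg _) (hl _)))]
  refine setLIntegral_congr_fun measurableSet_Ioi fun r hr => ?_
  have hr' : (0 : ℝ) < r := hr
  rw [← ENNReal.ofReal_mul (by positivity), abs_of_nonneg (hl _), mul_assoc]

/-- The Mellin transform of a power of the Bessel function. -/
noncomputable def II (n : ℕ) (q s : ℝ) : ℝ≥0∞ :=
  ∫⁻ t, ENNReal.ofReal (|jn n t| ^ s) ∂mw (2 * q)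

/-- The sum of squares. -/
def ssq (l : List ℝ) : ℝ := (l.map (· ^ 2)).sum

lemma ennreal_rpow_sum {ι : Type*} (x : ℝ≥0∞) (s : Finset ι) (f : ι → ℝ) (hf : ∀ i, 0 ≤ f i) :
    x ^ (∑ i ∈ s, f i) = ∏ i ∈ s, x ^ f i := by
  classical
  induction s using Finset.induction_on with
  | empty => simp
  | insert a s ha ih =>
    rw [Finset.sum_insert ha, Finset.prod_insert ha,
      ENNReal.rpow_add_of_nonneg _ _ (hf a) (Finset.sum_nonneg fun i _ => hf i), ih]

lemma holder_fn (n : ℕ) {q : ℝ} (M : ℝ≥0∞)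
    (hM : ∀ s, 2 ≤ s → II n q s ≤ ENNReal.ofReal ((s / 2) ^ (-q)) * M)
    {k : ℕ} (a : Fin k → ℝ) {A : ℝ} (hA : ∑ i, a i ^ 2 = A) (hA0 : 0 < A)
    (ha : ∀ i, a i ^ 2 ≤ A / 2) :
    IP n q (List.ofFn a) ≤ ENNReal.ofReal ((A / 2) ^ (-q)) * M := by
  have hc := (continuous_jn n).measurable
  have hp : ∑ i, a i ^ 2 / A = 1 := by rw [← Finset.sum_div, hA, div_self hA0.ne']
  have h := ENNReal.lintegral_prod_norm_pow_le (μ := mw (2 * q)) Finset.univ
    (f := fun i t => ENNReal.ofReal (|jn n (|a i| * t)| ^ (A / a i ^ 2)))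
    (fun i _ => by fun_prop) hp (fun i _ => by positivity)
  have h1 : IP n q (List.ofFn a) = ∫⁻ t, ∏ i, ENNReal.ofReal
      (|jn n (|a i| * t)| ^ (A / a i ^ 2)) ^ (a i ^ 2 / A) ∂mw (2 * q) := by
    refine lintegral_congr fun t => ?_
    rw [PJ, List.map_ofFn, List.prod_ofFn, Finset.abs_prod,
      ENNReal.ofReal_prod_of_nonneg fun _ _ => abs_nonneg _]
    refine Finset.prod_congr rfl fun i _ => ?_
    rcases eq_or_ne (a i) 0 with h0 | h0
    · simp [h0, jn_zero]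
    · have : 0 < a i ^ 2 := by positivity
      rw [ENNReal.ofReal_rpow_of_nonneg (by positivity) (by positivity), ← rpow_mul (abs_nonneg _),
        show A / a i ^ 2 * (a i ^ 2 / A) = 1 by field_simp, rpow_one, Function.comp,
        ← jn_abs n (a i * t), ← jn_abs n (|a i| * t), abs_mul, abs_mul, abs_abs]
  rw [h1]
  refine h.trans ?_
  have h2 : ENNReal.ofReal ((A / 2) ^ (-q)) * M =
      ∏ i, (ENNReal.ofReal ((A / 2) ^ (-q)) * M) ^ (a i ^ 2 / A) := by
    rw [← ennreal_rpow_sum _ _ _ fun i => by positivity, hp, ENNReal.rpow_one]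
  rw [h2]
  refine Finset.prod_le_prod' fun i _ => ?_
  rcases eq_or_ne (a i) 0 with h0 | h0
  · simp [h0]
  have hi : 0 < a i ^ 2 := by positivity
  refine ENNReal.rpow_le_rpow ?_ (by positivity)
  rw [mw_scale (2 * q) (abs_pos.2 h0) (f := fun t => ENNReal.ofReal (|jn n t| ^ (A / a i ^ 2)))
    (by fun_prop)]
  have hs : 2 ≤ A / a i ^ 2 := by rw [le_div_iff₀ hi]; linarith [ha i]
  refine (mul_le_mul_right (hM _ hs) _).trans (le_of_eq ?_)
  rw [← mul_assoc, ← ENNReal.ofReal_mul (by positivity)]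
  congr 2
  rw [show -(2 * q) = ((2 : ℕ) : ℝ) * (-q) by push_cast; ring, rpow_mul (abs_nonneg _), rpow_natCast,
    sq_abs, ← mul_rpow hi.le (by positivity)]
  congr 1
  field_simp

theorem holder (n : ℕ) {q : ℝ} (M : ℝ≥0∞)
    (hM : ∀ s, 2 ≤ s → II n q s ≤ ENNReal.ofReal ((s / 2) ^ (-q)) * M)
    (l : List ℝ) (hA0 : 0 < ssq l) (ha : ∀ a ∈ l, a ^ 2 ≤ ssq l / 2) :
    IP n q l ≤ ENNReal.ofReal ((ssq l / 2) ^ (-q)) * M := by
  have := holder_fn n M hM l.get (A := ssq l) (by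
    rw [ssq]
    conv_rhs => rw [← List.ofFn_get l, List.map_ofFn, List.sum_ofFn]
    rfl) hA0 (fun i => ha _ (List.get_mem l i))
  rwa [List.ofFn_get] at this

end Pool.Agent.Lib.MP_237b21_an
end

-- part Pool.Agent.Lib.MP_237b21_an.Crit
section

/-! A criterion for the integral inequality for powers of the Bessel function. -/

namespace Pool.Agent.Lib.MP_237b21_an

open MeasureTheory Set Real
open scoped ENNReal

/-- The entropy-like function. -/
noncomputable def phi (L x : ℝ) : ℝ := x ^ 2 * max (L + log x) 0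

lemma phi_nonneg (L x : ℝ) : 0 ≤ phi L x := mul_nonneg (sq_nonneg _) (le_max_right _ _)

lemma phi_meas (L : ℝ) : Measurable (phi L) := by unfold phi; fun_prop

lemma phi_mono (L : ℝ) {x y : ℝ} (hx : 0 ≤ x) (hxy : x ≤ y) : phi L x ≤ phi L y := by
  rcases hx.eq_or_lt with rfl | hx
  · simpa [phi] using phi_nonneg L y
  · unfold phi
    have := log_le_log hx hxy
    gcongr

lemma phi_exp (L a : ℝ) : phi L (exp (-a)) = exp (-a) ^ 2 * max (L - a) 0 := by
  rw [phi, log_exp, sub_eq_add_neg]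

lemma phi_zero {L x : ℝ} (hx : 0 ≤ x) (h : x ≤ exp (-L)) : phi L x = 0 :=
  le_antisymm ((phi_mono L hx h).trans (by simp [phi_exp])) (phi_nonneg _ _)

lemma key_exp {u f g : ℝ} (hu : 0 ≤ u) (hf : 0 ≤ f) (hfg : f ≤ g) :
    exp f ^ 2 * (exp (u * f) - 1 - u * f) ≤ exp g ^ 2 * (exp (u * g) - 1 - u * g) := by
  have h1 : 0 ≤ exp (u * f) - 1 - u * f := by linarith [add_one_le_exp (u * f)]
  have h2 : exp (u * f) - 1 - u * f ≤ exp (u * g) - 1 - u * g := by
    have h3 : exp (u * g) = exp (u * f) * exp (u * (g - f)) := by rw [← exp_add]; congr 1; ring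
    have h4 := add_one_le_exp (u * (g - f))
    have h5 : 1 ≤ exp (u * f) := one_le_exp (mul_nonneg hu hf)
    have h6 : 0 ≤ u * (g - f) := mul_nonneg hu (by linarith)
    nlinarith
  have := exp_le_exp.2 hfg
  gcongr

lemma pointwise {L a x s : ℝ} (hs : 2 ≤ s) (hx : 0 ≤ x) (h : x ≤ max (exp (-a)) (exp (-L))) :
    exp ((s - 2) * L) * x ^ s + (1 + (s - 2) * L) * exp (-(2 * a)) ≤
      exp ((s - 2) * L) * exp (-(s * a)) + x ^ (2 : ℝ) +
        (s - 2) * (phi L x + a * exp (-(2 * a))) := by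
  have hu : 0 ≤ s - 2 := by linarith
  have hg : exp ((s - 2) * L) * exp (-(s * a)) = exp (-(2 * a)) * exp ((s - 2) * (L - a)) := by
    rw [← exp_add, ← exp_add]; congr 1; ring
  have hg1 := add_one_le_exp ((s - 2) * (L - a))
  have hE : 0 < exp (-(2 * a)) := exp_pos _
  rcases hx.eq_or_lt with rfl | hx
  · rw [zero_rpow (by linarith), zero_rpow two_ne_zero, hg]
    simp only [phi]
    nlinarith
  have hxs : exp ((s - 2) * L) * x ^ s = x ^ 2 * exp ((s - 2) * (L + log x)) := by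
    rw [show s = (s - 2) + 2 by ring, rpow_add hx, rpow_two, rpow_def_of_pos hx, ← mul_assoc,
      ← exp_add, mul_comm]
    congr 2; ring
  rw [hxs, hg, rpow_two, phi]
  rcases le_total (L + log x) 0 with h0 | h0
  · rw [max_eq_right h0]
    have : exp ((s - 2) * (L + log x)) ≤ 1 := exp_le_one_iff.2 (mul_nonpos_of_nonneg_of_nonpos hu h0)
    have hx2 : 0 < x ^ 2 := by positivity
    nlinarith
  · rw [max_eq_left h0]
    rcases le_max_iff.1 h with h1 | h1
    · have h2 : L + log x ≤ L - a := by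
        have := log_le_log hx h1
        rw [log_exp] at this; linarith
      have h3 := key_exp hu h0 h2
      have h4 : exp (L + log x) ^ 2 = exp L ^ 2 * x ^ 2 := by rw [exp_add, exp_log hx, mul_pow]
      have h5 : exp (L - a) ^ 2 = exp L ^ 2 * exp (-(2 * a)) := by
        rw [← exp_nat_mul, ← exp_nat_mul, ← exp_add]; congr 1; push_cast; ring
      rw [h4, h5, mul_assoc, mul_assoc] at h3
      have h6 := le_of_mul_le_mul_left h3 (by positivity)
      nlinarith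
    · have h2 : L + log x = 0 := by
        have := log_le_log hx h1
        rw [log_exp] at this; linarith
      rw [h2]
      simp only [mul_zero, exp_zero]
      nlinarith

lemma sign_change {a b : ℝ → ℝ} (ha : Measurable a) (hb : Measurable b) (ha0 : ∀ t, 0 ≤ a t)
    (hb0 : ∀ t, 0 ≤ b t) {t₀ p p₁ : ℝ} (ht₀ : 0 < t₀) (hp : p ≤ p₁)
    (h1 : ∀ t, 0 < t → t ≤ t₀ → a t ≤ b t) (h2 : ∀ t, t₀ ≤ t → b t ≤ a t)
    (h : ∫⁻ t, ENNReal.ofReal (a t) ∂mw p₁ ≤ ∫⁻ t, ENNReal.ofReal (b t) ∂mw p₁)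
    (hf : ∫⁻ t, ENNReal.ofReal (b t) ∂mw p₁ ≠ ⊤) :
    ∫⁻ t, ENNReal.ofReal (a t) ∂mw p ≤ ∫⁻ t, ENNReal.ofReal (b t) ∂mw p := by
  have key : ∫⁻ t, ENNReal.ofReal (a t) ∂mw p +
      ENNReal.ofReal (t₀ ^ (p - p₁)) * ∫⁻ t, ENNReal.ofReal (b t) ∂mw p₁ ≤
      ∫⁻ t, ENNReal.ofReal (b t) ∂mw p +
      ENNReal.ofReal (t₀ ^ (p - p₁)) * ∫⁻ t, ENNReal.ofReal (a t) ∂mw p₁ := by
    rw [lint_mw p (by fun_prop), lint_mw p (by fun_prop), lint_mw p₁ (by fun_prop),
      lint_mw p₁ (by fun_prop), ← lintegral_const_mul _ (by fun_prop),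
      ← lintegral_const_mul _ (by fun_prop), ← lintegral_add_left (by fun_prop),
      ← lintegral_add_left (by fun_prop)]
    refine setLIntegral_mono' measurableSet_Ioi fun t ht => ?_
    have ht' : (0 : ℝ) < t := ht
    have := ha0 t
    have := hb0 t
    have hw : 0 < t ^ (p₁ - 1) := by positivity
    have he : t ^ (p - 1) = t ^ (p - p₁) * t ^ (p₁ - 1) := by rw [← rpow_add ht']; congr 1; ring
    repeat rw [← ENNReal.ofReal_mul (by positivity)]
    rw [← ENNReal.ofReal_add (by positivity) (by positivity),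
      ← ENNReal.ofReal_add (by positivity) (by positivity), he]
    refine ENNReal.ofReal_le_ofReal ?_
    have : 0 ≤ (b t - a t) * (t ^ (p - p₁) - t₀ ^ (p - p₁)) := by
      rcases le_total t t₀ with h3 | h3
      · exact mul_nonneg (by linarith [h1 t ht' h3])
          (sub_nonneg.2 (rpow_le_rpow_of_nonpos ht' h3 (by linarith)))
      · exact mul_nonneg_of_nonpos_of_nonpos (by linarith [h2 t h3])
          (sub_nonpos.2 (rpow_le_rpow_of_nonpos ht₀ h3 (by linarith)))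
    nlinarith [mul_nonneg this hw.le]
  have h3 := key.trans (add_le_add_right (mul_le_mul_right h _) _)
  exact (ENNReal.add_le_add_iff_right (ENNReal.mul_ne_top ENNReal.ofReal_ne_top hf)).1 h3

lemma mw_gauss2 {b : ℝ} (hb : 0 < b) {s : ℝ} (hs : 0 < s) :
    ∫⁻ t, ENNReal.ofReal (b / 2 * t ^ 2 * exp (-(b * t ^ 2))) ∂mw (2 * s) =
      ENNReal.ofReal (s / 2 * (b ^ (-s) * (1 / 2) * Gamma s)) := by
  have h := mw_gauss hb (s := s + 1) (by linarith)
  rw [lint_mw _ (by fun_prop)] at h ⊢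
  have h2 : s / 2 * (b ^ (-s) * (1 / 2) * Gamma s) =
      b / 2 * (b ^ (-(s + 1)) * (1 / 2) * Gamma (s + 1)) := by
    rw [Gamma_add_one hs.ne', neg_add, rpow_add hb, rpow_neg_one]
    field_simp
  rw [h2, ENNReal.ofReal_mul (by positivity), ← h, ← lintegral_const_mul _ (by fun_prop)]
  refine setLIntegral_congr_fun measurableSet_Ioi fun t ht => ?_
  have ht' : (0 : ℝ) < t := ht
  repeat rw [← ENNReal.ofReal_mul (by positivity)]
  rw [show 2 * (s + 1) - 1 = (2 * s - 1) + 2 by ring, rpow_add ht', rpow_two]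
  congr 1; ring

/-- The Gaussian value. -/
noncomputable def K0 (n : ℕ) (q : ℝ) : ℝ := ((n : ℝ) + 2) ^ q * (1 / 2) * Gamma q

lemma K0_pos (n : ℕ) {q : ℝ} (hq : 0 < q) : 0 < K0 n q := by
  have := Gamma_pos_of_pos hq
  unfold K0; positivity

lemma K0_eq (n : ℕ) (q : ℝ) : K0 n q = (1 / ((n : ℝ) + 2)) ^ (-q) * (1 / 2) * Gamma q := by
  rw [K0, one_div ((n : ℝ) + 2), inv_rpow (by positivity), ← rpow_neg (by positivity), neg_neg]

/-- The criterion. -/
def Crit (n : ℕ) (L : ℝ) : Prop :=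
  ((n : ℝ) + 1) / 4 ≤ L ∧
  (∀ t, 0 < t → |jn n t| ≤ max (exp (-(t ^ 2 / (2 * (n + 2))))) (exp (-L))) ∧
  ∫⁻ t, ENNReal.ofReal (phi L |jn n t|) ∂mw (n + 1) ≤
    ENNReal.ofReal (K0 n ((n + 1) / 2) * (L - (n + 1) / 4))

lemma crit_q {n : ℕ} {L : ℝ} (h : Crit n L) {q : ℝ} (hq : 0 < q) (hq' : q ≤ ((n : ℝ) + 1) / 2) :
    ∫⁻ t, ENNReal.ofReal (phi L |jn n t|) ∂mw (2 * q) ≤ ENNReal.ofReal (K0 n q * (L - q / 2)) := by
  obtain ⟨hL, ha, hb⟩ := h
  have hc := (continuous_jn n).measurable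
  have hp := phi_meas L
  have hn : (0 : ℝ) < n + 2 := by positivity
  have hL0 : 0 < L := lt_of_lt_of_le (by positivity) hL
  have hA : ∀ s, 0 < s → ∫⁻ t, ENNReal.ofReal (phi L |jn n t| +
      1 / ((n : ℝ) + 2) / 2 * t ^ 2 * exp (-(1 / ((n : ℝ) + 2) * t ^ 2))) ∂mw (2 * s) =
      ∫⁻ t, ENNReal.ofReal (phi L |jn n t|) ∂mw (2 * s) + ENNReal.ofReal (s / 2 * K0 n s) := by
    intro s hs
    rw [K0_eq, ← mw_gauss2 (by positivity) hs, ← lintegral_add_left (by fun_prop)]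
    exact lintegral_congr fun t => ENNReal.ofReal_add (phi_nonneg _ _) (by positivity)
  have hB : ∀ s, 0 < s → ∫⁻ t, ENNReal.ofReal (L * exp (-(1 / ((n : ℝ) + 2) * t ^ 2))) ∂mw (2 * s) =
      ENNReal.ofReal (L * K0 n s) := by
    intro s hs
    rw [ENNReal.ofReal_mul hL0.le, K0_eq, ← mw_gauss (by positivity) hs,
      ← lintegral_const_mul _ (by fun_prop)]
    exact lintegral_congr fun t => ENNReal.ofReal_mul hL0.le
  have hsplit : ∀ s, 0 < s → s ≤ ((n : ℝ) + 1) / 2 → ENNReal.ofReal (L * K0 n s) =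
      ENNReal.ofReal (K0 n s * (L - s / 2)) + ENNReal.ofReal (s / 2 * K0 n s) := by
    intro s hs hs'
    have := K0_pos n hs
    rw [← ENNReal.ofReal_add (mul_nonneg this.le (by linarith)) (by positivity)]
    congr 1; ring
  have hsq : ∀ t : ℝ, exp (-(t ^ 2 / (2 * (n + 2)))) ^ 2 = exp (-(1 / ((n : ℝ) + 2) * t ^ 2)) := by
    intro t
    rw [← exp_nat_mul]; congr 1; push_cast; field_simp
  have hd : ∀ t : ℝ, 1 / ((n : ℝ) + 2) / 2 * t ^ 2 = t ^ 2 / (2 * (n + 2)) := by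
    intro t; field_simp
  have := sign_change (a := fun t => phi L |jn n t| +
      1 / ((n : ℝ) + 2) / 2 * t ^ 2 * exp (-(1 / ((n : ℝ) + 2) * t ^ 2)))
    (b := fun t => L * exp (-(1 / ((n : ℝ) + 2) * t ^ 2))) (by fun_prop) (by fun_prop)
    (fun t => add_nonneg (phi_nonneg _ _) (by positivity)) (fun t => by positivity)
    (t₀ := sqrt (2 * (n + 2) * L)) (p := 2 * q) (p₁ := 2 * (((n : ℝ) + 1) / 2))
    (sqrt_pos.2 (by positivity)) (by linarith) ?_ ?_ ?_ ?_
  · rw [hA q hq, hB q hq, hsplit q hq hq'] at this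
    exact (ENNReal.add_le_add_iff_right ENNReal.ofReal_ne_top).1 this
  · intro t ht ht'
    have h1 : t ^ 2 / (2 * (n + 2)) ≤ L := by
      rw [div_le_iff₀ (by positivity)]
      have := (le_sqrt ht.le (by positivity)).1 ht'
      linarith
    have h2 := ha t ht
    rw [max_eq_left (exp_le_exp.2 (by linarith))] at h2
    have h3 := phi_mono L (abs_nonneg _) h2
    rw [phi_exp, max_eq_left (by linarith), hsq] at h3
    rw [hd]
    linarith
  · intro t ht
    have h1 : L ≤ t ^ 2 / (2 * (n + 2)) := by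
      rw [le_div_iff₀ (by positivity)]
      have := (sqrt_le_left ((sqrt_nonneg _).trans ht)).1 ht
      linarith
    rw [hd]
    have := phi_nonneg L |jn n t|
    have h2 := exp_pos (-(1 / ((n : ℝ) + 2) * t ^ 2))
    nlinarith
  · rw [hA _ (by positivity), hB _ (by positivity), hsplit _ (by positivity) le_rfl]
    rw [show 2 * (((n : ℝ) + 1) / 2) = n + 1 by ring, show ((n : ℝ) + 1) / 2 / 2 = (n + 1) / 4 by ring]
    exact add_le_add_left hb _
  · rw [hB _ (by positivity)]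
    exact ENNReal.ofReal_ne_top

theorem crit_main {n : ℕ} {L : ℝ} (h : Crit n L) {q : ℝ} (hq : 0 < q)
    (hq' : q ≤ ((n : ℝ) + 1) / 2) {M : ℝ} (hM : K0 n q ≤ M) (hM2 : II n q 2 ≤ ENNReal.ofReal M)
    {s : ℝ} (hs : 2 ≤ s) : II n q s ≤ ENNReal.ofReal ((s / 2) ^ (-q)) * ENNReal.ofReal M := by
  have h1 := crit_q h hq hq'
  obtain ⟨hL, ha, -⟩ := h
  have hc := (continuous_jn n).measurable
  have hp := phi_meas L
  have hn : (0 : ℝ) < n + 2 := by positivity
  have hL0 : 0 < L := lt_of_lt_of_le (by positivity) hL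
  have hK := K0_pos n hq
  have hG := Gamma_pos_of_pos hq
  have hM0 : 0 < M := hK.trans_le hM
  have hu : 0 ≤ s - 2 := by linarith
  obtain ⟨b, hb, hbM, hbn⟩ : ∃ b : ℝ, 0 < b ∧ b ^ (-q) * (1 / 2) * Gamma q = M ∧
      b ≤ 1 / ((n : ℝ) + 2) := by
    have e : ((2 * M / Gamma q) ^ (-q⁻¹)) ^ (-q) = 2 * M / Gamma q := by
      rw [← rpow_mul (by positivity), show -q⁻¹ * -q = 1 by field_simp, rpow_one]
    refine ⟨(2 * M / Gamma q) ^ (-q⁻¹), by positivity, by rw [e]; field_simp, ?_⟩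
    rw [← rpow_le_rpow_iff_of_neg (by positivity) (by positivity) (neg_lt_zero.2 hq), e,
      le_div_iff₀ hG]
    rw [K0_eq] at hM
    linarith
  have hE : 0 < exp ((s - 2) * L) := exp_pos _
  have key : ENNReal.ofReal (exp ((s - 2) * L)) * II n q s +
      ENNReal.ofReal ((1 + (s - 2) * L) * M) ≤
      ENNReal.ofReal (exp ((s - 2) * L)) * (ENNReal.ofReal ((s / 2) ^ (-q)) * ENNReal.ofReal M) +
      II n q 2 + ENNReal.ofReal (s - 2) * (∫⁻ t, ENNReal.ofReal (phi L |jn n t|) ∂mw (2 * q) +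
        ENNReal.ofReal (q / 2 * M)) := by
    have e1 : ENNReal.ofReal ((s / 2) ^ (-q)) * ENNReal.ofReal M =
        ∫⁻ t, ENNReal.ofReal (exp (-(s / 2 * b * t ^ 2))) ∂mw (2 * q) := by
      rw [mw_gauss (by positivity) hq, ← ENNReal.ofReal_mul (by positivity), ← hbM,
        mul_rpow (by positivity) hb.le]
      congr 1; ring
    rw [e1, ← hbM, ENNReal.ofReal_mul (by positivity), ← mw_gauss hb hq, ← mw_gauss2 hb hq, II, II,
      ← lintegral_const_mul _ (by fun_prop), ← lintegral_const_mul _ (by fun_prop),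
      ← lintegral_const_mul _ (by fun_prop), ← lintegral_add_left (by fun_prop),
      ← lintegral_add_left (by fun_prop), ← lintegral_add_left (by fun_prop),
      ← lintegral_const_mul _ (by fun_prop), ← lintegral_add_left (by fun_prop)]
    refine lintegral_mono_ae ?_
    filter_upwards [mw_pos (2 * q)] with t ht
    have h0 := phi_nonneg L |jn n t|
    rw [← ENNReal.ofReal_add h0 (by positivity)]
    repeat rw [← ENNReal.ofReal_mul (by positivity)]
    repeat rw [← ENNReal.ofReal_add (by positivity) (by positivity)]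
    refine ENNReal.ofReal_le_ofReal ?_
    have h2 : |jn n t| ≤ max (exp (-(b / 2 * t ^ 2))) (exp (-L)) := by
      refine (ha t ht).trans (max_le_max (exp_le_exp.2 ?_) le_rfl)
      have : t ^ 2 / (2 * (n + 2)) = 1 / ((n : ℝ) + 2) / 2 * t ^ 2 := by field_simp
      rw [this]
      gcongr
    have h3 := pointwise hs (abs_nonneg _) h2
    rwa [show 2 * (b / 2 * t ^ 2) = b * t ^ 2 by ring,
      show s * (b / 2 * t ^ 2) = s / 2 * b * t ^ 2 by ring] at h3
  have hLq : 0 ≤ L - q / 2 := by linarith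
  have h2 : II n q 2 + ENNReal.ofReal (s - 2) *
      (∫⁻ t, ENNReal.ofReal (phi L |jn n t|) ∂mw (2 * q) + ENNReal.ofReal (q / 2 * M)) ≤
      ENNReal.ofReal ((1 + (s - 2) * L) * M) := by
    have h3 : ENNReal.ofReal ((1 + (s - 2) * L) * M) = ENNReal.ofReal M + ENNReal.ofReal (s - 2) *
        (ENNReal.ofReal (M * (L - q / 2)) + ENNReal.ofReal (q / 2 * M)) := by
      rw [← ENNReal.ofReal_add (by positivity) (by positivity), ← ENNReal.ofReal_mul hu,
        ← ENNReal.ofReal_add (by positivity) (by positivity)]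
      congr 1; ring
    rw [h3]
    gcongr
    exact h1.trans (ENNReal.ofReal_le_ofReal (by gcongr))
  rw [add_assoc] at key
  have h4 := (ENNReal.add_le_add_iff_right ENNReal.ofReal_ne_top).1
    (key.trans (add_le_add_right h2 _))
  exact (ENNReal.mul_le_mul_iff_right (by simpa using hE) ENNReal.ofReal_ne_top).1 h4

end Pool.Agent.Lib.MP_237b21_an
end

-- part Pool.Agent.Lib.MP_237b21_an.CritSmall
section

/-! The criterion in low dimensions. -/

namespace Pool.Agent.Lib.MP_237b21_an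

open MeasureTheory Set Real
open scoped ENNReal

lemma lint_piece {a b : ℝ} (hab : a ≤ b) {f g : ℝ → ℝ} (hg : ContinuousOn g (Icc a b))
    (h : ∀ t ∈ Ioc a b, f t ≤ g t) (h0 : ∀ t ∈ Ioc a b, 0 ≤ g t) :
    ∫⁻ t in Ioc a b, ENNReal.ofReal (f t) ≤ ENNReal.ofReal (∫ t in a..b, g t) := by
  rw [intervalIntegral.integral_of_le hab, ofReal_integral_eq_lintegral_ofReal
    ((hg.integrableOn_Icc).mono_set Ioc_subset_Icc_self)
    (ae_restrict_of_forall_mem measurableSet_Ioc h0)]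
  exact setLIntegral_mono' measurableSet_Ioc fun t ht => ENNReal.ofReal_le_ofReal (h t ht)

lemma mw_split (n : ℕ) {f : ℝ → ℝ} (hf : Measurable f) {T₁ T₂ : ℝ} (h1 : 0 ≤ T₁) (h2 : T₁ ≤ T₂)
    (h : ∀ t, T₂ < t → f t = 0) :
    ∫⁻ t, ENNReal.ofReal (f t) ∂mw (n + 1) = (∫⁻ t in Ioc 0 T₁, ENNReal.ofReal (t ^ n * f t)) +
      ∫⁻ t in Ioc T₁ T₂, ENNReal.ofReal (t ^ n * f t) := by
  rw [lint_mw _ (by fun_prop), ← lintegral_union measurableSet_Ioc (Ioc_disjoint_Ioc_of_le le_rfl),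
    Ioc_union_Ioc_eq_Ioc h1 h2, ← Ioc_union_Ioi_eq_Ioi (h1.trans h2),
    lintegral_union measurableSet_Ioi Ioc_disjoint_Ioi_same,
    setLIntegral_congr_fun (s := Ioi T₂) measurableSet_Ioi (g := fun _ => 0)
      (fun t ht => by simp [h t ht]), lintegral_zero, add_zero]
  refine setLIntegral_congr_fun measurableSet_Ioc fun t ht => ?_
  rw [add_sub_cancel_right, rpow_natCast, ENNReal.ofReal_mul (pow_nonneg ht.1.le _)]

/-- An explicit polynomial integral. -/
noncomputable def Ip (N j n : ℕ) (c T : ℝ) : ℝ :=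
  ∑ i ∈ Finset.range (N + 1), (-1) ^ i * (N.choose i : ℝ) / c ^ (i + j) *
    (T ^ (2 * (i + j) + n + 1) / ((2 * (i + j) + n : ℕ) + 1))

lemma int_poly (N j n : ℕ) (c T : ℝ) :
    ∫ t in (0 : ℝ)..T, t ^ n * ((1 - t ^ 2 / c) ^ N * (t ^ 2 / c) ^ j) = Ip N j n c T := by
  have : ∀ t : ℝ, t ^ n * ((1 - t ^ 2 / c) ^ N * (t ^ 2 / c) ^ j) =
      ∑ i ∈ Finset.range (N + 1), (-1) ^ i * (N.choose i : ℝ) / c ^ (i + j) *
        t ^ (2 * (i + j) + n) := by
    intro t
    rw [sub_eq_neg_add, add_pow, Finset.sum_mul, Finset.mul_sum]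
    refine Finset.sum_congr rfl fun i _ => ?_
    rw [neg_pow, div_pow, div_pow]
    ring
  simp only [this]
  rw [intervalIntegral.integral_finsetSum fun i _ => Continuous.intervalIntegrable (by fun_prop) _ _]
  refine Finset.sum_congr rfl fun i _ => ?_
  rw [intervalIntegral.integral_const_mul, integral_pow]
  simp

lemma log_one_sub_le {y : ℝ} (h0 : 0 ≤ y) (h1 : y < 1) :
    log (1 - y) ≤ -(y + y ^ 2 / 2 + y ^ 3 / 3) := by
  have := le_of_deriv_nonpos (f := fun y => log (1 - y) + (y + y ^ 2 / 2 + y ^ 3 / 3))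
    (f' := fun y => -(y ^ 3 / (1 - y))) h0 (fun t ht => by
      have h : 1 - t ≠ 0 := by linarith [ht.2]
      have := (((hasDerivAt_id t).const_sub 1).log h).add (((hasDerivAt_id t).add
        ((hasDerivAt_pow 2 t).div_const 2)).add ((hasDerivAt_pow 3 t).div_const 3))
      refine HasDerivAt.congr_deriv this ?_
      simp only [id]
      field_simp
      push_cast
      ring) (fun t ht => by
      have : 0 < 1 - t := by linarith [ht.2]
      have := ht.1
      rw [neg_nonpos]; positivity)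
  simp at this
  linarith

lemma crit_small (n : ℕ) {T₀ T L c : ℝ} (hc : c = (n + 2) * (n + 4)) (h0 : 0 < T₀) (h01 : T₀ ≤ T)
    (hT : T ^ 2 < c) (hpos : ∀ t ∈ Icc 0 T, 0 ≤ jn n t)
    (hL : L = (n + 4) / 2 * (T₀ ^ 2 / c + (T₀ ^ 2 / c) ^ 2 / 2 + (T₀ ^ 2 / c) ^ 3 / 3))
    (htail : ∀ t, T ≤ t → |jn n t| ≤ exp (-L)) (hL4 : ((n : ℝ) + 1) / 4 ≤ L)
    (hnum : L * Ip (n + 4) 0 n c T₀ - (n + 4) / 2 * Ip (n + 4) 1 n c T₀ -
      (n + 4) / 4 * Ip (n + 4) 2 n c T₀ - (n + 4) / 6 * Ip (n + 4) 3 n c T₀ ≤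
      K0 n ((n + 1) / 2) * (L - (n + 1) / 4)) : Crit n L := by
  have hc0 : 0 < c := by rw [hc]; positivity
  have hy : ∀ t ∈ Icc 0 T, 0 ≤ t ^ 2 / c ∧ t ^ 2 / c < 1 := fun t ht =>
    ⟨by positivity, (div_lt_one hc0).2 ((pow_le_pow_left₀ ht.1 ht.2 2).trans_lt hT)⟩
  have hb : ∀ t ∈ Icc 0 T, |jn n t| ≤ (1 - t ^ 2 / c) ^ (((n : ℝ) + 4) / 2) := fun t ht => by
    rw [abs_of_nonneg (hpos t ht), hc]
    exact (jn_beta n T (hc ▸ hT) hpos t ht).2
  have hl : ∀ t ∈ Icc 0 T, (1 - t ^ 2 / c) ^ (((n : ℝ) + 4) / 2) ≤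
      exp (-((n + 4) / 2 * (t ^ 2 / c + (t ^ 2 / c) ^ 2 / 2 + (t ^ 2 / c) ^ 3 / 3))) := fun t ht => by
    rw [rpow_def_of_pos (by linarith [(hy t ht).2]), exp_le_exp]
    have := log_one_sub_le (hy t ht).1 (hy t ht).2
    have h4 : (0 : ℝ) < (n + 4) / 2 := by positivity
    nlinarith
  have hmono : ∀ s t : ℝ, 0 ≤ s → s ≤ t →
      ((n : ℝ) + 4) / 2 * (s ^ 2 / c + (s ^ 2 / c) ^ 2 / 2 + (s ^ 2 / c) ^ 3 / 3) ≤
      (n + 4) / 2 * (t ^ 2 / c + (t ^ 2 / c) ^ 2 / 2 + (t ^ 2 / c) ^ 3 / 3) := fun s t hs hst => by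
    gcongr
  have hbig : ∀ t, T₀ ≤ t → |jn n t| ≤ exp (-L) := fun t ht => by
    rcases le_total t T with h | h
    · refine (hb t ⟨h0.le.trans ht, h⟩).trans ((hl t ⟨h0.le.trans ht, h⟩).trans ?_)
      rw [exp_le_exp, neg_le_neg_iff, hL]
      exact hmono _ _ h0.le ht
    · exact htail t h
  refine ⟨hL4, fun t ht => ?_, ?_⟩
  · rcases le_total t T₀ with h | h
    · refine le_max_of_le_left ((hb t ⟨ht.le, h.trans h01⟩).trans
        ((hl t ⟨ht.le, h.trans h01⟩).trans ?_))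
      rw [exp_le_exp, neg_le_neg_iff]
      have : t ^ 2 / (2 * (n + 2)) = ((n : ℝ) + 4) / 2 * (t ^ 2 / c) := by rw [hc]; field_simp
      rw [this]
      have := (hy t ⟨ht.le, h.trans h01⟩).1
      gcongr
      nlinarith [pow_nonneg this 2, pow_nonneg this 3]
    · exact le_max_of_le_right (hbig t h)
  · have hj := (continuous_jn n).measurable
    have hp := phi_meas L
    rw [mw_split n (f := fun t => phi L |jn n t|) (by fun_prop) h0.le le_rfl
      (fun t ht => phi_zero (abs_nonneg _) (hbig t ht.le)), Ioc_self, Measure.restrict_empty,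
      lintegral_zero_measure, add_zero]
    refine (lint_piece h0.le (g := fun t => L * (t ^ n * ((1 - t ^ 2 / c) ^ (n + 4) * (t ^ 2 / c) ^ 0)) -
      (n + 4) / 2 * (t ^ n * ((1 - t ^ 2 / c) ^ (n + 4) * (t ^ 2 / c) ^ 1)) -
      (n + 4) / 4 * (t ^ n * ((1 - t ^ 2 / c) ^ (n + 4) * (t ^ 2 / c) ^ 2)) -
      (n + 4) / 6 * (t ^ n * ((1 - t ^ 2 / c) ^ (n + 4) * (t ^ 2 / c) ^ 3)))
      (Continuous.continuousOn (by fun_prop)) ?_ ?_).trans (ENNReal.ofReal_le_ofReal ?_)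
    · intro t ht
      have ht' : t ∈ Icc 0 T := ⟨ht.1.le, ht.2.trans h01⟩
      have h1 := phi_mono L (abs_nonneg _) (hb t ht')
      have h2 : 0 < 1 - t ^ 2 / c := by linarith [(hy t ht').2]
      have h3 := log_le_log (by positivity) (hl t ht')
      rw [log_exp] at h3
      have h4 := hmono t T₀ ht.1.le ht.2
      rw [← hL] at h4
      have h5 : phi L ((1 - t ^ 2 / c) ^ (((n : ℝ) + 4) / 2)) ≤ (1 - t ^ 2 / c) ^ (n + 4) *
          (L - (n + 4) / 2 * (t ^ 2 / c + (t ^ 2 / c) ^ 2 / 2 + (t ^ 2 / c) ^ 3 / 3)) := by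
        rw [phi, ← rpow_natCast, ← rpow_mul h2.le,
          show ((n : ℝ) + 4) / 2 * ((2 : ℕ) : ℝ) = ((n + 4 : ℕ) : ℝ) by push_cast; ring, rpow_natCast]
        exact mul_le_mul_of_nonneg_left (max_le (by linarith) (by linarith)) (by positivity)
      have h6 := mul_le_mul_of_nonneg_left (h1.trans h5) (pow_nonneg ht.1.le n)
      refine h6.trans (le_of_eq ?_)
      ring
    · intro t ht
      have ht' : t ∈ Icc 0 T := ⟨ht.1.le, ht.2.trans h01⟩
      have h2 : 0 < 1 - t ^ 2 / c := by linarith [(hy t ht').2]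
      have h4 := hmono t T₀ ht.1.le ht.2
      rw [← hL] at h4
      have := mul_nonneg (mul_nonneg (pow_nonneg ht.1.le n) (pow_nonneg h2.le (n + 4)))
        (sub_nonneg.2 h4)
      refine this.trans (le_of_eq ?_)
      ring
    · rw [intervalIntegral.integral_sub, intervalIntegral.integral_sub,
        intervalIntegral.integral_sub]
      · simp only [intervalIntegral.integral_const_mul, int_poly]
        exact hnum
      all_goals exact Continuous.intervalIntegrable (by fun_prop) _ _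

lemma jn_bounds (K n : ℕ) {T lo hi : ℝ} (hT : 0 ≤ T) (h1 : lo ≤ sK (2 * K + 1) n T)
    (h2 : sK (2 * K) n T ≤ hi) : lo ≤ jn n T ∧ jn n T ≤ hi :=
  ⟨h1.trans (sK_le_jn K n T hT), (jn_le_sK K n T hT).trans h2⟩

lemma le_exp_neg {L ρ : ℝ} (hL0 : 0 ≤ L) (hL : L ≤ 4) (hρ : 0 ≤ ρ)
    (h : ρ * (1 + L / 4 + (L / 4) ^ 2 / 2 + (L / 4) ^ 3 / 6 + (L / 4) ^ 4 / 24 +
      (L / 4) ^ 5 / 100) ^ 4 ≤ 1) : ρ ≤ exp (-L) := by
  have h1 := exp_bound' (x := L / 4) (by linarith) (by linarith) (n := 5) (by norm_num)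
  simp only [Finset.sum_range_succ, Finset.sum_range_zero, Nat.factorial] at h1
  have h2 : exp (L / 4) ≤ 1 + L / 4 + (L / 4) ^ 2 / 2 + (L / 4) ^ 3 / 6 + (L / 4) ^ 4 / 24 +
      (L / 4) ^ 5 / 100 := by
    refine h1.trans (le_of_eq ?_)
    push_cast
    ring
  have h3 : exp L = exp (L / 4) ^ 4 := by rw [← exp_nat_mul]; congr 1; push_cast; ring
  rw [exp_neg, ← one_div, le_div_iff₀ (exp_pos _), h3]
  refine le_trans ?_ h
  gcongr

end Pool.Agent.Lib.MP_237b21_an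
end

-- part Pool.Agent.Lib.MP_237b21_an.CritLow
section

/-! The criterion in dimensions two to six. -/

namespace Pool.Agent.Lib.MP_237b21_an

open MeasureTheory Set Real
open scoped ENNReal

lemma sqrt_pi_ge : (1.7724 : ℝ) ≤ sqrt π :=
  le_sqrt_of_sq_le (by linarith [pi_gt_d4])

lemma tail_mid (n : ℕ) (hn : 1 ≤ n) {T ρ l1 h1 l2 h2 : ℝ} (hT : 0 < T) (hρ : 0 ≤ ρ)
    (hl : ((n : ℝ) + 1) * (n - 1) / 4 < T ^ 2) (hj : l1 ≤ jn n T ∧ jn n T ≤ h1)
    (hj2 : l2 ≤ jn (n + 2) T ∧ jn (n + 2) T ≤ h2) (hl1 : 0 ≤ l1)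
    (hs : (n + 1) / 2 * h1 ≤ T ^ 2 / (n + 2) * l2)
    (h : h1 ^ 2 + (T ^ 2 / (n + 2) * h2 - (n + 1) / 2 * l1) ^ 2 /
      (T ^ 2 - ((n : ℝ) + 1) * (n - 1) / 4) ≤ ρ ^ 2) : ∀ t, T ≤ t → |jn n t| ≤ ρ := by
  intro t ht
  refine abs_jn_le_rho hT hρ (energy_big n hn T ρ hT hl (le_trans ?_ h)) ht
  have ha : (0 : ℝ) < T ^ 2 / (n + 2) := by positivity
  have hb : (0 : ℝ) < (n + 1) / 2 := by positivity
  have e1 := mul_le_mul_of_nonneg_left hj.1 hb.le
  have e2 := mul_le_mul_of_nonneg_left hj.2 hb.le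
  have e3 := mul_le_mul_of_nonneg_left hj2.1 ha.le
  have e4 := mul_le_mul_of_nonneg_left hj2.2 ha.le
  have h3 : vv n T ^ 2 ≤ (T ^ 2 / (n + 2) * h2 - (n + 1) / 2 * l1) ^ 2 :=
    sq_le_sq' (by rw [vv]; linarith) (by rw [vv]; linarith)
  have h4 : jn n T ^ 2 ≤ h1 ^ 2 := pow_le_pow_left₀ (hl1.trans hj.1) hj.2 2
  have h5 : 0 < T ^ 2 - ((n : ℝ) + 1) * (n - 1) / 4 := by linarith
  gcongr

lemma pos_mid (n : ℕ) {T : ℝ} (hT : T ≤ (n + 6) / 2) (h1 : 0 < jn n T) (h2 : 0 < jn (n + 2) T) :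
    ∀ t ∈ Icc 0 T, 0 ≤ jn n t := by
  intro t ht
  refine (jn_pos_chain 2 n T (by push_cast; linarith) (fun k hk => ?_) t ht).le
  interval_cases k
  · simpa using h1
  · simpa using h2

lemma crit_one : Crit 1 (6565853 / 5904900) := by
  have hj := jn_bounds 3 1 (T := 31 / 10) (lo := 0.0134) (hi := 0.0135) (by norm_num)
    (by norm_num [sK, Finset.sum_range_succ, Finset.prod_range_succ])
    (by norm_num [sK, Finset.sum_range_succ, Finset.prod_range_succ])
  have hj2 := jn_bounds 3 3 (T := 31 / 10) (lo := 0.316) (hi := 0.3161) (by norm_num)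
    (by norm_num [sK, Finset.sum_range_succ, Finset.prod_range_succ])
    (by norm_num [sK, Finset.sum_range_succ, Finset.prod_range_succ])
  refine crit_small 1 (T₀ := 7 / 3) (T := 31 / 10) (c := 15) (by norm_num) (by norm_num)
    (by norm_num) (by norm_num)
    (pos_mid 1 (by norm_num) (by linarith [hj.1]) (by linarith [hj2.1])) (by norm_num)
    (fun t ht => (tail_mid 1 le_rfl (ρ := 0.325) (by norm_num) (by norm_num) (by norm_num) hj hj2
      (by norm_num) (by norm_num) (by norm_num) t ht).trans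
      (le_exp_neg (by norm_num) (by norm_num) (by norm_num) (by norm_num))) (by norm_num) ?_
  norm_num [Ip, K0, Finset.sum_range_succ, Nat.choose]

lemma crit_two : Crit 2 (711 / 512) := by
  have hj := jn_bounds 3 2 (T := 15 / 4) (lo := 0.0177) (hi := 0.0178) (by norm_num)
    (by norm_num [sK, Finset.sum_range_succ, Finset.prod_range_succ])
    (by norm_num [sK, Finset.sum_range_succ, Finset.prod_range_succ])
  have hj2 := jn_bounds 3 4 (T := 15 / 4) (lo := 0.2384) (hi := 0.2385) (by norm_num)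
    (by norm_num [sK, Finset.sum_range_succ, Finset.prod_range_succ])
    (by norm_num [sK, Finset.sum_range_succ, Finset.prod_range_succ])
  refine crit_small 2 (T₀ := 3) (T := 15 / 4) (c := 24) (by norm_num) (by norm_num)
    (by norm_num) (by norm_num)
    (pos_mid 2 (by norm_num) (by linarith [hj.1]) (by linarith [hj2.1])) (by norm_num)
    (fun t ht => (tail_mid 2 (by norm_num) (ρ := 0.24) (by norm_num) (by norm_num) (by norm_num)
      hj hj2 (by norm_num) (by norm_num) (by norm_num) t ht).trans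
      (le_exp_neg (by norm_num) (by norm_num) (by norm_num) (by norm_num))) (by norm_num) ?_
  have h : K0 2 ((((2 : ℕ) : ℝ) + 1) / 2) = 2 * sqrt π := by
    rw [K0, show (((2 : ℕ) : ℝ) + 1) / 2 = 1 / 2 + 1 by norm_num, Gamma_add_one (by norm_num),
      Gamma_one_half_eq, rpow_add (by norm_num), show ((2 : ℕ) : ℝ) + 2 = 2 ^ (2 : ℝ) by norm_num,
      ← rpow_mul (by norm_num)]
    norm_num
    ring
  rw [h]
  norm_num [Ip, Finset.sum_range_succ, Nat.choose]
  linarith [sqrt_pi_ge]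

lemma crit_three : Crit 3 (152663454 / 95703125) := by
  have hj := jn_bounds 3 3 (T := 17 / 4) (lo := 0.039) (hi := 0.04) (by norm_num)
    (by norm_num [sK, Finset.sum_range_succ, Finset.prod_range_succ])
    (by norm_num [sK, Finset.sum_range_succ, Finset.prod_range_succ])
  have hj2 := jn_bounds 3 5 (T := 17 / 4) (lo := 0.207) (hi := 0.208) (by norm_num)
    (by norm_num [sK, Finset.sum_range_succ, Finset.prod_range_succ])
    (by norm_num [sK, Finset.sum_range_succ, Finset.prod_range_succ])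
  refine crit_small 3 (T₀ := 18 / 5) (T := 17 / 4) (c := 35) (by norm_num) (by norm_num)
    (by norm_num) (by norm_num)
    (pos_mid 3 (by norm_num) (by linarith [hj.1]) (by linarith [hj2.1])) (by norm_num)
    (fun t ht => (tail_mid 3 (by norm_num) (ρ := 0.19) (by norm_num) (by norm_num) (by norm_num)
      hj hj2 (by norm_num) (by norm_num) (by norm_num) t ht).trans
      (le_exp_neg (by norm_num) (by norm_num) (by norm_num) (by norm_num))) (by norm_num) ?_
  norm_num [Ip, K0, Finset.sum_range_succ, Nat.choose]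

lemma crit_four : Crit 4 (631731169 / 339738624) := by
  have hj := jn_bounds 3 4 (T := 5) (lo := 0.014) (hi := 0.016) (by norm_num)
    (by norm_num [sK, Finset.sum_range_succ, Finset.prod_range_succ])
    (by norm_num [sK, Finset.sum_range_succ, Finset.prod_range_succ])
  have hj2 := jn_bounds 3 6 (T := 5) (lo := 0.14) (hi := 0.141) (by norm_num)
    (by norm_num [sK, Finset.sum_range_succ, Finset.prod_range_succ])
    (by norm_num [sK, Finset.sum_range_succ, Finset.prod_range_succ])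
  refine crit_small 4 (T₀ := 17 / 4) (T := 5) (c := 48) (by norm_num) (by norm_num)
    (by norm_num) (by norm_num)
    (pos_mid 4 (by norm_num) (by linarith [hj.1]) (by linarith [hj2.1])) (by norm_num)
    (fun t ht => (tail_mid 4 (by norm_num) (ρ := 0.14) (by norm_num) (by norm_num) (by norm_num)
      hj hj2 (by norm_num) (by norm_num) (by norm_num) t ht).trans
      (le_exp_neg (by norm_num) (by norm_num) (by norm_num) (by norm_num))) (by norm_num) ?_
  have h : K0 4 ((((4 : ℕ) : ℝ) + 1) / 2) = 27 / 2 * (sqrt 6 * sqrt π) := by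
    rw [K0, show (((4 : ℕ) : ℝ) + 1) / 2 = 1 / 2 + 1 + 1 by norm_num, Gamma_add_one (by norm_num),
      Gamma_add_one (by norm_num), Gamma_one_half_eq, rpow_add (by norm_num),
      rpow_add (by norm_num), ← sqrt_eq_rpow]
    norm_num
    ring
  have h6 : (2.449 : ℝ) ≤ sqrt 6 := le_sqrt_of_sq_le (by norm_num)
  have h7 : (2.449 : ℝ) * 1.7724 ≤ sqrt 6 * sqrt π :=
    mul_le_mul h6 sqrt_pi_ge (by norm_num) (sqrt_nonneg _)
  rw [h]
  norm_num [Ip, Finset.sum_range_succ, Nat.choose]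
  linarith

lemma tail_zero : ∀ t, 2 ≤ t → |jn 0 t| ≤ 0.41 := by
  intro t ht
  rcases le_total 4 t with h | h
  · have hj := jn_bounds 4 0 (T := 4) (lo := -0.3972) (hi := -0.3971) (by norm_num)
      (by norm_num [sK, Finset.sum_range_succ, Finset.prod_range_succ])
      (by norm_num [sK, Finset.sum_range_succ, Finset.prod_range_succ])
    have hj2 := jn_bounds 4 2 (T := 4) (lo := -0.0331) (hi := -0.033) (by norm_num)
      (by norm_num [sK, Finset.sum_range_succ, Finset.prod_range_succ])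
      (by norm_num [sK, Finset.sum_range_succ, Finset.prod_range_succ])
    refine abs_jn_le_rho (by norm_num) (by norm_num) (energy_zero 4 0.41 (by norm_num) ?_) h
    have h3 : vv 0 4 ^ 2 ≤ 0.07 ^ 2 := sq_le_sq' (by rw [vv]; norm_num; linarith [hj.1, hj2.2])
      (by rw [vv]; norm_num; linarith [hj.2, hj2.1])
    have h4 : jn 0 4 ^ 2 ≤ 0.3972 ^ 2 := sq_le_sq' (by linarith [hj.1]) (by linarith [hj.2])
    nlinarith
  · have h1 := sK_le_jn 2 0 t (by linarith)
    have h2 := jn_le_sK 2 0 t (by linarith)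
    obtain ⟨s, hs⟩ : ∃ s, s = t ^ 2 / 4 := ⟨_, rfl⟩
    have hs1 : 1 ≤ s := by nlinarith
    have hs2 : s ≤ 4 := by nlinarith
    have e1 : sK (2 * 2 + 1) 0 t = 1 - s + s ^ 2 / 4 - s ^ 3 / 36 + s ^ 4 / 576 - s ^ 5 / 14400 := by
      norm_num [sK, Finset.sum_range_succ, Finset.prod_range_succ, hs]; ring
    have e2 : sK (2 * 2) 0 t = 1 - s + s ^ 2 / 4 - s ^ 3 / 36 + s ^ 4 / 576 := by
      norm_num [sK, Finset.sum_range_succ, Finset.prod_range_succ, hs]; ring
    rw [e1] at h1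
    rw [e2] at h2
    refine abs_le.2 ⟨le_trans ?_ h1, h2.trans ?_⟩
    · have h5 : 0 ≤ (s - 15 / 4) ^ 2 * (4 - s) := mul_nonneg (sq_nonneg _) (by linarith)
      have h6 : 0 ≤ (s - 15 / 4) ^ 2 * (4 - s) ^ 2 := by positivity
      have h7 : 0 ≤ (s - 15 / 4) ^ 2 * (4 - s) ^ 3 :=
        mul_nonneg (sq_nonneg _) (pow_nonneg (by linarith) _)
      nlinarith [sq_nonneg (s - 15 / 4), sq_nonneg (s - 37 / 10)]
    · have h5 : 0 ≤ (s - 1) * (4 - s) := mul_nonneg (by linarith) (by linarith)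
      nlinarith [mul_nonneg h5 (sq_nonneg s), mul_nonneg h5 (by linarith : (0 : ℝ) ≤ s)]

lemma crit_zero : Crit 0 (679242769 / 768000000) := by
  refine crit_small 0 (T₀ := 17 / 10) (T := 2) (c := 8) (by norm_num) (by norm_num)
    (by norm_num) (by norm_num) (fun t ht => le_trans ?_ (one_sub_le_jn 0 t)) (by norm_num)
    (fun t ht => (tail_zero t ht).trans
      (le_exp_neg (by norm_num) (by norm_num) (by norm_num) (by norm_num))) (by norm_num) ?_
  · have := pow_le_pow_left₀ ht.1 ht.2 2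
    norm_num
    linarith
  have h : K0 0 ((((0 : ℕ) : ℝ) + 1) / 2) = 1 / 2 * (sqrt 2 * sqrt π) := by
    rw [K0, show (((0 : ℕ) : ℝ) + 1) / 2 = 1 / 2 by norm_num, Gamma_one_half_eq, ← sqrt_eq_rpow]
    norm_num
    ring
  have h6 : (1.4142 : ℝ) ≤ sqrt 2 := le_sqrt_of_sq_le (by norm_num)
  have h7 : (1.4142 : ℝ) * 1.7724 ≤ sqrt 2 * sqrt π :=
    mul_le_mul h6 sqrt_pi_ge (by norm_num) (sqrt_nonneg _)
  rw [h]
  norm_num [Ip, Finset.sum_range_succ, Nat.choose]
  linarith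

end Pool.Agent.Lib.MP_237b21_an
end

-- part Pool.Agent.Lib.MP_237b21_an.CritHigh
section

/-! The criterion in dimension at least seven. -/

namespace Pool.Agent.Lib.MP_237b21_an

open MeasureTheory Set Real
open scoped ENNReal

lemma sonin (n : ℕ) {β T : ℝ} (hβ : 0 ≤ β) (hA : 4 * β * (n + 4) < (1 / ((n : ℝ) + 2)) ^ 2)
    (hT : T ^ 2 * (1 / ((n : ℝ) + 2) + 4 * β * T ^ 2) ≤ (n + 2) / 2) : ∀ t ∈ Icc 0 T,
    exp (2 * (t ^ 2 / (2 * (n + 2)) + β * t ^ 4)) * (jn n t ^ 2 +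
      (-(jn (n + 2) t / (n + 2)) + (1 / ((n : ℝ) + 2) + 4 * β * t ^ 2) * jn n t) ^ 2 /
        ((1 / ((n : ℝ) + 2) + 4 * β * t ^ 2) ^ 2 - 4 * β * (n + 4))) ≤ 1 := by
  intro t ht
  have hn : (0 : ℝ) < n + 2 := by positivity
  have hQ : ∀ s : ℝ, 0 < (1 / ((n : ℝ) + 2) + 4 * β * s ^ 2) ^ 2 - 4 * β * (n + 4) := fun s => by
    have : (1 / ((n : ℝ) + 2)) ^ 2 ≤ (1 / ((n : ℝ) + 2) + 4 * β * s ^ 2) ^ 2 :=
      pow_le_pow_left₀ (by positivity) (le_add_of_nonneg_right (by positivity)) 2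
    linarith
  have hl : ∀ s : ℝ, HasDerivAt (fun s : ℝ => 1 / ((n : ℝ) + 2) + 4 * β * s ^ 2) (8 * β * s) s :=
    fun s => (((hasDerivAt_pow 2 s).const_mul (4 * β)).const_add _).congr_deriv (by push_cast; ring)
  have hh : ∀ s : ℝ, HasDerivAt (fun s : ℝ => exp (2 * (s ^ 2 / (2 * (n + 2)) + β * s ^ 4)))
      (exp (2 * (s ^ 2 / (2 * (n + 2)) + β * s ^ 4)) *
        (2 * s * (1 / ((n : ℝ) + 2) + 4 * β * s ^ 2))) s := fun s =>
    (((((hasDerivAt_pow 2 s).div_const _).add ((hasDerivAt_pow 4 s).const_mul β)).const_mul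
      2).exp).congr_deriv (by simp only [Pi.add_apply]; push_cast; field_simp)
  have hz : ∀ s : ℝ, HasDerivAt (fun s : ℝ => -(jn (n + 2) s / (n + 2)) +
      (1 / ((n : ℝ) + 2) + 4 * β * s ^ 2) * jn n s)
      (s / (n + 4) * jn (n + 4) s / (n + 2) + 8 * β * s * jn n s -
        (1 / ((n : ℝ) + 2) + 4 * β * s ^ 2) * (s / (n + 2) * jn (n + 2) s)) s := fun s =>
    (((hasDerivAt_jn (n + 2) s).div_const _).neg.add ((hl s).mul (hasDerivAt_jn n s))).congr_deriv
      (by push_cast; ring)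
  have := le_of_deriv_nonpos ht.1 (f := fun t => exp (2 * (t ^ 2 / (2 * (n + 2)) + β * t ^ 4)) *
    (jn n t ^ 2 + (-(jn (n + 2) t / (n + 2)) + (1 / ((n : ℝ) + 2) + 4 * β * t ^ 2) * jn n t) ^ 2 /
        ((1 / ((n : ℝ) + 2) + 4 * β * t ^ 2) ^ 2 - 4 * β * (n + 4))))
    (fun s _ => (hh s).mul (((hasDerivAt_jn n s).pow 2).add (((hz s).pow 2).div
      (((hl s).pow 2).sub_const _) (hQ s).ne'))) (fun s hs => ?_)
  · refine this.trans (le_of_eq ?_)
    simp [jn_zero]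
  have hs0 := hs.1
  have hr := jn_rec n s
  have hs1 : s ^ 2 * (1 / ((n : ℝ) + 2) + 4 * β * s ^ 2) ≤ (n + 2) / 2 := by
    refine le_trans ?_ hT
    have := hs.2.le.trans ht.2
    gcongr
  have hQs := hQ s
  simp only [Pi.add_apply, Pi.pow_apply, Pi.div_apply, Nat.cast_ofNat, Nat.add_one_sub_one, pow_one]
  obtain ⟨l, hl'⟩ : ∃ l, l = 1 / ((n : ℝ) + 2) + 4 * β * s ^ 2 := ⟨_, rfl⟩
  have hl0 : 0 ≤ l := by rw [hl']; positivity
  have hz' : s * (s / (n + 4) * jn (n + 4) s / (n + 2) + 8 * β * s * jn n s -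
      l * (s / (n + 2) * jn (n + 2) s)) = -(s ^ 2 * (l ^ 2 - 4 * β * (n + 4)) * jn n s) +
      (l * s ^ 2 - (n + 2)) * (-(jn (n + 2) s / (n + 2)) + l * jn n s) := by
    have h4 : (n : ℝ) + 4 ≠ 0 := by positivity
    have : s * (s / (n + 4) * jn (n + 4) s / (n + 2)) = jn (n + 2) s - jn n s := by
      field_simp
      linear_combination hr
    rw [mul_sub, mul_add, this, hl']
    field_simp
    ring
  have hj' : -(s / (n + 2)) * jn (n + 2) s =
      s * ((-(jn (n + 2) s / (n + 2)) + l * jn n s) - l * jn n s) := by ring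
  rw [← hl'] at hQs hs1 ⊢
  rw [hj']
  generalize (s / (n + 4) * jn (n + 4) s / (n + 2) + 8 * β * s * jn n s -
      l * (s / (n + 2) * jn (n + 2) s)) = z' at hz' ⊢
  generalize (-(jn (n + 2) s / (n + 2)) + l * jn n s) = z at hz' ⊢
  generalize jn n s = j at hz' ⊢
  generalize l ^ 2 - 4 * β * ((n : ℝ) + 4) = Q at hz' hQs ⊢
  have hE := exp_pos (2 * (s ^ 2 / (2 * (n + 2)) + β * s ^ 4))
  generalize exp (2 * (s ^ 2 / (2 * (n + 2)) + β * s ^ 4)) = E at hE ⊢
  have hz2 : z' = (-(s ^ 2 * Q * j) + (l * s ^ 2 - (n + 2)) * z) / s := by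
    rw [← hz']; field_simp
  have e : E * (2 * s * l) * (j ^ 2 + z ^ 2 / Q) + E * (2 * j * (s * (z - l * j)) +
      (2 * z * z' * Q - z ^ 2 * (2 * l * (8 * β * s))) / Q ^ 2) =
      -(E * z ^ 2 / (s * Q) * (2 * (n + 2) - 4 * (s ^ 2 * l)) +
        E * z ^ 2 * (16 * l * β * s) / Q ^ 2) := by
    rw [hz2]; field_simp; ring
  rw [e, neg_nonpos]
  have : 0 ≤ 2 * ((n : ℝ) + 2) - 4 * (s ^ 2 * l) := by linarith
  positivity

lemma final_step {k : ℝ} (hk : 0 < k)
    (h : exp (-(9 / 10 * k)) * (4 / 5 * k) ^ k * (4 / 5 + k / 4) * 4 ≤ Gamma (k + 1)) :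
    exp (-(9 / 10 * (k + 1))) * (4 / 5 * (k + 1)) ^ (k + 1) * (4 / 5 + (k + 1) / 4) * 4 ≤
      Gamma (k + 1 + 1) := by
  have h1 : (4 / 5 * (k + 1)) ^ (k + 1) =
      (4 / 5 * k) ^ k * ((1 + 1 / k) ^ k * (4 / 5 * (k + 1))) := by
    rw [rpow_add_one (by positivity), ← mul_assoc ((4 / 5 * k) ^ k),
      ← mul_rpow (by positivity) (by positivity)]
    congr 2; field_simp
  have h2 : (1 + 1 / k) ^ k ≤ exp (1 - 1 / (2 * (k + 1))) := by
    rw [rpow_def_of_pos (by positivity), exp_le_exp]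
    have := mul_le_mul_of_nonneg_right (log_trap (x := 1 / k) (by positivity)) hk.le
    refine this.trans (le_of_eq ?_)
    field_simp
    ring
  have h3 : exp (-(9 / 10)) * exp (1 - 1 / (2 * (k + 1))) ≤ 1.11 * ((2 * k + 2) / (2 * k + 3)) := by
    rw [← exp_add, show -(9 / 10) + (1 - 1 / (2 * (k + 1))) = 1 / 10 + -(1 / (2 * (k + 1))) by ring,
      exp_add]
    have h4 : exp (1 / 10) ≤ 1.11 := by
      have := exp_bound' (x := 1 / 10) (by norm_num) (by norm_num) (n := 2) (by norm_num)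
      norm_num [Finset.sum_range_succ, Nat.factorial] at this ⊢
      linarith
    have h5 : exp (-(1 / (2 * (k + 1)))) ≤ (2 * k + 2) / (2 * k + 3) := by
      rw [exp_neg, inv_le_comm₀ (exp_pos _) (by positivity)]
      refine le_trans (le_of_eq ?_) (add_one_le_exp _)
      field_simp
      ring
    gcongr
  have h6 : exp (-(9 / 10)) * (1 + 1 / k) ^ k * (4 / 5) * (4 / 5 + (k + 1) / 4) ≤ 4 / 5 + k / 4 := by
    have h7 : exp (-(9 / 10)) * (1 + 1 / k) ^ k ≤ 1.11 * ((2 * k + 2) / (2 * k + 3)) :=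
      le_trans (by gcongr) h3
    refine le_trans (by gcongr) (?_ : 1.11 * ((2 * k + 2) / (2 * k + 3)) * (4 / 5) *
      (4 / 5 + (k + 1) / 4) ≤ _)
    rw [← mul_div_assoc (1.11 : ℝ), div_mul_eq_mul_div, div_mul_eq_mul_div,
      div_le_iff₀ (by positivity)]
    nlinarith
  rw [Gamma_add_one (by positivity), h1, show -(9 / 10 * (k + 1)) = -(9 / 10 * k) + -(9 / 10) by ring,
    exp_add]
  have h8 : 0 < exp (-(9 / 10 * k)) * (4 / 5 * k) ^ k * 4 * (k + 1) := by positivity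
  nlinarith [mul_le_mul_of_nonneg_left h6 h8.le, mul_le_mul_of_nonneg_left h (by positivity : 0 ≤ k + 1)]

lemma exp_ge_poly {x : ℝ} (hx : 0 ≤ x) :
    1 + x + x ^ 2 / 2 + x ^ 3 / 6 + x ^ 4 / 24 + x ^ 5 / 120 + x ^ 6 / 720 + x ^ 7 / 5040 ≤ exp x := by
  have := sum_le_exp_of_nonneg hx 8
  simpa [Finset.sum_range_succ, Nat.factorial] using this

lemma final_all (i : ℕ) : ∀ k : ℝ, k = (i + 6) / 2 →
    exp (-(9 / 10 * k)) * (4 / 5 * k) ^ k * (4 / 5 + k / 4) * 4 ≤ Gamma (k + 1) := by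
  induction i using Nat.twoStepInduction with
  | zero =>
    intro k hk
    obtain rfl : k = 3 := by rw [hk]; norm_num
    have h := exp_ge_poly (x := 9 / 10 * 3) (by norm_num)
    have hG : Gamma (3 + 1) = 6 := by
      have := Gamma_nat_eq_factorial 3
      norm_num [Nat.factorial] at this ⊢
    rw [hG, exp_neg, show (3 : ℝ) = ((3 : ℕ) : ℝ) by norm_num, rpow_natCast, mul_assoc, mul_assoc,
      inv_mul_le_iff₀ (exp_pos _)]
    norm_num at h ⊢
    linarith
  | one =>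
    intro k hk
    obtain rfl : k = 1 / 2 + 1 + 1 + 1 := by rw [hk]; norm_num
    have h := exp_ge_poly (x := 9 / 10 * (1 / 2 + 1 + 1 + 1)) (by norm_num)
    have h2 : sqrt (4 / 5 * (1 / 2 + 1 + 1 + 1)) ≤ 1.68 := sqrt_le_iff.2 (by norm_num)
    rw [Gamma_add_one (by norm_num), Gamma_add_one (by norm_num), Gamma_add_one (by norm_num),
      Gamma_add_one (by norm_num), Gamma_one_half_eq, rpow_add_one (by norm_num),
      rpow_add_one (by norm_num), rpow_add_one (by norm_num), ← sqrt_eq_rpow, exp_neg, mul_assoc,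
      mul_assoc, inv_mul_le_iff₀ (exp_pos _)]
    have h3 := mul_le_mul h sqrt_pi_ge (by norm_num) (exp_nonneg _)
    nlinarith
  | more i ih _ =>
    intro k hk
    obtain rfl : k = (i + 6) / 2 + 1 := by rw [hk]; push_cast; ring
    exact final_step (by positivity) (ih _ rfl)

lemma log_ge_min {w : ℝ} (hw : 1 ≤ w) :
    2 / 5 * w ^ 2 ≤ 9 / 20 + log w ∨ 3 / 4 ≤ 9 / 20 + log w := by
  have h := le_log_one_add_of_nonneg (x := w - 1) (by linarith)
  rw [add_sub_cancel, div_le_iff₀ (by linarith)] at h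
  have h0 := log_nonneg hw
  rcases le_total w (34 / 25) with h1 | h1
  · left
    by_contra h2
    push Not at h2
    nlinarith [mul_nonneg (sub_nonneg.2 hw) (sub_nonneg.2 h1)]
  · right
    by_contra h2
    push Not at h2
    nlinarith

theorem crit_high (n : ℕ) (hn : 5 ≤ n) : Crit n (3 / 4 * (((n : ℝ) + 1) / 2)) := by
  obtain ⟨k, hk⟩ : ∃ k : ℝ, k = ((n : ℝ) + 1) / 2 := ⟨_, rfl⟩
  have hn' : (5 : ℝ) ≤ n := by exact_mod_cast hn
  have hk3 : 3 ≤ k := by linarith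
  have hk0 : 0 < k := by linarith
  have hd : (n : ℝ) + 2 = 2 * k + 1 := by linarith
  have hd0 : (0 : ℝ) < n + 2 := by positivity
  obtain ⟨T, hT⟩ : ∃ T : ℝ, T = sqrt (4 / 5 * k * (n + 2)) := ⟨_, rfl⟩
  have hT0 : 0 < T := by rw [hT]; exact sqrt_pos.2 (by positivity)
  have hT2 : T ^ 2 = 4 / 5 * k * (n + 2) := by rw [hT]; exact sq_sqrt (by positivity)
  obtain ⟨β, hβ⟩ : ∃ β : ℝ, β = 5 / (64 * k * (n + 2) ^ 2) := ⟨_, rfl⟩
  have hβ0 : 0 < β := by rw [hβ]; positivity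
  have hlT : T ^ 2 * (1 / ((n : ℝ) + 2) + 4 * β * T ^ 2) = k := by
    rw [hT2, hβ]; field_simp; ring
  have hA : 4 * β * (n + 4) < (1 / ((n : ℝ) + 2)) ^ 2 := by
    rw [hβ, div_pow, one_pow, lt_div_iff₀ (by positivity)]
    have : 4 * (5 / (64 * k * ((n : ℝ) + 2) ^ 2)) * (n + 4) * (n + 2) ^ 2 = 5 * (n + 4) / (16 * k) := by
      field_simp; ring
    rw [this, div_lt_one (by positivity)]
    linarith
  have hS := sonin n hβ0.le hA (T := T) (by rw [hlT]; linarith)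
  have hx : ∀ t : ℝ, t ^ 2 / (2 * (n + 2)) + β * t ^ 4 =
      k * (2 / 5 * (t / T) ^ 2 + 1 / 20 * ((t / T) ^ 2) ^ 2) := fun t => by
    rw [div_pow, hT2, hβ]; field_simp; ring
  have hQ : ∀ s : ℝ, 0 < (1 / ((n : ℝ) + 2) + 4 * β * s ^ 2) ^ 2 - 4 * β * (n + 4) := fun s => by
    have : (1 / ((n : ℝ) + 2)) ^ 2 ≤ (1 / ((n : ℝ) + 2) + 4 * β * s ^ 2) ^ 2 :=
      pow_le_pow_left₀ (by positivity) (le_add_of_nonneg_right (by positivity)) 2
    linarith
  have h1 : ∀ t ∈ Icc 0 T,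
      |jn n t| ≤ exp (-(k * (2 / 5 * (t / T) ^ 2 + 1 / 20 * ((t / T) ^ 2) ^ 2))) := fun t ht => by
    have h2 := hS t ht
    rw [hx] at h2
    refine abs_le_of_sq_le_sq' ?_ (exp_nonneg _) |> abs_le.2
    rw [← exp_nat_mul, Nat.cast_ofNat, mul_neg, exp_neg, ← one_div, le_div_iff₀' (exp_pos _)]
    refine le_trans ?_ h2
    have := hQ t
    gcongr
    exact le_add_of_nonneg_right (by positivity)
  have hE : Energy n T (T ^ (n + 1) * exp (-(9 / 20 * k)) ^ 2) := by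
    have hl : ((n : ℝ) + 1) * (n - 1) / 4 = k * (k - 1) := by rw [hk]; ring
    have hl2 : k * (k - 1) < T ^ 2 := by rw [hT2, hd]; nlinarith
    refine energy_big n (by omega) T _ hT0 (hl ▸ hl2) ?_
    have h2 := hS T ⟨hT0.le, le_rfl⟩
    rw [hx, div_self hT0.ne'] at h2
    rw [← exp_nat_mul, Nat.cast_ofNat, mul_neg, exp_neg, ← one_div, le_div_iff₀' (exp_pos _), hl]
    refine le_trans ?_ h2
    rw [show k * (2 / 5 * 1 ^ 2 + 1 / 20 * (1 ^ 2) ^ 2) = 9 / 20 * k by ring]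
    refine mul_le_mul_of_nonneg_left (add_le_add_right ?_ _) (exp_nonneg _)
    have hv : vv n T = T ^ 2 * (-(jn (n + 2) T / (n + 2)) +
        (1 / ((n : ℝ) + 2) + 4 * β * T ^ 2) * jn n T) := by
      rw [mul_add, ← mul_assoc, hlT, vv, hk]; ring
    rw [hv, mul_pow, div_le_div_iff₀ (by linarith) (hQ T), mul_comm ((T ^ 2) ^ 2), mul_assoc]
    gcongr
    have : (T ^ 2) ^ 2 * ((1 / ((n : ℝ) + 2) + 4 * β * T ^ 2) ^ 2 - 4 * β * (n + 4)) =
        k ^ 2 - k * (n + 4) / 5 := by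
      rw [mul_sub, ← mul_pow, hlT, hT2, hβ]; field_simp; ring
    rw [this, hT2, hd, show (n : ℝ) + 4 = 2 * k + 3 by linarith]
    nlinarith
  have h2 : ∀ t, T ≤ t → |jn n t| ≤ exp (-(k * (9 / 20 + log (t / T)))) := fun t ht => by
    have ht0 := hT0.trans_le ht
    rw [abs_jn_eq n ht0]
    refine (mul_le_mul_of_nonneg_right (abs_uu_le hT0 (exp_nonneg _) hE ht)
      (by positivity)).trans (le_of_eq ?_)
    rw [← hk, rpow_def_of_pos hT0, rpow_def_of_pos ht0, ← exp_add, ← exp_add,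
      log_div ht0.ne' hT0.ne']
    congr 1; ring
  have hg : ∀ t : ℝ, t ^ 2 / (2 * (n + 2)) = k * (2 / 5 * (t / T) ^ 2) := fun t => by
    rw [div_pow, hT2]; field_simp; ring
  rw [← hk]
  refine ⟨by linarith, fun t ht => ?_, ?_⟩
  · rw [hg]
    rcases le_total t T with h | h
    · refine le_max_of_le_left ((h1 t ⟨ht.le, h⟩).trans (exp_le_exp.2 (neg_le_neg ?_)))
      gcongr
      exact le_add_of_nonneg_right (by positivity)
    · rcases log_ge_min ((one_le_div hT0).2 h) with h3 | h3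
      · exact le_max_of_le_left ((h2 t h).trans (exp_le_exp.2 (neg_le_neg (by gcongr))))
      · exact le_max_of_le_right ((h2 t h).trans (exp_le_exp.2 (neg_le_neg (by nlinarith))))
  have hj := (continuous_jn n).measurable
  have hp := phi_meas (3 / 4 * k)
  have hT1 : T ≤ T * exp (3 / 10) := le_mul_of_one_le_right hT0.le (one_le_exp (by norm_num))
  have hlog : ∀ t, T * exp (3 / 10) ≤ t → 3 / 10 ≤ log (t / T) := fun t ht => by
    rw [le_log_iff_exp_le (div_pos (hT0.trans_le (hT1.trans ht)) hT0), le_div_iff₀' hT0]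
    exact ht
  have hlog' : ∀ t, 0 < t → t ≤ T * exp (3 / 10) → log (t / T) ≤ 3 / 10 := fun t ht0 ht => by
    rw [log_le_iff_le_exp (div_pos ht0 hT0), div_le_iff₀' hT0]
    exact ht
  rw [mw_split n (f := fun t => phi (3 / 4 * k) |jn n t|) (by fun_prop) hT0.le hT1
    (fun t ht => phi_zero (abs_nonneg _) ((h2 t (hT1.trans ht.le)).trans
      (exp_le_exp.2 (neg_le_neg (by nlinarith [hlog t ht.le])))))]
  have hnk : ((n : ℝ) + 1) = 2 * k := by linarith
  have p1 := lint_piece hT0.le (f := fun t => t ^ n * phi (3 / 4 * k) |jn n t|)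
    (g := fun t => exp (-(2 * (k * (2 / 5 * (t / T) ^ 2 + 1 / 20 * ((t / T) ^ 2) ^ 2)))) * t ^ n *
      (k * ((1 - (4 / 5 * (t / T) ^ 2 + 1 / 5 * ((t / T) ^ 2) ^ 2)) *
        (4 / 5 + k * (4 / 25) * ((t / T) ^ 2) ^ 2) + 8 / 25 * ((t / T) ^ 2) ^ 2)))
    (Continuous.continuousOn (by fun_prop)) (fun t ht => by
      have hw : (t / T) ^ 2 ≤ 1 := pow_le_one₀ (div_nonneg ht.1.le hT0.le) ((div_le_one hT0).2 ht.2)
      have h3 := phi_mono (3 / 4 * k) (abs_nonneg _) (h1 t ⟨ht.1.le, ht.2⟩)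
      have hw0 : 0 ≤ (t / T) ^ 2 := sq_nonneg _
      generalize (t / T) ^ 2 = w at hw hw0 h3 ⊢
      rw [phi_exp, max_eq_left (by nlinarith [mul_nonneg hw0 (sub_nonneg.2 hw)]), ← exp_nat_mul,
        Nat.cast_ofNat, mul_neg] at h3
      have h4 : 3 / 4 * k - k * (2 / 5 * w + 1 / 20 * w ^ 2) ≤
          k * ((1 - (4 / 5 * w + 1 / 5 * w ^ 2)) * (4 / 5 + k * (4 / 25) * w ^ 2) +
            8 / 25 * w ^ 2) := by
        have h5 : 0 ≤ 1 - (4 / 5 * w + 1 / 5 * w ^ 2) := by nlinarith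
        have h6 : (1 - (4 / 5 * w + 1 / 5 * w ^ 2)) * (4 / 5 + 3 * (4 / 25) * w ^ 2) ≤
            (1 - (4 / 5 * w + 1 / 5 * w ^ 2)) * (4 / 5 + k * (4 / 25) * w ^ 2) := by gcongr
        have h7 : 3 / 4 - (2 / 5 * w + 1 / 20 * w ^ 2) ≤
            (1 - (4 / 5 * w + 1 / 5 * w ^ 2)) * (4 / 5 + 3 * (4 / 25) * w ^ 2) + 8 / 25 * w ^ 2 := by
          nlinarith [mul_nonneg (sub_nonneg.2 hw) (sq_nonneg (w - 1 / 4)),
            mul_nonneg (mul_nonneg hw0 (sub_nonneg.2 hw)) (sq_nonneg w), sq_nonneg (w - 1 / 4),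
            mul_nonneg hw0 (sub_nonneg.2 hw), mul_nonneg (sub_nonneg.2 hw) (sq_nonneg w)]
        nlinarith
      have := ht.1
      rw [mul_comm _ (t ^ n), mul_assoc]
      exact mul_le_mul_of_nonneg_left (h3.trans (by gcongr)) (by positivity))
    (fun t ht => by
      have hw : (t / T) ^ 2 ≤ 1 := pow_le_one₀ (div_nonneg ht.1.le hT0.le) ((div_le_one hT0).2 ht.2)
      have hw0 : 0 ≤ (t / T) ^ 2 := sq_nonneg _
      have := ht.1
      have h5 : 0 ≤ 1 - (4 / 5 * (t / T) ^ 2 + 1 / 5 * ((t / T) ^ 2) ^ 2) := by nlinarith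
      positivity)
  rw [intervalIntegral.integral_eq_sub_of_hasDerivAt (f := fun t =>
    exp (-(2 * (k * (2 / 5 * (t / T) ^ 2 + 1 / 20 * ((t / T) ^ 2) ^ 2)))) * t ^ (n + 1) *
      ((4 / 5 + k * (4 / 25) * ((t / T) ^ 2) ^ 2) / 2)) (fun t _ => by
      have hw := ((hasDerivAt_id t).div_const T).pow 2
      refine ((((((hw.const_mul (2 / 5)).add ((hw.pow 2).const_mul (1 / 20))).const_mul
        k).const_mul 2).neg.exp.mul (hasDerivAt_pow (n + 1) t)).mul
        ((((hw.pow 2).const_mul (k * (4 / 25))).const_add (4 / 5)).div_const 2)).congr_deriv ?_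
      simp only [Pi.add_apply, Pi.pow_apply, Pi.mul_apply, Pi.neg_apply, id, Nat.add_sub_cancel]
      push_cast
      rw [hnk]
      field_simp
      ring) (Continuous.intervalIntegrable (by fun_prop) _ _)] at p1
  have hc2 : ContinuousOn (fun t => exp (-(9 / 10 * k)) * T ^ (n + 1) * k *
      ((3 / 10 - log (t / T)) / t)) (Icc T (T * exp (3 / 10))) := by
    refine continuousOn_const.mul (ContinuousOn.div (continuousOn_const.sub
      (ContinuousOn.log (by fun_prop) fun t ht => ?_)) continuousOn_id fun t ht => ?_)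
    · exact (div_pos (hT0.trans_le ht.1) hT0).ne'
    · exact (hT0.trans_le ht.1).ne'
  have p2 := lint_piece hT1 (f := fun t => t ^ n * phi (3 / 4 * k) |jn n t|) hc2 (fun t ht => by
      have ht0 := hT0.trans ht.1
      have h3 := phi_mono (3 / 4 * k) (abs_nonneg _) (h2 t ht.1.le)
      have h4 := hlog' t ht0 ht.2
      rw [phi_exp, max_eq_left (by nlinarith)] at h3
      refine (mul_le_mul_of_nonneg_left h3 (by positivity)).trans (le_of_eq ?_)
      have h5 : exp (-(k * (9 / 20 + log (t / T)))) ^ 2 =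
          exp (-(9 / 10 * k)) * (T ^ (n + 1) / t ^ (n + 1)) := by
        rw [← div_pow, ← rpow_natCast (T / t), rpow_def_of_pos (by positivity), ← exp_add,
          ← exp_nat_mul, log_div ht0.ne' hT0.ne', log_div hT0.ne' ht0.ne']
        push_cast
        rw [hnk]
        congr 1; ring
      rw [h5]
      field_simp
      ring) (fun t ht => by
      have ht0 := hT0.trans ht.1
      have h4 := sub_nonneg.2 (hlog' t ht0 ht.2)
      positivity)
  rw [intervalIntegral.integral_eq_sub_of_hasDerivAt (f := fun t =>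
    exp (-(9 / 10 * k)) * T ^ (n + 1) * k * (-((3 / 10 - log (t / T)) ^ 2 / 2))) (fun t ht => by
      rw [uIcc_of_le hT1] at ht
      have ht0 := hT0.trans_le ht.1
      refine (((((((hasDerivAt_id t).div_const T).log (div_pos ht0 hT0).ne').const_sub
        (3 / 10)).pow 2).div_const 2).neg.const_mul _).congr_deriv ?_
      simp only [id]
      field_simp
      push_cast
      ring) (hc2.intervalIntegrable_of_Icc hT1)] at p2
  refine (add_le_add p1 p2).trans ?_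
  simp only [div_self hT0.ne', mul_div_cancel_left₀ _ hT0.ne', log_exp, log_one]
  rw [← ENNReal.ofReal_add (by simp; positivity) (by simp; positivity)]
  refine ENNReal.ofReal_le_ofReal ?_
  obtain ⟨i, rfl⟩ := Nat.exists_eq_add_of_le hn
  have hf := final_all i k (by rw [hk]; push_cast; ring)
  have hTn : T ^ (5 + i + 1) = (4 / 5 * k) ^ k * (((5 + i : ℕ) : ℝ) + 2) ^ k := by
    rw [← mul_rpow (by positivity) hd0.le, ← hT2, ← rpow_natCast, ← rpow_natCast,
      ← rpow_mul hT0.le]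
    congr 1
    push_cast at hnk ⊢
    exact hnk
  rw [hTn, K0, show (((5 + i : ℕ) : ℝ) + 1) / 4 = k / 2 by linarith, ← hk]
  rw [Gamma_add_one hk0.ne'] at hf
  have hP : 0 < (((5 + i : ℕ) : ℝ) + 2) ^ k := by positivity
  have := mul_le_mul_of_nonneg_left hf hP.le
  rw [show 2 * (k * (2 / 5 * 1 ^ 2 + 1 / 20 * (1 ^ 2) ^ 2)) = 9 / 10 * k by ring]
  rw [zero_pow (n := 5 + i + 1) (Nat.succ_ne_zero _)]
  linarith

theorem crit_all (n : ℕ) : ∃ L, Crit n L := by
  rcases le_or_gt 5 n with h | h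
  · exact ⟨_, crit_high n h⟩
  · interval_cases n
    exacts [⟨_, crit_zero⟩, ⟨_, crit_one⟩, ⟨_, crit_two⟩, ⟨_, crit_three⟩, ⟨_, crit_four⟩]

end Pool.Agent.Lib.MP_237b21_an
end
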