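import Mathlib

/-! Definitions for the negative-moment Khintchine constants on spheres. -/

namespace Pool.Agent.Lib.MP_237b21_an

open MeasureTheory
open scoped ENNReal

/-- The normalised surface measure (uniform probability measure) on the unit sphere of `R^m`. -/
noncomputable def sph (m : ℕ) : Measure (Metric.sphere (0 : EuclideanSpace ℝ (Fin m)) 1) :=
  ((volume : Measure (EuclideanSpace ℝ (Fin m))).toSphere Set.univ)⁻¹ •
    (volume : Measure (EuclideanSpace ℝ (Fin m))).toSphere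

/-- `E |a 1 X 1 + ... + a n X n| ^ p` for independent uniform vectors `X j` on the sphere,
with values in `[0, infinity]`. -/
noncomputable def mom (m n : ℕ) (p : ℝ) (a : Fin n → ℝ) : ℝ≥0∞ :=
  ∫⁻ x : Fin n → Metric.sphere (0 : EuclideanSpace ℝ (Fin m)) 1,
    ‖∑ j, a j • (x j : EuclideanSpace ℝ (Fin m))‖ₑ ^ p ∂(Measure.pi fun _ => sph m)

/-- The best constant: the infimum over `n ≥ 1` and `a ≠ 0` of `(E |S a| ^ p) ^ (1 / p) / |a|`. -/
noncomputable def best (m : ℕ) (p : ℝ) : ℝ≥0∞ :=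
  ⨅ (n : ℕ) (_ : 1 ≤ n) (a : Fin n → ℝ) (_ : a ≠ 0),
    (mom m n p a) ^ (1 / p) / ENNReal.ofReal (Real.sqrt (∑ j, a j ^ 2))

/-- The two-summand constant. -/
noncomputable def cTwo (m : ℕ) (p : ℝ) : ℝ :=
  ((2 : ℝ) ^ (p / 2) * Real.Gamma (((m : ℝ) - 1 + p) / 2) * Real.Gamma ((m : ℝ) - 1) /
    (Real.Gamma ((m : ℝ) - 1 + p / 2) * Real.Gamma (((m : ℝ) - 1) / 2))) ^ (1 / p)

/-- The Gaussian constant. -/
noncomputable def cInf (m : ℕ) (p : ℝ) : ℝ :=
  (((m : ℝ) / 2) ^ (-p / 2) * Real.Gamma (((m : ℝ) + p) / 2) / Real.Gamma ((m : ℝ) / 2)) ^ (1 / p)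

end Pool.Agent.Lib.MP_237b21_an
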