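import Pool.Agent.Lib.MP_237b21_an.Quad

-- part Pool.Agent.Lib.MP_237b21_an.Num
section

/-! Numerical inequalities and the main moment bound. -/

namespace Pool.Agent.Lib.MP_237b21_an

open MeasureTheory Set Real Filter
open scoped ENNReal Topology

lemma log_three_half : 0.40543 ≤ log (3 / 2) ∧ log (3 / 2) ≤ 0.40549 := by
  have e : log (3 / 2) = log 2 + log (1 - 1 / 4) := by
    rw [← log_mul (by norm_num) (by norm_num)]; norm_num
  have h := abs_log_sub_add_sum_range_le (x := 1 / 4) (by norm_num [abs_of_pos]) 8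
  norm_num [Finset.sum_range_succ, abs_le, abs_of_pos] at h
  norm_num at e
  rw [e]
  constructor <;> linarith [h.1, h.2, log_two_gt_d9, log_two_lt_d9]

lemma exp_neg_le {x : ℝ} (hx : 0 ≤ x) : exp (-x) ≤ 1 - x + x ^ 2 / 2 := by
  have h := quadratic_le_exp_of_nonneg hx
  rw [exp_neg, inv_le_iff_one_le_mul₀ (exp_pos _)]
  have : 0 < 1 - x + x ^ 2 / 2 := by nlinarith [sq_nonneg (x - 1)]
  nlinarith [mul_le_mul_of_nonneg_left h this.le, pow_nonneg hx 4]

lemma exp_two_sub {x : ℝ} (hx : 0 ≤ x) : exp (x - x ^ 2) ≤ 2 - exp (-x) := by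
  have h1 := exp_neg_le hx
  have h2 := add_one_le_exp (-x)
  have h3 : exp (-x) ≤ 1 := exp_le_one_iff.2 (by linarith)
  obtain ⟨w, hw⟩ : ∃ w, w = 1 - exp (-x) := ⟨_, rfl⟩
  have hw0 : 0 ≤ w := by linarith
  have h4 := le_log_one_add_of_nonneg hw0
  rw [show 2 - exp (-x) = 1 + w by linarith, ← le_log_iff_exp_le (by linarith)]
  refine le_trans ?_ h4
  rw [le_div_iff₀ (by linarith)]
  have h5 : w ^ 2 ≤ x ^ 2 := pow_le_pow_left₀ hw0 (by linarith) 2
  have h6 : x - x ^ 2 ≤ w - w ^ 2 / 2 := by linarith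
  nlinarith [mul_le_mul_of_nonneg_right h6 (by linarith : 0 ≤ w + 2), pow_nonneg hw0 3]

lemma Gamma_two_sub {r : ℝ} (h0 : 0 ≤ r) (h1 : r ≤ 1) :
    exp (-(r * (log (3 / 2) + 0.0186 - 0.31 * r))) ≤ Gamma (2 - r) := by
  have h := LG_upper (y := 2 - r) (by linarith) h0 h1 (by linarith)
  rw [LG, sub_add_cancel, Gamma_two, log_one, zero_sub] at h
  rw [← le_log_iff_exp_le (Gamma_pos_of_pos (by linarith))]
  have h2 : log (2 - r + (r - 1) / 2) ≤ log (3 / 2) - r / 3 := by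
    rw [show 2 - r + (r - 1) / 2 = 3 / 2 * (1 - r / 3) by ring, log_mul (by norm_num) (by linarith)]
    linarith [log_le_sub_one_of_pos (x := 1 - r / 3) (by linarith)]
  have h3 : r / (24 * (2 - r + (r - 1) / 2) ^ 2) ≤ r * (0.0186 + 0.0232 * r) := by
    have : 0 < 2 - r + (r - 1) / 2 := by linarith
    rw [div_le_iff₀ (by positivity), mul_assoc]
    refine le_mul_of_one_le_right h0 ?_
    nlinarith [mul_nonneg h0 (sub_nonneg.2 h1), mul_nonneg (mul_nonneg h0 (sub_nonneg.2 h1)) h0]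
  nlinarith [mul_le_mul_of_nonneg_left h2 h0, sq_nonneg r]

lemma quartic {a0 a1 a2 a3 a4 s u : ℝ} (hu : 0 ≤ u) (h0 : 0 ≤ a0) (h4 : 0 ≤ a4)
    (h3 : a3 ≤ 2 * s * a4) (h2 : 0 ≤ a2 - a4 * s ^ 2 + 2 * s * (2 * s * a4 - a3))
    (h1 : (2 * s * a4 - a3) * s ^ 2 ≤ a1) :
    0 ≤ a0 + a1 * u + a2 * u ^ 2 - a3 * u ^ 3 + a4 * u ^ 4 := by
  have k1 := mul_nonneg (mul_nonneg h4 (sq_nonneg u)) (sq_nonneg (u - s))
  have k2 := mul_nonneg (mul_nonneg (sub_nonneg.2 h3) hu) (sq_nonneg (u - s))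
  have k3 := mul_nonneg h2 (sq_nonneg u)
  have k4 := mul_nonneg (sub_nonneg.2 h1) hu
  nlinarith

lemma poly_two {q y : ℝ} (hq : 0 ≤ q) (h : q ≤ 0.13) (hy : 1 ≤ y) :
    (y - q * (1 - q) / 2) * (y + 1) ≤ (y + 1 + 2 * q * (y - 1)) *
      (1 - q * (1 - q) / 2 * y + q * (0.046 - 0.05 * q) * y ^ 2) * y := by
  obtain ⟨u, rfl⟩ : ∃ u, y = 1 + u := ⟨y - 1, by ring⟩
  have hu : 0 ≤ u := by linarith
  have b0 := quartic (a0 := 0.092) (a1 := 0.322) (a2 := 0.414) (a3 := 0.27) (a4 := 0.046) (s := 3.1)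
    hu (by norm_num) (by norm_num) (by norm_num) (by norm_num) (by norm_num)
  have b1 := quartic (a0 := 0.0855) (a1 := 0.37023) (a2 := 0.40269) (a3 := 0.30081) (a4 := 0.04873)
    (s := 3.4) hu (by norm_num) (by norm_num) (by norm_num) (by norm_num) (by norm_num)
  have b2 := quartic (a0 := 0.079) (a1 := 0.43367) (a2 := 0.42011) (a3 := 0.31979) (a4 := 0.04977)
    (s := 3.55) hu (by norm_num) (by norm_num) (by norm_num) (by norm_num) (by norm_num)
  have h' := sub_nonneg.2 h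
  have k0 := mul_nonneg (mul_nonneg hq (mul_nonneg h' h')) b0
  have k1 := mul_nonneg (mul_nonneg hq (mul_nonneg hq h')) b1
  have k2 := mul_nonneg (mul_nonneg hq (mul_nonneg hq hq)) b2
  linarith

lemma poly_three {r y : ℝ} (hr : 0 ≤ r) (h : r ≤ 0.1) (hy : 1 ≤ y) :
    (y - (1 / 2 + r) * (1 - r) * (2 / 5)) * (y + 1) ≤ (y + 1 + 2 * (1 / 2 + r) * (y - 1)) *
      (1 - (1 / 2 + r) * (1 - r) * (2 / 5) * y + 0.027 * y ^ 2) * y := by
  obtain ⟨u, rfl⟩ : ∃ u, y = 1 + u := ⟨y - 1, by ring⟩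
  have hu : 0 ≤ u := by linarith
  have b0 := quartic (a0 := 0.054) (a1 := 0.211) (a2 := 0.118) (a3 := 0.186) (a4 := 0.054) (s := 2)
    hu (by norm_num) (by norm_num) (by norm_num) (by norm_num) (by norm_num)
  have b1 := quartic (a0 := 0.054) (a1 := 0.2536) (a2 := 0.1379) (a3 := 0.214) (a4 := 0.0567)
    (s := 2.2) hu (by norm_num) (by norm_num) (by norm_num) (by norm_num) (by norm_num)
  have b2 := quartic (a0 := 0.054) (a1 := 0.293) (a2 := 0.1514) (a3 := 0.2452) (a4 := 0.0594)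
    (s := 2.43) hu (by norm_num) (by norm_num) (by norm_num) (by norm_num) (by norm_num)
  have h' := sub_nonneg.2 h
  have k0 := mul_nonneg (mul_nonneg h' h') b0
  have k1 := mul_nonneg (mul_nonneg hr h') b1
  have k2 := mul_nonneg (mul_nonneg hr hr) b2
  have k3 : 0 ≤ (r - 0.05) ^ 2 * ((2 + u) * (u * (2 + u)) + 2 * (1 / 2 + r) * (1 + u) ^ 2 * u) := by
    positivity
  linarith

variable {n : ℕ} {q : ℝ}

lemma CC_ge (r : ℝ) (hr : q = n / 2 - 1 + r) :
    (((n : ℝ) + 2) / 4) ^ q * Gamma (2 - r) / Gamma (((n : ℝ) + 2) / 2) ≤ CC n q * 2 ^ (-q) := by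
  refine le_trans (le_of_eq ?_) (mul_le_mul_of_nonneg_right (le_max_right _ _) (by positivity))
  rw [CI, show ((n : ℝ) + 2) / 2 - q = 2 - r by linarith, show ((n : ℝ) + 2) / 4 = (n + 2) / 2 / 2 by
    ring, div_rpow (by positivity) zero_le_two, rpow_neg zero_le_two]
  ring

lemma B0_of {D : ℝ} (hq : 0 < q) (hD : D ≤ CC n q * 2 ^ (-q))
    (h : 1 ≤ D * (2 - exp (-(log (3 / 2) * q)))) : 1 ≤ CC n q * (2 * 2 ^ (-q) - 3 ^ (-q)) := by
  have e : (3 : ℝ) ^ (-q) = 2 ^ (-q) * exp (-(log (3 / 2) * q)) := by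
    rw [← mul_neg, ← rpow_def_of_pos (by norm_num), ← mul_rpow (by norm_num) (by norm_num)]
    norm_num
  have h1 : exp (-(log (3 / 2) * q)) ≤ 1 :=
    exp_le_one_iff.2 (by nlinarith [log_three_half.1])
  rw [e]
  nlinarith [mul_le_mul_of_nonneg_right hD (by linarith : 0 ≤ 2 - exp (-(log (3 / 2) * q)))]

lemma big_one (hq : 0 < q) (hq' : q < 1 / 2) (k : ℕ) : Big 1 q k := by
  refine big_C hq (by simpa using hq') (B0_of (D := P1 1 q) hq ?_ ?_) k
  · exact P1_le 1 q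
  have hG := Gamma_pos_of_pos (s := 1 - q) (by linarith)
  have e : P1 1 q = exp (-(log 4 * q)) / (1 - q) := by
    rw [P1, show (((1 : ℕ) : ℝ) + 1) / 2 = 1 by norm_num, show ((1 : ℕ) : ℝ) + 1 = 2 by norm_num,
      show 2 - q = 1 - q + 1 by ring, Gamma_add_one (by linarith), Gamma_two, Gamma_one,
      rpow_def_of_pos (by norm_num), mul_neg]
    have : 1 - q ≠ 0 := by linarith
    field_simp
  obtain ⟨c1, c2⟩ := log_three_half
  have h1 := exp_two_sub (x := log (3 / 2) * q) (by positivity)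
  have h2 := log_one_sub_le hq.le (by linarith)
  have h4 : log 4 = 2 * log 2 := by
    rw [show (4 : ℝ) = 2 ^ 2 by norm_num, log_pow]; norm_num
  rw [e, div_mul_eq_mul_div, le_div_iff₀ (by linarith), one_mul]
  refine le_trans ?_ (mul_le_mul_of_nonneg_left h1 (exp_nonneg _))
  rw [← exp_add, ← log_le_iff_le_exp (by linarith), h4]
  have h5 : log (3 / 2) ^ 2 ≤ 0.40549 ^ 2 := pow_le_pow_left₀ (by linarith) c2 2
  nlinarith [log_two_lt_d9, mul_le_mul_of_nonneg_right h5 (sq_nonneg q), pow_nonneg hq.le 3,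
    mul_le_mul_of_nonneg_right c1 hq.le, mul_le_mul_of_nonneg_right log_two_lt_d9.le hq.le]

lemma big_two (hq : 0 < q) (hq' : q < 1) (k : ℕ) : Big 2 q k := by
  have hD := CC_ge (n := 2) (q := q) q (by norm_num)
  rw [show (((2 : ℕ) : ℝ) + 2) / 4 = 1 by norm_num, show (((2 : ℕ) : ℝ) + 2) / 2 = 2 by norm_num,
    Gamma_two, one_rpow, one_mul, div_one] at hD
  have hD' := (Gamma_two_sub hq.le hq'.le).trans hD
  obtain ⟨c1, c2⟩ := log_three_half
  rcases le_total q 0.13 with h | h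
  · refine big_Q hq (by norm_num; linarith) (by norm_num; linarith) (c := q * (1 - q) / 2)
      (g := q * (0.046 - 0.05 * q)) (by norm_num) (by nlinarith)
      (mul_nonneg hq.le (by linarith)) (fun y hy => poly_two hq.le h hy) (le_trans ?_ hD')
      (by nlinarith [mul_pos hq hq, mul_pos hq (mul_pos hq hq)]) k
    · have h2 := log_one_sub_le (y := q * (0.431 - 0.425 * q)) (mul_nonneg hq.le (by linarith))
        (by nlinarith)
      rw [show 1 - q * (1 - q) / 2 + q * (0.046 - 0.05 * q) * (1 + 2 / (((2 : ℕ) : ℝ) + 2)) =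
        1 - q * (0.431 - 0.425 * q) by norm_num; ring, ← log_le_iff_le_exp (by nlinarith)]
      refine h2.trans (neg_le_neg ?_)
      have h3 : 0.375 ≤ 0.431 - 0.425 * q := by linarith
      have h4 : (q * 0.375) ^ 2 ≤ (q * (0.431 - 0.425 * q)) ^ 2 := by gcongr
      have h5 : 0 ≤ (q * (0.431 - 0.425 * q)) ^ 3 := by positivity
      nlinarith [mul_le_mul_of_nonneg_left c2 hq.le, mul_nonneg hq.le (sub_nonneg.2 h)]
  · refine big_C hq (by simpa using hq') (B0_of hq hD' ?_) k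
    have h1 := exp_two_sub (x := log (3 / 2) * q) (by positivity)
    refine le_trans ?_ (mul_le_mul_of_nonneg_left h1 (exp_nonneg _))
    rw [← exp_add]
    refine one_le_exp ?_
    have h5 : log (3 / 2) ^ 2 ≤ 0.40549 ^ 2 := pow_le_pow_left₀ (by linarith) c2 2
    nlinarith [mul_le_mul_of_nonneg_right h5 (sq_nonneg q), mul_nonneg hq.le (sub_nonneg.2 h)]

lemma sqrt_pi_le : sqrt π ≤ 1.77246 := sqrt_le_iff.2 ⟨by norm_num, by linarith [pi_lt_d6]⟩

lemma big_three (hq : 1 / 2 < q) (hq' : q < 3 / 2) (k : ℕ) : Big 3 q k := by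
  obtain ⟨r, rfl⟩ : ∃ r, q = 1 / 2 + r := ⟨q - 1 / 2, by ring⟩
  have hr0 : 0 < r := by linarith
  have hr1 : r < 1 := by linarith
  obtain ⟨c1, c2⟩ := log_three_half
  have hD := CC_ge (n := 3) (q := 1 / 2 + r) r (by norm_num)
  have hD' : 0.841 * (1 - 0.201 * r + 0.31 * r ^ 2) ≤ CC 3 (1 / 2 + r) * 2 ^ (-(1 / 2 + r)) := by
    refine le_trans ?_ hD
    rw [show (((3 : ℕ) : ℝ) + 2) / 4 = 5 / 4 by norm_num,
      show (((3 : ℕ) : ℝ) + 2) / 2 = 1 / 2 + 1 + 1 by norm_num, Gamma_add_one (by norm_num),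
      Gamma_add_one (by norm_num), Gamma_one_half_eq, rpow_add (by norm_num), ← sqrt_eq_rpow,
      le_div_iff₀ (by positivity), rpow_def_of_pos (by norm_num)]
    have h1 : (1.118 : ℝ) ≤ sqrt (5 / 4) := le_sqrt_of_sq_le (by norm_num)
    have h2 : 0.2231 ≤ log (5 / 4) := by
      have h := abs_log_sub_add_sum_range_le (x := 1 / 5) (by norm_num [abs_of_pos]) 7
      have e : log (5 / 4) = -log (1 - 1 / 5) := by rw [← log_inv]; norm_num
      norm_num [Finset.sum_range_succ, abs_le, abs_of_pos] at h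
      norm_num at e
      rw [e]
      linarith [h.2]
    have h3 : 1 - 0.201 * r + 0.31 * r ^ 2 ≤ exp (log (5 / 4) * r) * Gamma (2 - r) := by
      refine le_trans ?_ (mul_le_mul_of_nonneg_left (Gamma_two_sub hr0.le hr1.le) (exp_nonneg _))
      rw [← exp_add]
      refine le_trans ?_ (add_one_le_exp _)
      nlinarith
    have h4 : 0 ≤ 1 - 0.201 * r + 0.31 * r ^ 2 := by nlinarith
    have h5 := mul_le_mul h1 h3 h4 (sqrt_nonneg _)
    nlinarith [mul_le_mul_of_nonneg_left sqrt_pi_le h4]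
  rcases le_total r 0.1 with h | h
  · refine big_Q (by linarith) (by norm_num; linarith) (by norm_num; linarith)
      (c := (1 / 2 + r) * (1 - r) * (2 / 5)) (g := 0.027) (by norm_num; ring) (by nlinarith)
      (by norm_num) (fun y hy => poly_three hr0.le h hy) (le_trans ?_ hD') (by nlinarith) k
    · norm_num
      nlinarith
  · refine big_C (by linarith) (by norm_num; linarith) (B0_of (by linarith) hD' ?_) k
    have h1 : exp (-(log (3 / 2) * (1 / 2 + r))) ≤ 0.8166 * (1 - 0.4054 * r + 0.0822 * r ^ 2) := by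
      rw [mul_add, neg_add, exp_add]
      have h2 : exp (-(log (3 / 2) * (1 / 2))) ≤ 0.8166 := by
        refine (pow_le_pow_iff_left₀ (exp_nonneg _) (by norm_num) two_ne_zero).1 ?_
        rw [← exp_nat_mul, show ((2 : ℕ) : ℝ) * -(log (3 / 2) * (1 / 2)) = -log (3 / 2) by
          push_cast; ring, exp_neg, exp_log (by norm_num)]
        norm_num
      have h3 : exp (-(log (3 / 2) * r)) ≤ exp (-(0.4054 * r)) := exp_le_exp.2 (by nlinarith)
      have h4 := exp_neg_le (x := 0.4054 * r) (by positivity)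
      exact mul_le_mul h2 (by nlinarith) (exp_nonneg _) (by norm_num)
    have h4 : 0 ≤ 0.841 * (1 - 0.201 * r + 0.31 * r ^ 2) := by nlinarith
    refine le_trans ?_ (mul_le_mul_of_nonneg_left (sub_le_sub_left h1 2) h4)
    have h5 := mul_nonneg (sub_nonneg.2 h) (sub_nonneg.2 hr1.le)
    nlinarith [mul_nonneg h5 hr0.le, mul_nonneg h5 (sq_nonneg r), mul_nonneg (sub_nonneg.2 h) hr0.le]

lemma big_four (hq : 1 < q) (hq' : q < 2) (k : ℕ) : Big 4 q k := by
  obtain ⟨r, rfl⟩ : ∃ r, q = 1 + r := ⟨q - 1, by ring⟩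
  have hr0 : 0 < r := by linarith
  have hr1 : r < 1 := by linarith
  obtain ⟨c1, c2⟩ := log_three_half
  have hD := CC_ge (n := 4) (q := 1 + r) r (by norm_num)
  have hD' : 3 / 4 * (1 - 0.0186 * r) ≤ CC 4 (1 + r) * 2 ^ (-(1 + r)) := by
    refine le_trans ?_ hD
    rw [show (((4 : ℕ) : ℝ) + 2) / 4 = 3 / 2 by norm_num,
      show (((4 : ℕ) : ℝ) + 2) / 2 = 2 + 1 by norm_num, Gamma_add_one (by norm_num),
      Gamma_two, rpow_add (by norm_num), rpow_one, rpow_def_of_pos (by norm_num)]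
    have h3 : 1 - 0.0186 * r ≤ exp (log (3 / 2) * r) * Gamma (2 - r) := by
      refine le_trans ?_ (mul_le_mul_of_nonneg_left (Gamma_two_sub hr0.le hr1.le) (exp_nonneg _))
      rw [← exp_add]
      refine le_trans ?_ (add_one_le_exp _)
      nlinarith
    nlinarith
  refine big_C (by linarith) (by norm_num; linarith) (B0_of (by linarith) hD' ?_) k
  have h1 : exp (-(log (3 / 2) * (1 + r))) ≤ 2 / 3 * (1 - 0.3 * r) := by
    rw [mul_add, neg_add, exp_add, mul_one, exp_neg, exp_log (by norm_num)]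
    have h3 : exp (-(log (3 / 2) * r)) ≤ exp (-(0.4 * r)) := exp_le_exp.2 (by nlinarith)
    have h4 := exp_neg_le (x := 0.4 * r) (by positivity)
    nlinarith
  have h4 : 0 ≤ 3 / 4 * (1 - 0.0186 * r) := by nlinarith
  refine le_trans ?_ (mul_le_mul_of_nonneg_left (sub_le_sub_left h1 2) h4)
  nlinarith

/-- The endpoint value. -/
noncomputable def AA (μ : ℝ) : ℝ := (μ / 2) ^ (μ - 2) / Gamma μ

lemma AA_step {μ : ℝ} (h : 9 / 2 ≤ μ) : AA μ ≤ AA (μ + 1) := by
  have h0 : 0 < μ := by linarith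
  have hG := Gamma_pos_of_pos h0
  have h1 : 2 ≤ (1 + 1 / μ) ^ (μ - 1) := by
    rw [rpow_def_of_pos (by positivity), ← log_le_iff_le_exp two_pos]
    have h2 := le_log_one_add_of_nonneg (x := 1 / μ) (by positivity)
    have h3 : 0.7 ≤ 2 * (1 / μ) / (1 / μ + 2) * (μ - 1) := by
      rw [div_mul_eq_mul_div, le_div_iff₀ (by positivity)]
      field_simp
      linarith
    nlinarith [log_two_lt_d9]
  rw [AA, AA, Gamma_add_one h0.ne', show (μ + 1) / 2 = μ / 2 * (1 + 1 / μ) by field_simp,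
    mul_rpow (by positivity) (by positivity), show μ + 1 - 2 = μ - 2 + 1 by ring,
    rpow_add_one (by positivity), show μ - 2 + 1 = μ - 1 by ring,
    div_le_div_iff₀ hG (by positivity)]
  have : 0 < (μ / 2) ^ (μ - 2) * (μ * Gamma μ) := by positivity
  nlinarith

lemma AA_ge (i : ℕ) : 0.65 ≤ AA (((i : ℝ) + 9) / 2) := by
  induction i using Nat.twoStepInduction with
  | zero =>
    rw [AA, show (((0 : ℕ) : ℝ) + 9) / 2 = 1 / 2 + 1 + 1 + 1 + 1 by norm_num,
      Gamma_add_one (by norm_num), Gamma_add_one (by norm_num), Gamma_add_one (by norm_num),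
      Gamma_add_one (by norm_num), Gamma_one_half_eq, le_div_iff₀ (by positivity),
      show ((1 : ℝ) / 2 + 1 + 1 + 1 + 1) / 2 = (3 / 2) ^ (2 : ℝ) by norm_num, ← rpow_mul (by norm_num),
      show (2 : ℝ) * (1 / 2 + 1 + 1 + 1 + 1 - 2) = ((5 : ℕ) : ℝ) by norm_num, rpow_natCast]
    linarith [sqrt_pi_le]
  | one =>
    rw [AA, show (((1 : ℕ) : ℝ) + 9) / 2 = ((4 : ℕ) : ℝ) + 1 by norm_num, Gamma_nat_eq_factorial,
      show ((4 : ℕ) : ℝ) + 1 - 2 = ((3 : ℕ) : ℝ) by norm_num, rpow_natCast]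
    norm_num [Nat.factorial]
  | more i ih _ =>
    rw [show (((i + 2 : ℕ) : ℝ) + 9) / 2 = (i + 9) / 2 + 1 by push_cast; ring]
    exact ih.trans (AA_step (by linarith [i.cast_nonneg (α := ℝ)]))

lemma two_third_half : exp (-(log (3 / 2) * (1 / 2))) ≤ 0.8166 := by
  refine (pow_le_pow_iff_left₀ (exp_nonneg _) (by norm_num) two_ne_zero).1 ?_
  rw [← exp_nat_mul, show ((2 : ℕ) : ℝ) * -(log (3 / 2) * (1 / 2)) = -log (3 / 2) by
    push_cast; ring, exp_neg, exp_log (by norm_num)]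
  norm_num

lemma AA_end (hn : 5 ≤ n) :
    1 ≤ AA (((n : ℝ) + 2) / 2) * (2 - exp (-(log (3 / 2) * (n / 2 - 1)))) := by
  have h23 : exp (-log (3 / 2)) = 2 / 3 := by rw [exp_neg, exp_log (by norm_num)]; norm_num
  have hh := two_third_half
  obtain rfl | rfl | hn : n = 5 ∨ n = 6 ∨ 7 ≤ n := by omega
  · have h1 : (1.3228 : ℝ) ≤ sqrt (7 / 4) := le_sqrt_of_sq_le (by norm_num)
    have h2 : 0.6965 ≤ AA ((((5 : ℕ) : ℝ) + 2) / 2) := by
      rw [AA, show (((5 : ℕ) : ℝ) + 2) / 2 = 1 / 2 + 1 + 1 + 1 by norm_num,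
        Gamma_add_one (by norm_num), Gamma_add_one (by norm_num),
        Gamma_add_one (by norm_num), Gamma_one_half_eq, le_div_iff₀ (by positivity),
        show ((1 : ℝ) / 2 + 1 + 1 + 1) / 2 = 7 / 4 by norm_num,
        show (1 : ℝ) / 2 + 1 + 1 + 1 - 2 = 1 / 2 + 1 by norm_num, rpow_add_one (by norm_num),
        ← sqrt_eq_rpow]
      linarith [sqrt_pi_le]
    rw [show -(log (3 / 2) * (((5 : ℕ) : ℝ) / 2 - 1)) = -log (3 / 2) + -(log (3 / 2) * (1 / 2)) by
      push_cast; ring, exp_add, h23]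
    nlinarith
  · rw [AA, show (((6 : ℕ) : ℝ) + 2) / 2 = ((3 : ℕ) : ℝ) + 1 by norm_num, Gamma_nat_eq_factorial,
      show ((3 : ℕ) : ℝ) + 1 - 2 = ((2 : ℕ) : ℝ) by norm_num, rpow_natCast,
      show -(log (3 / 2) * (((6 : ℕ) : ℝ) / 2 - 1)) = -log (3 / 2) + -log (3 / 2) by
      push_cast; ring, exp_add, h23]
    norm_num [Nat.factorial]
  · obtain ⟨i, rfl⟩ := Nat.exists_eq_add_of_le hn
    have h1 := AA_ge i
    rw [show (((7 + i : ℕ) : ℝ) + 2) / 2 = (i + 9) / 2 by push_cast; ring]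
    have h2 : exp (-(log (3 / 2) * (((7 + i : ℕ) : ℝ) / 2 - 1))) ≤
        exp (-log (3 / 2) + -log (3 / 2) + -(log (3 / 2) * (1 / 2))) := by
      rw [exp_le_exp]
      push_cast
      nlinarith [log_three_half.1, i.cast_nonneg (α := ℝ)]
    rw [exp_add, exp_add, h23] at h2
    nlinarith

lemma big_high (hn : 5 ≤ n) (hq : (n : ℝ) / 2 - 1 < q) (hq' : q < n / 2) (k : ℕ) : Big n q k := by
  obtain ⟨r, rfl⟩ : ∃ r, q = n / 2 - 1 + r := ⟨q - (n / 2 - 1), by ring⟩
  have hn' : (5 : ℝ) ≤ n := by exact_mod_cast hn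
  have hr0 : 0 < r := by linarith
  have hr1 : r < 1 := by linarith
  obtain ⟨c1, c2⟩ := log_three_half
  have hD := CC_ge (n := n) r rfl
  have hG := Gamma_pos_of_pos (s := ((n : ℝ) + 2) / 2) (by positivity)
  have hD' : AA (((n : ℝ) + 2) / 2) ≤ CC n (n / 2 - 1 + r) * 2 ^ (-(n / 2 - 1 + r)) := by
    refine le_trans ?_ hD
    rw [AA, rpow_add (by positivity), show ((n : ℝ) + 2) / 2 / 2 = (n + 2) / 4 by ring,
      show ((n : ℝ) + 2) / 2 - 2 = n / 2 - 1 by ring, mul_assoc]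
    refine div_le_div_of_nonneg_right (le_mul_of_one_le_right (by positivity) ?_) hG.le
    refine le_trans ?_ (mul_le_mul_of_nonneg_left (Gamma_two_sub hr0.le hr1.le) (by positivity))
    rw [rpow_def_of_pos (by positivity), ← exp_add]
    refine one_le_exp ?_
    have h1 : log (3 / 2) + 1 / 7 ≤ log (((n : ℝ) + 2) / 4) := by
      have h2 := one_sub_inv_le_log_of_pos (x := 7 / 6) (by norm_num)
      have h3 : log (3 / 2 * (7 / 6)) ≤ log (((n : ℝ) + 2) / 4) :=
        log_le_log (by norm_num) (by linarith)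
      rw [log_mul (by norm_num) (by norm_num)] at h3
      linarith
    nlinarith
  refine big_C (by linarith) hq' (B0_of (by linarith) hD' ((AA_end hn).trans ?_)) k
  refine mul_le_mul_of_nonneg_left (sub_le_sub_left (exp_le_exp.2 (by nlinarith)) 2) ?_
  unfold AA
  positivity

theorem big_all (hq : 0 < q) (hq' : q < ((n : ℝ) + 1) / 2) (k : ℕ) : Big n q k := by
  rcases le_or_gt ((n : ℝ) / 2) q with h | h
  · exact big_B hq hq' h k
  rcases le_or_gt (2 * q + 2) n with h2 | h2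
  · exact big_A hq h2 k
  rcases le_or_gt 5 n with hn | hn
  · exact big_high hn (by linarith) h k
  interval_cases n <;> push_cast at h h2
  · linarith
  · exact big_one hq (by linarith) k
  · exact big_two hq (by linarith) k
  · exact big_three (by linarith) (by linarith) k
  · exact big_four (by linarith) (by linarith) k

theorem moment_le (hq : 0 < q) (hq' : q < ((n : ℝ) + 1) / 2) (l : List ℝ) (hA : 0 < ssq l) :
    NN n (Fq q) l ≤ ENNReal.ofReal (CC n q * ssq l ^ (-q)) := by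
  match l with
  | [] => exact absurd hA (lt_irrefl _)
  | a :: l => exact reduce hq hq' (big_all hq hq' l.length) _ rfl hA

end Pool.Agent.Lib.MP_237b21_an
end

-- part Pool.Agent.Lib.MP_237b21_an.Main
section

/-! The value of the best constant. -/

namespace Pool.Agent.Lib.MP_237b21_an

open MeasureTheory Set Real Filter
open scoped ENNReal Topology

lemma rpow_anti {x y : ℝ≥0∞} {z : ℝ} (hz : z ≤ 0) (h : x ≤ y) : y ^ z ≤ x ^ z := by
  rw [← neg_neg z, ENNReal.rpow_neg y, ENNReal.rpow_neg x, ENNReal.inv_le_inv]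
  exact ENNReal.rpow_le_rpow h (by linarith)

lemma mom_eq (n k : ℕ) (q : ℝ) (a : Fin k → ℝ) :
    mom (n + 2) k (-(2 * q)) a = NN n (Fq q) (List.ofFn a) := by
  rw [NN, ← lint_pi n k a (fun y => Fq q (‖y‖ ^ 2)) ((Fq_meas q).comp (by fun_prop)), mom]
  refine lintegral_congr fun x => ?_
  rw [Fq, ENNReal.ofReal_pow (norm_nonneg _), ofReal_norm, ← ENNReal.rpow_natCast,
    ← ENNReal.rpow_mul]
  congr 1
  push_cast; ring

lemma ssq_ofFn {k : ℕ} (a : Fin k → ℝ) : ssq (List.ofFn a) = ∑ j, a j ^ 2 := by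
  rw [ssq, List.map_ofFn, List.sum_ofFn]; rfl

lemma ratio_eq (X : ℝ≥0∞) {A q : ℝ} (hA : 0 < A) (hq : 0 < q) :
    X ^ (1 / -(2 * q)) / ENNReal.ofReal (sqrt A) = (X * ENNReal.ofReal (A ^ q)) ^ (1 / -(2 * q)) := by
  have h1 : (X * ENNReal.ofReal (A ^ q)) ^ (1 / -(2 * q)) =
      X ^ (1 / -(2 * q)) * ENNReal.ofReal (A ^ q) ^ (1 / -(2 * q)) := by
    rcases eq_or_ne X ⊤ with h | h
    · exact ENNReal.mul_rpow_of_ne_zero (by simp [h]) (by simpa using rpow_pos_of_pos hA q) _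
    · exact ENNReal.mul_rpow_of_ne_top h ENNReal.ofReal_ne_top _
  rw [h1, ENNReal.ofReal_rpow_of_pos (by positivity), ← rpow_mul hA.le, div_eq_mul_inv,
    ← ENNReal.ofReal_inv_of_pos (sqrt_pos.2 hA), sqrt_eq_rpow, ← rpow_neg hA.le]
  congr 3
  field_simp

theorem best_eq (n : ℕ) {q : ℝ} (hq : 0 < q) (hq' : q < ((n : ℝ) + 1) / 2) :
    best (n + 2) (-(2 * q)) = ENNReal.ofReal (CC n q) ^ (1 / -(2 * q)) := by
  have hp : -(2 * q) < 0 := by linarith
  have hp' : 1 / -(2 * q) ≤ 0 := (one_div_neg.2 hp).le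
  have hA : ∀ {k : ℕ} (a : Fin k → ℝ), a ≠ 0 → 0 < ∑ j, a j ^ 2 := fun a ha => by
    obtain ⟨j, hj⟩ := Function.ne_iff.1 ha
    exact Finset.sum_pos' (fun i _ => sq_nonneg _) ⟨j, Finset.mem_univ j, by
      have : a j ≠ 0 := hj
      positivity⟩
  refine le_antisymm ?_ ?_
  · have h1 : ∀ (k : ℕ) (a : Fin k → ℝ), 1 ≤ k → a ≠ 0 → NN n (Fq q) (List.ofFn a) *
        ENNReal.ofReal ((∑ j, a j ^ 2) ^ q) ≤ best (n + 2) (-(2 * q)) ^ (-(2 * q)) := by
      intro k a hk ha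
      have : best (n + 2) (-(2 * q)) ≤ _ := iInf_le_of_le k (iInf_le_of_le hk
        (iInf_le_of_le a (iInf_le _ ha)))
      rw [mom_eq, ratio_eq _ (hA a ha) hq] at this
      have h2 := rpow_anti hp.le this
      rwa [← ENNReal.rpow_mul, one_div_mul_cancel hp.ne, ENNReal.rpow_one] at h2
    have h3 : ∀ k : ℕ, 1 ≤ k → NN n (Fq q) (List.replicate k 1) *
        ENNReal.ofReal ((k : ℝ) ^ q) ≤ best (n + 2) (-(2 * q)) ^ (-(2 * q)) := fun k hk => by
      have := h1 k (fun _ => 1) hk (fun h => one_ne_zero (congrFun h ⟨0, hk⟩))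
      simpa [List.ofFn_const] using this
    have h2 : ENNReal.ofReal (CC n q) ≤ best (n + 2) (-(2 * q)) ^ (-(2 * q)) := by
      rw [CC, ENNReal.ofReal_max]
      refine max_le ?_ ((sharp_inf hq (by linarith)).trans (iSup_le fun i => h3 _ (by omega)))
      have := h3 2 one_le_two
      rwa [show List.replicate 2 (1 : ℝ) = [1, 1] from rfl, NN_pair, abs_one, psi_one hq',
        ← ENNReal.ofReal_mul (P1_pos hq').le, mul_comm, Nat.cast_ofNat] at this
    have := rpow_anti hp' h2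
    rwa [← ENNReal.rpow_mul, mul_one_div_cancel hp.ne, ENNReal.rpow_one] at this
  · refine le_iInf fun k => le_iInf fun _ => le_iInf fun a => le_iInf fun ha => ?_
    rw [mom_eq, ratio_eq _ (hA a ha) hq]
    refine rpow_anti hp' ?_
    have := moment_le hq hq' (List.ofFn a) (by rw [ssq_ofFn]; exact hA a ha)
    rw [ssq_ofFn] at this
    refine (mul_le_mul_left this _).trans (le_of_eq ?_)
    have h1 := hA a ha
    rw [← ENNReal.ofReal_mul (mul_pos (CC_pos hq') (by positivity)).le, mul_assoc, ← rpow_add h1]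
    simp

theorem main (m : ℕ) (hm : 2 ≤ m) (p : ℝ) (hp : -(m : ℝ) + 1 < p) (hp0 : p < 0) :
    best m p = ENNReal.ofReal (min (cTwo m p) (cInf m p)) := by
  obtain ⟨n, rfl⟩ : ∃ n, m = n + 2 := ⟨m - 2, by omega⟩
  obtain ⟨q, rfl⟩ : ∃ q, p = -(2 * q) := ⟨-p / 2, by ring⟩
  push_cast at hp
  have hq : 0 < q := by linarith
  have hq' : q < ((n : ℝ) + 1) / 2 := by linarith
  have hp' : 1 / -(2 * q) ≤ 0 := (one_div_neg.2 hp0).le
  have h1 : cTwo (n + 2) (-(2 * q)) = (2 ^ q * P1 n q) ^ (1 / -(2 * q)) := by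
    rw [cTwo, P1, show (4 : ℝ) = 2 ^ (2 : ℝ) by norm_num, ← rpow_mul zero_le_two, ← mul_assoc,
      ← rpow_add two_pos]
    push_cast
    rw [show ((n : ℝ) + 2 - 1 + -(2 * q)) / 2 = (n + 1) / 2 - q by ring,
      show (n : ℝ) + 2 - 1 + -(2 * q) / 2 = n + 1 - q by ring, show (n : ℝ) + 2 - 1 = n + 1 by ring,
      show -(2 * q) / 2 = q + 2 * -q by ring]
    congr 1
    ring
  have h2 : cInf (n + 2) (-(2 * q)) = CI n q ^ (1 / -(2 * q)) := by
    rw [cInf, CI]
    push_cast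
    rw [show ((n : ℝ) + 2 + -(2 * q)) / 2 = (n + 2) / 2 - q by ring, show - -(2 * q) / 2 = q by ring]
  have k1 : 0 < 2 ^ q * P1 n q := mul_pos (by positivity) (P1_pos hq')
  have k2 : 0 < CI n q := by
    have := Gamma_pos_of_pos (s := ((n : ℝ) + 2) / 2) (by positivity)
    have := Gamma_pos_of_pos (s := ((n : ℝ) + 2) / 2 - q) (by linarith)
    unfold CI; positivity
  rw [best_eq n hq hq', ENNReal.ofReal_rpow_of_pos (CC_pos hq'), h1, h2, CC]
  congr 1
  rcases le_total (2 ^ q * P1 n q) (CI n q) with h | h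
  · rw [max_eq_right h, min_eq_right (rpow_le_rpow_of_nonpos k1 h hp')]
  · rw [max_eq_left h, min_eq_left (rpow_le_rpow_of_nonpos k2 h hp')]

end Pool.Agent.Lib.MP_237b21_an
end
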