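import Pool.Agent.Lib.MP_237b21_an.CritHigh

-- part Pool.Agent.Lib.MP_237b21_an.Radial
section

/-! Spherical means of Riesz kernels. -/

namespace Pool.Agent.Lib.MP_237b21_an

open MeasureTheory Set Real
open scoped ENNReal Topology RealInnerProductSpace

/-- The squared distance. -/
noncomputable def DD (A B r α : ℝ) : ℝ := A + r ^ 2 + 2 * B * r * cos α

/-- The spherical mean. -/
noncomputable def KK (n : ℕ) (A B s r : ℝ) : ℝ :=
  ∫ α in (0 : ℝ)..π, DD A B r α ^ (-s) * sin α ^ n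

/-- Its derivative. -/
noncomputable def K1 (n : ℕ) (A B s r : ℝ) : ℝ :=
  ∫ α in (0 : ℝ)..π, -s * (2 * r + 2 * B * cos α) * DD A B r α ^ (-(s + 1)) * sin α ^ n

/-- Its Laplacian. -/
noncomputable def Lam (n : ℕ) (A B s r : ℝ) : ℝ :=
  2 * s * (2 * s - n) * KK n A B (s + 1) r - 4 * s * (s + 1) * (A - B ^ 2) * KK n A B (s + 1 + 1) r

/-- The domain. -/
def UU (A B : ℝ) : Set ℝ := {r | 2 * |B| * |r| < A + r ^ 2}

lemma UU_open (A B : ℝ) : IsOpen (UU A B) := isOpen_lt (by fun_prop) (by fun_prop)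

variable {n : ℕ} {A B r : ℝ}

lemma DD_pos (hr : r ∈ UU A B) (α : ℝ) : 0 < DD A B r α := by
  have h1 : |2 * B * r * cos α| ≤ 2 * |B| * |r| := by
    rw [abs_mul, abs_mul, abs_mul, abs_two]
    exact mul_le_of_le_one_right (by positivity) (abs_cos_le_one α)
  have h2 : 2 * |B| * |r| < A + r ^ 2 := hr
  have := (abs_le.1 h1).1
  unfold DD; linarith

lemma cont_D (hr : r ∈ UU A B) (s : ℝ) : Continuous fun α => DD A B r α ^ s :=
  Continuous.rpow_const (by unfold DD; fun_prop) fun α => Or.inl (DD_pos hr α).ne'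

lemma contOn_D (A B s : ℝ) :
    ContinuousOn (fun p : ℝ × ℝ => DD A B p.1 p.2 ^ s) (UU A B ×ˢ univ) :=
  ContinuousOn.rpow_const (Continuous.continuousOn (by unfold DD; fun_prop))
    fun p hp => Or.inl (DD_pos hp.1 p.2).ne'

lemma hasDerivAt_D (hr : r ∈ UU A B) (s α : ℝ) : HasDerivAt (fun r => DD A B r α ^ (-s))
    (-s * (2 * r + 2 * B * cos α) * DD A B r α ^ (-(s + 1))) r := by
  have h : HasDerivAt (fun r => DD A B r α) (2 * r + 2 * B * cos α) r :=
    (((hasDerivAt_pow 2 r).const_add A).add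
      (((hasDerivAt_id r).const_mul (2 * B)).mul_const (cos α))).congr_deriv (by push_cast; ring)
  refine (h.rpow_const (p := -s) (Or.inl (DD_pos hr α).ne')).congr_deriv ?_
  rw [show -(s + 1) = -s - 1 by ring]; ring

lemma D_succ (hr : r ∈ UU A B) (s α : ℝ) :
    DD A B r α ^ (-s) = DD A B r α * DD A B r α ^ (-(s + 1)) := by
  rw [mul_comm, ← rpow_add_one (DD_pos hr α).ne']; congr 1; ring

lemma KK_nonneg (hr : r ∈ UU A B) (s : ℝ) : 0 ≤ KK n A B s r :=
  intervalIntegral.integral_nonneg pi_pos.le fun α hα =>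
    mul_nonneg (rpow_nonneg (DD_pos hr α).le _) (pow_nonneg (sin_nonneg_of_mem_Icc hα) _)

lemma hasDerivAt_KK (hr : r ∈ UU A B) (s : ℝ) : HasDerivAt (KK n A B s) (K1 n A B s r) r := by
  refine hasDerivAt_param (F := fun r α => DD A B r α ^ (-s) * sin α ^ n)
    (F' := fun r α => -s * (2 * r + 2 * B * cos α) * DD A B r α ^ (-(s + 1)) * sin α ^ n)
    (UU_open A B) (fun r hr => (cont_D hr _).mul (by fun_prop))
    (((Continuous.continuousOn (by fun_prop)).mul (contOn_D A B _)).mul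
      (Continuous.continuousOn (by fun_prop))) (fun r hr α => (hasDerivAt_D hr s α).mul_const _) hr

lemma hasDerivAt_K1 (hr : r ∈ UU A B) (s : ℝ) : ∃ k2, HasDerivAt (K1 n A B s) k2 r ∧
    r * k2 + (n + 1) * K1 n A B s r = r * Lam n A B s r := by
  have h := hasDerivAt_param
    (F := fun r α => -s * (2 * r + 2 * B * cos α) * DD A B r α ^ (-(s + 1)) * sin α ^ n)
    (F' := fun r α => (-s * 2 * DD A B r α ^ (-(s + 1)) + -s * (2 * r + 2 * B * cos α) *
      (-(s + 1) * (2 * r + 2 * B * cos α) * DD A B r α ^ (-(s + 1 + 1)))) * sin α ^ n)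
    (UU_open A B) (fun r hr => (Continuous.mul (by fun_prop) (cont_D hr _)).mul (by fun_prop))
    (((continuousOn_const.mul (contOn_D A B _)).add ((Continuous.continuousOn (by fun_prop)).mul
      ((Continuous.continuousOn (by fun_prop)).mul (contOn_D A B _)))).mul
      (Continuous.continuousOn (by fun_prop)))
    (fun r hr α => ((((((hasDerivAt_id r).const_mul 2).add_const (2 * B * cos α)).const_mul
      (-s)).mul (hasDerivAt_D hr (s + 1) α)).mul_const _).congr_deriv (by simp)) hr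
  refine ⟨_, h, ?_⟩
  have c1 := cont_D hr (-(s + 1))
  have c2 := cont_D hr (-(s + 1 + 1))
  have hex := int_exact (g := fun α => 2 * s * B * sin α ^ (n + 1) * DD A B r α ^ (-(s + 1)))
    (g' := fun α => 2 * s * B * (n + 1) * cos α * sin α ^ n * DD A B r α ^ (-(s + 1)) +
      4 * s * (s + 1) * B ^ 2 * r * sin α ^ (n + 2) * DD A B r α ^ (-(s + 1 + 1)))
    (fun α => by
      have h1 : HasDerivAt (fun α => DD A B r α) (-(2 * B * r * sin α)) α :=
        (((hasDerivAt_cos α).const_mul (2 * B * r)).const_add (A + r ^ 2)).congr_deriv (by ring)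
      refine ((((hasDerivAt_sin α).pow (n + 1)).const_mul (2 * s * B)).mul
        (h1.rpow_const (p := -(s + 1)) (Or.inl (DD_pos hr α).ne'))).congr_deriv ?_
      rw [show -(s + 1 + 1) = -(s + 1) - 1 by ring]
      simp only [Pi.pow_apply, Nat.add_sub_cancel]
      push_cast
      ring) (by fun_prop) (by simp) (by simp)
  have e : r * Lam n A B s r = (r * (2 * s * (2 * s - n))) * KK n A B (s + 1) r +
      (-(r * (4 * s * (s + 1) * (A - B ^ 2)))) * KK n A B (s + 1 + 1) r := by rw [Lam]; ring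
  rw [K1, ← int_lin _ _ (by fun_prop) (by fun_prop), e, KK, KK,
    ← int_lin _ _ (by fun_prop) (by fun_prop), ← sub_eq_zero, ← neg_eq_zero,
    neg_sub, ← intervalIntegral.integral_sub (Continuous.intervalIntegrable (by fun_prop) _ _)
      (Continuous.intervalIntegrable (by fun_prop) _ _)]
  refine Eq.trans (intervalIntegral.integral_congr fun α _ => ?_) hex
  rw [D_succ hr (s + 1) α]
  generalize DD A B r α ^ (-(s + 1 + 1)) = P
  rw [DD, pow_add, sin_sq]
  ring

lemma hasDerivAt_pow_K1 (hr : r ∈ UU A B) (s : ℝ) :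
    HasDerivAt (fun r => r ^ (n + 1) * K1 n A B s r) (r ^ (n + 1) * Lam n A B s r) r := by
  obtain ⟨k2, h1, h2⟩ := hasDerivAt_K1 (n := n) hr s
  refine ((hasDerivAt_pow (n + 1) r).mul h1).congr_deriv ?_
  simp only [Nat.add_sub_cancel]
  push_cast
  linear_combination r ^ n * h2

lemma K1_one (hr : r ∈ UU 1 1) (s : ℝ) :
    r * K1 n 1 1 s r = -s * KK n 1 1 s r + s * (1 - r ^ 2) * KK n 1 1 (s + 1) r := by
  have c0 := cont_D hr (-s)
  have c1 := cont_D hr (-(s + 1))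
  rw [KK, KK, ← int_lin _ _ (by fun_prop) (by fun_prop), K1, ← intervalIntegral.integral_const_mul]
  refine intervalIntegral.integral_congr fun α _ => ?_
  rw [D_succ hr s α]
  generalize DD 1 1 r α ^ (-(s + 1)) = P
  rw [DD]
  ring

lemma mem_UU_reg (h : B ^ 2 < A) (r : ℝ) : r ∈ UU A B := by
  have := sq_nonneg (|B| - |r|)
  have h1 := sq_abs B
  have h2 := sq_abs r
  rw [UU, mem_ofPred_eq]
  nlinarith

lemma mem_UU_one (h0 : 0 ≤ r) (h1 : r < 1) : r ∈ UU 1 1 := by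
  rw [UU, mem_ofPred_eq, abs_one, abs_of_nonneg h0]
  nlinarith

theorem tangent_reg (h : B ^ 2 < A) {q : ℝ} (hq : 0 ≤ q) (hqn : 2 * q + 2 ≤ n) {a : ℝ}
    (ha : 0 < a) {r : ℝ} (hr : 0 ≤ r) :
    KK n A B q a + K1 n A B q a / (2 * a) * (r ^ 2 - a ^ 2) ≤ KK n A B q r := by
  have hU := mem_UU_reg h
  have h1 : ∀ r, 0 ≤ r → 0 ≤ r ^ (n + 1) * (2 * q * (2 * q - n) * K1 n A B (q + 1) r -
      4 * q * (q + 1) * (A - B ^ 2) * K1 n A B (q + 1 + 1) r) := by
    intro r hr
    have := le_of_deriv_nonneg hr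
      (f := fun r => 2 * q * (2 * q - n) * (r ^ (n + 1) * K1 n A B (q + 1) r) -
        4 * q * (q + 1) * (A - B ^ 2) * (r ^ (n + 1) * K1 n A B (q + 1 + 1) r))
      (fun t _ => ((hasDerivAt_pow_K1 (hU t) (q + 1)).const_mul _).sub
        ((hasDerivAt_pow_K1 (hU t) (q + 1 + 1)).const_mul _)) (fun t ht => ?_)
    · simp only [ne_eq, Nat.add_eq_zero_iff, one_ne_zero, and_false, not_false_eq_true, zero_pow,
        zero_mul, mul_zero, sub_self] at this
      linarith
    have k2 := KK_nonneg (n := n) (hU t) (q + 1 + 1)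
    have k3 := KK_nonneg (n := n) (hU t) (q + 1 + 1 + 1)
    have k4 := KK_nonneg (n := n) (hU t) (q + 1 + 1 + 1 + 1)
    have he : 0 < A - B ^ 2 := by linarith
    have hb : 0 ≤ n - (2 * q + 2) := by linarith
    have ht0 := ht.1
    have e : 2 * q * (2 * q - n) * (t ^ (n + 1) * Lam n A B (q + 1) t) -
        4 * q * (q + 1) * (A - B ^ 2) * (t ^ (n + 1) * Lam n A B (q + 1 + 1) t) =
        4 * q * (q + 1) * t ^ (n + 1) * ((n - (2 * q + 2) + 2) * (n - (2 * q + 2)) *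
          KK n A B (q + 1 + 1) t + 4 * (q + 2) * (n - (2 * q + 2)) * (A - B ^ 2) *
          KK n A B (q + 1 + 1 + 1) t + 4 * (q + 2) * (q + 3) * (A - B ^ 2) ^ 2 *
          KK n A B (q + 1 + 1 + 1 + 1) t) := by
      rw [Lam, Lam]; ring
    rw [e]
    positivity
  have h2 : ∀ r, 0 < r → (n + 2) * K1 n A B q r ≤ r * Lam n A B q r := by
    intro r hr
    have := le_of_deriv_nonneg hr.le
      (f := fun r => r ^ (n + 2) * Lam n A B q r - (n + 2) * (r ^ (n + 1) * K1 n A B q r))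
      (f' := fun r => r * (r ^ (n + 1) * (2 * q * (2 * q - n) * K1 n A B (q + 1) r -
        4 * q * (q + 1) * (A - B ^ 2) * K1 n A B (q + 1 + 1) r)))
      (fun t _ => (((hasDerivAt_pow (n + 2) t).mul (((hasDerivAt_KK (hU t) (q + 1)).const_mul _).sub
        ((hasDerivAt_KK (hU t) (q + 1 + 1)).const_mul _))).sub
        ((hasDerivAt_pow_K1 (hU t) q).const_mul _)).congr_deriv (by
          simp only [Pi.sub_apply, Lam, show n + 2 - 1 = n + 1 from rfl]
          push_cast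
          ring)) (fun t ht => mul_nonneg ht.1.le (h1 t ht.1.le))
    simp only [ne_eq, Nat.add_eq_zero_iff, one_ne_zero, and_false, not_false_eq_true, zero_pow,
      zero_mul, mul_zero, sub_self, OfNat.ofNat_ne_zero] at this
    have h3 : 0 < r ^ (n + 1) := by positivity
    have : r ^ (n + 1) * ((n + 2) * K1 n A B q r) ≤ r ^ (n + 1) * (r * Lam n A B q r) := by
      rw [pow_succ r (n + 1)] at this
      linarith
    exact le_of_mul_le_mul_left this h3
  have h3 : ∀ x y, 0 < x → x ≤ y → K1 n A B q x / x ≤ K1 n A B q y / y := by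
    intro x y hx hxy
    choose k2 hk2 hk2' using fun t => hasDerivAt_K1 (n := n) (hU t) q
    refine le_of_deriv_nonneg hxy (f := fun t => K1 n A B q t / t)
      (fun t ht => (hk2 t).div (hasDerivAt_id t) (hx.trans_le ht.1).ne') (fun t ht => ?_)
    have := h2 t (hx.trans ht.1)
    have := hk2' t
    exact div_nonneg (by linarith) (sq_nonneg _)
  have hd : ∀ t, HasDerivAt (fun t => KK n A B q t - K1 n A B q a / (2 * a) * t ^ 2)
      (K1 n A B q t - K1 n A B q a / a * t) t := fun t =>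
    ((hasDerivAt_KK (hU t) q).sub ((hasDerivAt_pow 2 t).const_mul _)).congr_deriv
      (by push_cast; field_simp)
  rcases le_total r a with h4 | h4
  · have := le_of_deriv_nonpos h4 (fun t _ => hd t) (fun t ht => by
      have ht0 := hr.trans_lt ht.1
      have := h3 t a ht0 ht.2.le
      rw [div_le_iff₀ ht0] at this
      linarith)
    linarith
  · have := le_of_deriv_nonneg h4 (fun t _ => hd t) (fun t ht => by
      have ht0 := ha.trans ht.1
      have := h3 a t ha ht.1.le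
      rw [le_div_iff₀ ht0] at this
      linarith)
    linarith

end Pool.Agent.Lib.MP_237b21_an
end

-- part Pool.Agent.Lib.MP_237b21_an.Compare
section

/-! The two-summand function and comparison with explicit functions. -/

namespace Pool.Agent.Lib.MP_237b21_an

open MeasureTheory Set Real Filter
open scoped ENNReal Topology RealInnerProductSpace

variable {n : ℕ}

lemma lint_ang_cont (n : ℕ) {f : ℝ → ℝ} (hf : Continuous f) (h0 : ∀ α, 0 ≤ f α) :
    ∫⁻ α, ENNReal.ofReal (f α) ∂ang n =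
      ENNReal.ofReal ((∫ α in (0 : ℝ)..π, f α * sin α ^ n) / W n) := by
  rw [lint_ang n _ (by fun_prop), intervalIntegral.integral_of_le pi_pos.le,
    integral_Ioc_eq_integral_Ioo, ENNReal.ofReal_div_of_pos (W_pos n), ENNReal.div_eq_inv_mul,
    ofReal_integral_eq_lintegral_ofReal
      ((Continuous.integrableOn_Icc (by fun_prop)).mono_set Ioo_subset_Icc_self)
      (ae_restrict_of_forall_mem measurableSet_Ioo fun α hα =>
        mul_nonneg (h0 α) (pow_nonneg (sin_pos_of_mem_Ioo hα).le _))]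
  congr 1
  refine setLIntegral_congr_fun measurableSet_Ioo fun α hα => ?_
  rw [← ENNReal.ofReal_mul (pow_nonneg (sin_pos_of_mem_Ioo hα).le _), mul_comm]

lemma NN_cons_ang {F : ℝ → ℝ≥0∞} (hF : Measurable F) (a : ℝ) (l : List ℝ) :
    NN n F (a :: l) =
      ∫⁻ y, ∫⁻ α, F (a ^ 2 + ‖y‖ ^ 2 + 2 * a * ‖y‖ * cos α) ∂ang n ∂law n l := by
  rw [NN, lint_law_cons n a l _ (by fun_prop), lintegral_lintegral_swap (by fun_prop)]
  refine lintegral_congr fun y => ?_
  obtain ⟨e, he, hy⟩ : ∃ e : V n, ‖e‖ = 1 ∧ y = ‖y‖ • e := by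
    rcases eq_or_ne y 0 with h | h
    · exact ⟨e0 n, norm_e0 n, by simp [h]⟩
    · exact ⟨‖y‖⁻¹ • y, norm_smul_inv_norm h, by
        rw [smul_smul, mul_inv_cancel₀ (norm_ne_zero_iff.2 h), one_smul]⟩
  rw [← lint_inner n e he (fun θ => F (a ^ 2 + ‖y‖ ^ 2 + 2 * a * ‖y‖ * θ)) (by fun_prop)]
  refine lintegral_congr_ae ?_
  filter_upwards [sv_norm n] with x hx
  have : ⟪x, y⟫ = ‖y‖ * ⟪e, x⟫ := by
    conv_lhs => rw [hy]
    rw [inner_smul_right, real_inner_comm]
  rw [norm_add_sq_real, norm_smul, hx, inner_smul_left, this]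
  simp only [mul_one, norm_eq_abs, sq_abs, conj_trivial]
  congr 1
  ring

/-- The two-summand function. -/
noncomputable def psi (n : ℕ) (q r : ℝ) : ℝ≥0∞ := ∫⁻ α, Fq q (1 + r ^ 2 + 2 * r * cos α) ∂ang n

lemma psi_meas (n : ℕ) (q : ℝ) : Measurable (psi n q) :=
  Measurable.lintegral_prod_right' (f := fun p : ℝ × ℝ => Fq q (1 + p.1 ^ 2 + 2 * p.1 * cos p.2))
    ((Fq_meas q).comp (by fun_prop))

lemma NN_one_cons (q : ℝ) (l : List ℝ) :
    NN n (Fq q) (1 :: l) = NN n (fun ρ => psi n q (sqrt ρ)) l := by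
  rw [NN_cons_ang (Fq_meas q), NN]
  simp only [psi, one_pow, mul_one, sqrt_sq (norm_nonneg _)]

lemma NN_pair (q a : ℝ) : NN n (Fq q) [1, a] = psi n q |a| := by
  rw [NN_one_cons, NN_single (F := fun ρ => psi n q (sqrt ρ))
    ((psi_meas n q).comp (by fun_prop)), sqrt_sq_eq_abs]

lemma psi_eq (q : ℝ) {r : ℝ} (h0 : 0 ≤ r) (h1 : r < 1) :
    psi n q r = ENNReal.ofReal (KK n 1 1 q r / W n) := by
  have hr := mem_UU_one h0 h1
  rw [KK, ← lint_ang_cont n (cont_D hr _) fun α => rpow_nonneg (DD_pos hr α).le _, psi]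
  refine lintegral_congr fun α => ?_
  rw [← Fq_pos q (DD_pos hr α), DD, mul_one]

lemma Fq_mul {q : ℝ} {c ρ : ℝ} (hc : 0 < c) :
    Fq q (c * ρ) = ENNReal.ofReal (c ^ (-q)) * Fq q ρ := by
  rw [Fq, Fq, ENNReal.ofReal_mul hc.le, ENNReal.mul_rpow_of_ne_top ENNReal.ofReal_ne_top
    ENNReal.ofReal_ne_top, ENNReal.ofReal_rpow_of_pos hc]

lemma Fq_anti {q : ℝ} (hq : 0 ≤ q) {x y : ℝ} (h : x ≤ y) : Fq q y ≤ Fq q x := by
  rw [Fq, Fq, ENNReal.rpow_neg, ENNReal.rpow_neg, ENNReal.inv_le_inv]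
  exact ENNReal.rpow_le_rpow (ENNReal.ofReal_le_ofReal h) hq

lemma psi_inv (q : ℝ) {r : ℝ} (hr : 0 < r) :
    psi n q r = ENNReal.ofReal ((r ^ 2) ^ (-q)) * psi n q r⁻¹ := by
  rw [psi, psi, ← lintegral_const_mul (f := fun α => Fq q (1 + r⁻¹ ^ 2 + 2 * r⁻¹ * cos α)) _
    ((Fq_meas q).comp (by fun_prop))]
  refine lintegral_congr fun α => ?_
  rw [← Fq_mul (by positivity)]
  congr 1
  field_simp
  ring

lemma psi_le_one {q : ℝ} (hq : 0 ≤ q) {r : ℝ} (hr : 0 < r) :
    psi n q r ≤ ENNReal.ofReal (r ^ (-q)) * psi n q 1 := by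
  rw [psi, psi, ← lintegral_const_mul (f := fun α => Fq q (1 + 1 ^ 2 + 2 * 1 * cos α)) _
    ((Fq_meas q).comp (by fun_prop))]
  refine lintegral_mono fun α => ?_
  rw [← Fq_mul hr]
  exact Fq_anti hq (by nlinarith [sq_nonneg (r - 1)])

lemma KK_zero (q : ℝ) : KK n 1 1 q 0 = W n := by simp [KK, DD, W]

theorem compare {q b : ℝ} (hq : 0 < q) (hb : b = q - n / 2) {f f' f'' : ℝ → ℝ}
    (hf : ∀ y ∈ Icc (0 : ℝ) 1, HasDerivAt f (f' y) y)
    (hf' : ∀ y ∈ Icc (0 : ℝ) 1, HasDerivAt f' (f'' y) y) (hp : ∀ y ∈ Icc (0 : ℝ) 1, 0 < f y)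
    {Lf : ℝ → ℝ} (hL : ∀ y, Lf y = y * (1 - y) * f'' y +
      ((n + 2) / 2 * (1 - y) - 2 * b * y) * f' y - b * q * f y)
    (hcross : ∀ x y, 0 < x → x ≤ y → y < 1 → Lf x < 0 → Lf y ≤ 0)
    (h0 : 1 ≤ f 0 ∨ ∀ y ∈ Ioo (0 : ℝ) 1, Lf y ≤ 0)
    (h1 : psi n q 1 ≤ ENNReal.ofReal (f 1) ∨ ∀ y ∈ Ioo (0 : ℝ) 1, 0 ≤ Lf y)
    (h01 : 1 ≤ f 0 ∨ psi n q 1 ≤ ENNReal.ofReal (f 1))
    {r : ℝ} (hr0 : 0 ≤ r) (hr1 : r < 1) : psi n q r ≤ ENNReal.ofReal (f (r ^ 2)) := by
  have hsq : ∀ t, 0 ≤ t → t ≤ 1 → t ^ 2 ∈ Icc (0 : ℝ) 1 := fun t h0 h1 =>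
    ⟨sq_nonneg t, pow_le_one₀ h0 h1⟩
  have hF : ∀ t, 0 ≤ t → t ≤ 1 → HasDerivAt (fun t => f (t ^ 2)) (2 * t * f' (t ^ 2)) t :=
    fun t h0 h1 => (HasDerivAt.comp (h := fun x : ℝ => x ^ 2) t (hf _ (hsq t h0 h1))
      (hasDerivAt_pow 2 t)).congr_deriv (by push_cast; ring)
  have hF' : ∀ t, 0 ≤ t → t ≤ 1 → HasDerivAt (fun t => f' (t ^ 2)) (2 * t * f'' (t ^ 2)) t :=
    fun t h0 h1 => (HasDerivAt.comp (h := fun x : ℝ => x ^ 2) t (hf' _ (hsq t h0 h1))
      (hasDerivAt_pow 2 t)).congr_deriv (by push_cast; ring)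
  obtain ⟨Wr, hWr⟩ : ∃ Wr : ℝ → ℝ, Wr = fun t => (1 - t ^ 2) ^ (2 * b) *
    (t ^ (n + 1) * K1 n 1 1 q t * f (t ^ 2) - KK n 1 1 q t * (2 * t ^ (n + 2) * f' (t ^ 2))) :=
    ⟨_, rfl⟩
  have hW : ∀ t, 0 ≤ t → t < 1 → HasDerivAt Wr (-(4 * (1 - t ^ 2) ^ (2 * b - 1) * t ^ (n + 1) *
      KK n 1 1 q t * Lf (t ^ 2))) t := fun t h0 h1 => by
    have hU := mem_UU_one h0 h1
    have h2 : 0 < 1 - t ^ 2 := by nlinarith
    rw [hWr]
    refine ((((hasDerivAt_pow 2 t).const_sub 1).rpow_const (p := 2 * b) (Or.inl h2.ne')).mul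
      (((hasDerivAt_pow_K1 hU q).mul (hF t h0 h1.le)).sub ((hasDerivAt_KK hU q).mul
      (((hasDerivAt_pow (n + 2) t).const_mul 2).mul (hF' t h0 h1.le))))).congr_deriv ?_
    have h3 := K1_one (n := n) hU q
    have h4 : (1 - t ^ 2) ^ (2 * b) = (1 - t ^ 2) ^ (2 * b - 1) * (1 - t ^ 2) := by
      rw [← rpow_add_one h2.ne']; congr 1; ring
    simp only [Pi.sub_apply, Pi.mul_apply, hL, Lam, h4, show n + 2 - 1 = n + 1 from rfl]
    push_cast
    rw [hb]
    generalize (1 - t ^ 2) ^ (2 * (q - n / 2) - 1) = P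
    linear_combination (-(P * t ^ (n + 1) * f (t ^ 2) * 4 * (q - n / 2))) * h3
  have hW0 : Wr 0 = 0 := by simp [hWr]
  have hR : ∀ t, 0 ≤ t → t < 1 → HasDerivAt (fun t => KK n 1 1 q t / f (t ^ 2))
      ((K1 n 1 1 q t * f (t ^ 2) - KK n 1 1 q t * (2 * t * f' (t ^ 2))) / f (t ^ 2) ^ 2) t :=
    fun t h0 h1 => (hasDerivAt_KK (mem_UU_one h0 h1) q).div (hF t h0 h1.le)
      (hp _ (hsq t h0 h1.le)).ne'
  have hWe : ∀ t, Wr t = (1 - t ^ 2) ^ (2 * b) * t ^ (n + 1) *
      (K1 n 1 1 q t * f (t ^ 2) - KK n 1 1 q t * (2 * t * f' (t ^ 2))) := fun t => by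
    rw [hWr]; ring
  have hc : ∀ t : ℝ, 0 < t → t < 1 → 0 < (1 - t ^ 2) ^ (2 * b) * t ^ (n + 1) := fun t h0 h1 => by
    have h2 : 0 < 1 - t ^ 2 := by nlinarith
    positivity
  have hc' : ∀ t, 0 < t → t < 1 →
      0 ≤ 4 * (1 - t ^ 2) ^ (2 * b - 1) * t ^ (n + 1) * KK n 1 1 q t := fun t h0 h1 => by
    have h2 : 0 < 1 - t ^ 2 := by nlinarith
    have := KK_nonneg (n := n) (mem_UU_one h0.le h1) q
    positivity
  have hsq' : ∀ t, 0 < t → t < 1 → t ^ 2 ∈ Ioo (0 : ℝ) 1 := fun t h0 h1 =>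
    ⟨by positivity, by nlinarith⟩
  have up : ∀ t, 0 ≤ t → (∀ y ∈ Ioo (t ^ 2) 1, Lf y ≤ 0) → ∀ u, t ≤ u → u < 1 → Wr t ≤ Wr u :=
    fun t ht h u htu hu => le_of_deriv_nonneg htu
      (fun x hx => hW x (ht.trans hx.1) (hx.2.trans_lt hu)) (fun x hx => neg_nonneg.2
        (mul_nonpos_of_nonneg_of_nonpos (hc' x (ht.trans_lt hx.1) (hx.2.trans hu))
          (h _ ⟨pow_lt_pow_left₀ hx.1 ht two_ne_zero, (hsq' x (ht.trans_lt hx.1)
            (hx.2.trans hu)).2⟩)))
  have dn : ∀ u, 0 ≤ u → u < 1 → (∀ y ∈ Ioo (0 : ℝ) (u ^ 2), 0 ≤ Lf y) → Wr u ≤ 0 :=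
    fun u hu0 hu h => hW0 ▸ le_of_deriv_nonpos hu0
      (fun x hx => hW x hx.1 (hx.2.trans_lt hu)) (fun x hx => neg_nonpos.2
        (mul_nonneg (hc' x hx.1 (hx.2.trans hu))
          (h _ ⟨pow_pos hx.1 2, pow_lt_pow_left₀ hx.2 hx.1.le two_ne_zero⟩)))
  have key : ∀ t, 0 ≤ t → t < 1 → 0 < Wr t → ∀ y ∈ Ioo (t ^ 2) 1, Lf y ≤ 0 := fun t h0 h1 ht => by
    by_contra hcon
    refine absurd (dn t h0 h1 fun y hy => ?_) (not_le.2 ht)
    by_contra h2
    exact hcon fun z hz => hcross y z hy.1 (hy.2.trans hz.1).le hz.2 (not_le.1 h2)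
  have hfr := hp _ (hsq r hr0 hr1.le)
  have low : 1 ≤ f 0 → (∀ t ∈ Ioo 0 r, Wr t ≤ 0) → psi n q r ≤ ENNReal.ofReal (f (r ^ 2)) := by
    intro h2 h3
    have := le_of_deriv_nonpos hr0 (fun t ht => hR t ht.1 (ht.2.trans_lt hr1)) (fun t ht => by
      have h4 := h3 t ht
      rw [hWe] at h4
      exact div_nonpos_of_nonpos_of_nonneg
        (nonpos_of_mul_nonpos_right h4 (hc t ht.1 (ht.2.trans hr1))) (sq_nonneg _))
    simp only [KK_zero, ne_eq, OfNat.ofNat_ne_zero, not_false_eq_true, zero_pow] at this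
    rw [psi_eq q hr0 hr1]
    refine ENNReal.ofReal_le_ofReal ?_
    rw [div_le_iff₀ (W_pos n), ← div_le_iff₀' hfr]
    exact this.trans (div_le_self (W_pos n).le h2)
  have high : psi n q 1 ≤ ENNReal.ofReal (f 1) → (∀ t ∈ Ioo r 1, 0 ≤ Wr t) →
      psi n q r ≤ ENNReal.ofReal (f (r ^ 2)) := by
    intro h2 h3
    have h4 : ∀ u ∈ Ioo r 1, KK n 1 1 q r / f (r ^ 2) ≤ W n * (u ^ (-q) * f 1) / f (u ^ 2) := by
      intro u hu
      have hu0 := hr0.trans_lt hu.1
      have := le_of_deriv_nonneg hu.1.le (fun t ht => hR t (hr0.trans ht.1) (ht.2.trans_lt hu.2))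
        (fun t ht => by
          have h4 := h3 t ⟨ht.1, ht.2.trans hu.2⟩
          rw [hWe] at h4
          exact div_nonneg (nonneg_of_mul_nonneg_right h4
            (hc t (hr0.trans_lt ht.1) (ht.2.trans hu.2))) (sq_nonneg _))
      refine this.trans (div_le_div_of_nonneg_right ?_ (hp _ (hsq u hu0.le hu.2.le)).le)
      have h5 := (psi_le_one (n := n) hq.le hu0).trans (mul_le_mul_right h2 _)
      have h6 := hp 1 ⟨zero_le_one, le_rfl⟩
      rwa [psi_eq q hu0.le hu.2, ← ENNReal.ofReal_mul (by positivity),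
        ENNReal.ofReal_le_ofReal_iff (by positivity), div_le_iff₀' (W_pos n)] at h5
    have h5 : ContinuousAt (fun u : ℝ => W n * (u ^ (-q) * f 1) / f (u ^ 2)) 1 :=
      (continuousAt_const.mul ((continuousAt_rpow_const 1 (-q) (Or.inl one_ne_zero)).mul
        continuousAt_const)).div (hF 1 zero_le_one le_rfl).continuousAt
        (by simpa using (hp 1 ⟨zero_le_one, le_rfl⟩).ne')
    have h6 := ge_of_tendsto (h5.tendsto.mono_left (nhdsWithin_le_nhds (s := Iio 1)))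
      (eventually_of_mem (Ioo_mem_nhdsLT hr1) h4)
    simp only [one_rpow, one_mul, one_pow] at h6
    rw [mul_div_cancel_right₀ _ (hp 1 ⟨zero_le_one, le_rfl⟩).ne'] at h6
    rw [psi_eq q hr0 hr1]
    refine ENNReal.ofReal_le_ofReal ?_
    rwa [div_le_iff₀ (W_pos n), ← div_le_iff₀' hfr]
  have all_up : (∀ y ∈ Ioo (0 : ℝ) 1, Lf y ≤ 0) → ∀ t ∈ Ioo r 1, 0 ≤ Wr t := fun h t ht =>
    hW0 ▸ up 0 le_rfl (by simpa using h) t (hr0.trans ht.1.le) ht.2
  have all_dn : (∀ y ∈ Ioo (0 : ℝ) 1, 0 ≤ Lf y) → ∀ t ∈ Ioo 0 r, Wr t ≤ 0 := fun h t ht =>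
    dn t ht.1.le (ht.2.trans hr1) fun y hy =>
      h y ⟨hy.1, hy.2.trans (hsq' t ht.1 (ht.2.trans hr1)).2⟩
  rcases h0 with h0 | h0
  · rcases h1 with h1 | h1
    · rcases lt_or_ge 0 (Wr r) with h | h
      · exact high h1 fun t ht => h.le.trans (up r hr0 (key r hr0 hr1 h) t ht.1.le ht.2)
      · refine low h0 fun t ht => not_lt.1 fun h2 => ?_
        exact absurd (up t ht.1.le (key t ht.1.le (ht.2.trans hr1) h2) r ht.2.le hr1)
          (not_le.2 (h.trans_lt h2))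
    · exact low h0 (all_dn h1)
  · rcases h01 with h2 | h2
    · rcases h1 with h1 | h1
      · exact high h1 (all_up h0)
      · exact low h2 (all_dn h1)
    · exact high h2 (all_up h0)

theorem split_reg {q ε : ℝ} (hq : 0 ≤ q) (hqn : 2 * q + 2 ≤ n) (hε : 0 < ε) {a : ℝ} (ha : 0 < a)
    (l : List ℝ) : NN n (fun ρ => Fq q (ε + ρ)) (a :: l) ≤
      NN n (fun ρ => Fq q (ε + ρ)) (a / sqrt 2 :: a / sqrt 2 :: l) := by
  have hF : Measurable fun ρ => Fq q (ε + ρ) := (Fq_meas q).comp (by fun_prop)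
  have hW := W_pos n
  have hN : ∀ c, NN n (fun ρ => Fq q (ε + ρ)) (c :: l) =
      ∫⁻ y, ENNReal.ofReal (KK n (ε + ‖y‖ ^ 2) ‖y‖ q c / W n) ∂law n l := fun c => by
    rw [NN_cons_ang hF]
    refine lintegral_congr fun y => ?_
    have hr := mem_UU_reg (A := ε + ‖y‖ ^ 2) (B := ‖y‖) (by linarith) c
    rw [KK, ← lint_ang_cont n (cont_D hr _) fun α => rpow_nonneg (DD_pos hr α).le _]
    refine lintegral_congr fun α => ?_
    rw [← Fq_pos q (DD_pos hr α), DD]
    congr 1; ring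
  have hm : ∀ c, Measurable fun y : V n => ENNReal.ofReal (KK n (ε + ‖y‖ ^ 2) ‖y‖ q c / W n) := by
    intro c
    have : (fun y : V n => ENNReal.ofReal (KK n (ε + ‖y‖ ^ 2) ‖y‖ q c / W n)) =
        fun y => ∫⁻ α, Fq q (DD (ε + ‖y‖ ^ 2) ‖y‖ c α) ∂ang n := by
      ext y
      have hr := mem_UU_reg (A := ε + ‖y‖ ^ 2) (B := ‖y‖) (by linarith) c
      rw [KK, ← lint_ang_cont n (cont_D hr _) fun α => rpow_nonneg (DD_pos hr α).le _]
      simp only [Fq_pos q (DD_pos hr _)]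
    rw [this]
    exact Measurable.lintegral_prod_right'
      (f := fun p : V n × ℝ => Fq q (DD (ε + ‖p.1‖ ^ 2) ‖p.1‖ c p.2))
      ((Fq_meas q).comp (by unfold DD; fun_prop))
  have h2 : ∀ θ, (a / sqrt 2) ^ 2 + (a / sqrt 2) ^ 2 + 2 * (a / sqrt 2) * (a / sqrt 2) * θ =
      a ^ 2 * (1 + θ) := fun θ => by
    have : (a / sqrt 2) ^ 2 = a ^ 2 / 2 := by rw [div_pow, sq_sqrt (by norm_num)]
    rw [mul_assoc 2, ← sq, this]; ring
  have hg : Measurable fun θ => NN n (fun ρ => Fq q (ε + ρ)) (sqrt (a ^ 2 * (1 + θ)) :: l) :=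
    (NN_meas hF l).comp (by fun_prop)
  rw [NN_merge hF]
  simp only [h2]
  rw [← ENNReal.mul_le_mul_iff_right (a := 2) (by norm_num) (by norm_num), two_mul (∫⁻ _, _ ∂ang n)]
  nth_rewrite 2 [← ang_symm n _ hg]
  rw [← lintegral_add_left (f := fun α => NN n (fun ρ => Fq q (ε + ρ))
    (sqrt (a ^ 2 * (1 + cos α)) :: l)) (hg.comp measurable_cos)]
  refine le_trans (by simp) (lintegral_mono (f := fun _ => 2 * NN n (fun ρ => Fq q (ε + ρ)) (a :: l))
    fun α => ?_)
  simp only [hN]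
  rw [← lintegral_add_left (hm _), ← lintegral_const_mul _ (hm _)]
  refine lintegral_mono fun y => ?_
  have hA : ‖y‖ ^ 2 < ε + ‖y‖ ^ 2 := by linarith
  have k1 := tangent_reg (n := n) hA hq hqn ha (sqrt_nonneg (a ^ 2 * (1 + cos α)))
  have k2 := tangent_reg (n := n) hA hq hqn ha (sqrt_nonneg (a ^ 2 * (1 + -cos α)))
  rw [sq_sqrt (mul_nonneg (sq_nonneg _) (by linarith [neg_one_le_cos α]))] at k1
  rw [sq_sqrt (mul_nonneg (sq_nonneg _) (by linarith [cos_le_one α]))] at k2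
  rw [← ENNReal.ofReal_add (div_nonneg (KK_nonneg (mem_UU_reg hA _) _) hW.le)
    (div_nonneg (KK_nonneg (mem_UU_reg hA _) _) hW.le), two_mul,
    ← ENNReal.ofReal_add (div_nonneg (KK_nonneg (mem_UU_reg hA _) _) hW.le)
    (div_nonneg (KK_nonneg (mem_UU_reg hA _) _) hW.le), ← add_div, ← add_div]
  exact ENNReal.ofReal_le_ofReal (div_le_div_of_nonneg_right (by linarith) hW.le)

theorem split {q : ℝ} (hq : 0 < q) (hqn : 2 * q + 2 ≤ n) {a : ℝ} (ha : 0 < a) (l : List ℝ) :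
    NN n (Fq q) (a :: l) ≤ NN n (Fq q) (a / sqrt 2 :: a / sqrt 2 :: l) := by
  have h1 : NN n (Fq q) (a :: l) = ⨆ k : ℕ, NN n (fun ρ => Fq q (1 / ((k : ℝ) + 1) + ρ)) (a :: l) := by
    simp only [NN]
    rw [← lintegral_iSup (f := fun (k : ℕ) (y : V n) => Fq q (1 / ((k : ℝ) + 1) + ‖y‖ ^ 2))
      (fun k => (Fq_meas q).comp (by fun_prop)) fun i j hij y =>
      Fq_anti hq.le (by
        have : (i : ℝ) ≤ j := by exact_mod_cast hij
        gcongr)]
    refine lintegral_congr fun y => (iSup_eq_of_tendsto (fun i j hij => Fq_anti hq.le (by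
        have : (i : ℝ) ≤ j := by exact_mod_cast hij
        gcongr)) ?_).symm
    have h2 := (tendsto_one_div_add_atTop_nhds_zero_nat (𝕜 := ℝ)).add_const (‖y‖ ^ 2)
    rw [zero_add] at h2
    exact (ENNReal.continuous_rpow_const.comp ENNReal.continuous_ofReal).continuousAt.tendsto.comp h2
  rw [h1]
  exact iSup_le fun k => (split_reg hq.le hqn (by positivity) ha l).trans
    (NN_mono (fun ρ _ => Fq_anti hq.le (le_add_of_nonneg_left (by positivity))) _)

end Pool.Agent.Lib.MP_237b21_an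
end

-- part Pool.Agent.Lib.MP_237b21_an.Const
section

/-! The two candidate constants, small coefficients and sharpness. -/

namespace Pool.Agent.Lib.MP_237b21_an

open MeasureTheory Set Real Filter ProbabilityTheory
open scoped ENNReal Topology

variable {n : ℕ}

lemma lint_beta {a b : ℝ} (ha : 0 < a) (hb : 0 < b) :
    ∫⁻ x in Ioo (0 : ℝ) 1, ENNReal.ofReal (x ^ (a - 1) * (1 - x) ^ (b - 1)) =
      ENNReal.ofReal (beta a b) := by
  have h := lintegral_betaPDF_eq_one ha hb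
  have hp := beta_pos ha hb
  rw [lintegral_betaPDF] at h
  rw [← mul_one (ENNReal.ofReal (beta a b)), ← h, ← lintegral_const_mul _ (by fun_prop)]
  refine lintegral_congr fun x => ?_
  rw [← ENNReal.ofReal_mul hp.le]
  congr 1
  field_simp

lemma lint_sin_beta (n : ℕ) {q : ℝ} (hq : q < ((n : ℝ) + 1) / 2) :
    ∫⁻ α in Ioo (0 : ℝ) π, ENNReal.ofReal (sin α ^ n) * Fq q (1 + 1 ^ 2 + 2 * 1 * cos α) =
      ENNReal.ofReal (2 ^ n * 4 ^ (-q) * beta (((n : ℝ) + 1) / 2 - q) (((n : ℝ) + 1) / 2)) := by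
  have h := lintegral_image_eq_lintegral_abs_deriv_mul (s := Ioo (0 : ℝ) π)
    (f := fun α => (1 + cos α) / 2) (f' := fun α => -sin α / 2) measurableSet_Ioo
    (fun x _ => (((hasDerivAt_cos x).const_add 1).div_const 2).hasDerivWithinAt)
    (fun x hx y hy hxy => injOn_cos ⟨hx.1.le, hx.2.le⟩ ⟨hy.1.le, hy.2.le⟩ (by
      simp only at hxy; linarith))
    (fun x => ENNReal.ofReal (x ^ (((n : ℝ) + 1) / 2 - q - 1) * (1 - x) ^ (((n : ℝ) + 1) / 2 - 1)))
  have hc : ∀ α ∈ Ioo (0 : ℝ) π, -1 < cos α ∧ cos α < 1 := fun α hα => by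
    have h1 := sin_pos_of_mem_Ioo hα
    have h2 := sin_sq_add_cos_sq α
    constructor <;> nlinarith
  have him : (fun α => (1 + cos α) / 2) '' Ioo (0 : ℝ) π = Ioo 0 1 := by
    ext x
    constructor
    · rintro ⟨α, hα, rfl⟩
      have := hc α hα
      constructor <;> simp only <;> linarith [this.1, this.2]
    · intro hx
      refine ⟨arccos (2 * x - 1), ⟨arccos_pos.2 (by linarith [hx.2]),
        arccos_lt_pi.2 (by linarith [hx.1])⟩, ?_⟩
      simp only
      rw [cos_arccos (by linarith [hx.1]) (by linarith [hx.2])]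
      ring
  rw [him, lint_beta (by linarith) (by positivity)] at h
  rw [ENNReal.ofReal_mul (by positivity), h, ← lintegral_const_mul _ (by fun_prop)]
  refine setLIntegral_congr_fun measurableSet_Ioo fun α hα => ?_
  have h1 := sin_pos_of_mem_Ioo hα
  have h2 : 0 < (1 + cos α) / 2 := by linarith [(hc α hα).1]
  have h3 : 0 < 1 - (1 + cos α) / 2 := by linarith [(hc α hα).2]
  rw [Fq_pos q (by linarith), ← ENNReal.ofReal_mul (by positivity),
    ← ENNReal.ofReal_mul (by positivity), ← ENNReal.ofReal_mul (by positivity),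
    show 1 + 1 ^ 2 + 2 * 1 * cos α = 4 * ((1 + cos α) / 2) by ring, mul_rpow (by norm_num) h2.le,
    show ((n : ℝ) + 1) / 2 - q - 1 = -q + (((n : ℝ) + 1) / 2 - 1) by ring, rpow_add h2,
    mul_assoc (((1 + cos α) / 2) ^ (-q)), ← mul_rpow h2.le h3.le,
    show (1 + cos α) / 2 * (1 - (1 + cos α) / 2) = (sin α / 2) ^ (2 : ℝ) by
      rw [rpow_two, div_pow, sin_sq]; ring,
    ← rpow_mul (by positivity), show 2 * (((n : ℝ) + 1) / 2 - 1) = n - 1 by ring,
    rpow_sub_one (by positivity), rpow_natCast, neg_div, abs_neg, abs_of_pos (by positivity),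
    div_pow]
  congr 1
  field_simp

/-- The value of the two-summand function at one. -/
noncomputable def P1 (n : ℕ) (q : ℝ) : ℝ :=
  4 ^ (-q) * (Gamma (((n : ℝ) + 1) / 2 - q) * Gamma (n + 1) /
    (Gamma (n + 1 - q) * Gamma (((n : ℝ) + 1) / 2)))

lemma P1_pos {q : ℝ} (hq : q < ((n : ℝ) + 1) / 2) : 0 < P1 n q := by
  have h1 := Gamma_pos_of_pos (s := ((n : ℝ) + 1) / 2 - q) (by linarith)
  have h2 := Gamma_pos_of_pos (s := (n : ℝ) + 1) (by positivity)
  have h3 := Gamma_pos_of_pos (s := (n : ℝ) + 1 - q) (by linarith [n.cast_nonneg (α := ℝ)])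
  have h4 := Gamma_pos_of_pos (s := ((n : ℝ) + 1) / 2) (by positivity)
  unfold P1; positivity

theorem psi_one {q : ℝ} (hq : q < ((n : ℝ) + 1) / 2) : psi n q 1 = ENNReal.ofReal (P1 n q) := by
  have h0 := lint_sin_beta n (q := 0) (by positivity)
  simp only [Fq, neg_zero, ENNReal.rpow_zero, mul_one, rpow_zero, sub_zero, lint_sin] at h0
  have hb := beta_pos (α := ((n : ℝ) + 1) / 2) (β := ((n : ℝ) + 1) / 2) (by positivity) (by positivity)
  rw [psi, lint_ang n (fun α => Fq q (1 + 1 ^ 2 + 2 * 1 * cos α)) ((Fq_meas q).comp (by fun_prop)),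
    lint_sin_beta n hq, h0, ← ENNReal.div_eq_inv_mul, ← ENNReal.ofReal_div_of_pos (by positivity)]
  congr 1
  have h2 := Gamma_pos_of_pos (s := (n : ℝ) + 1) (by positivity)
  have h3 := Gamma_pos_of_pos (s := (n : ℝ) + 1 - q) (by linarith [n.cast_nonneg (α := ℝ)])
  have h4 := Gamma_pos_of_pos (s := ((n : ℝ) + 1) / 2) (by positivity)
  rw [P1, beta, beta, show ((n : ℝ) + 1) / 2 - q + (n + 1) / 2 = n + 1 - q by ring,
    show ((n : ℝ) + 1) / 2 + (n + 1) / 2 = n + 1 by ring]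
  field_simp

/-- The Gaussian constant. -/
noncomputable def CI (n : ℕ) (q : ℝ) : ℝ :=
  (((n : ℝ) + 2) / 2) ^ q * Gamma (((n : ℝ) + 2) / 2 - q) / Gamma (((n : ℝ) + 2) / 2)

/-- The best constant for the moments. -/
noncomputable def CC (n : ℕ) (q : ℝ) : ℝ := max (2 ^ q * P1 n q) (CI n q)

lemma CC_pos {q : ℝ} (hq : q < ((n : ℝ) + 1) / 2) : 0 < CC n q :=
  lt_max_of_lt_left (mul_pos (by positivity) (P1_pos hq))

lemma K0_CI {q : ℝ} (hq : 0 < q) :
    kap (((n : ℝ) + 2) / 2 - q) * (2 ^ q * K0 n q) = kap q * kap (((n : ℝ) + 2) / 2) * CI n q := by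
  have h4 := Gamma_pos_of_pos (s := ((n : ℝ) + 2) / 2) (by positivity)
  have h2 : (0 : ℝ) < 2 ^ q := by positivity
  rw [kap, kap, kap, K0, CI, rpow_sub two_pos, div_rpow (by positivity) zero_le_two]
  field_simp

lemma IP_pair (q : ℝ) : IP n q [1, 1] = II n q 2 := by
  refine lintegral_congr fun t => ?_
  simp [PJ, sq, abs_mul]

theorem small_coef {q : ℝ} (hq : 0 < q) (hq' : q < ((n : ℝ) + 1) / 2) (l : List ℝ)
    (hA0 : 0 < ssq l) (ha : ∀ a ∈ l, a ^ 2 ≤ ssq l / 2) :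
    NN n (Fq q) l ≤ ENNReal.ofReal (CC n q * ssq l ^ (-q)) := by
  obtain ⟨L, hL⟩ := crit_all n
  have k1 := kap_pos hq
  have k2 := kap_pos (s := ((n : ℝ) + 2) / 2) (by positivity)
  have k3 := kap_pos (s := ((n : ℝ) + 2) / 2 - q) (by linarith)
  have h2 : (0 : ℝ) < 2 ^ q := by positivity
  have hC := CC_pos hq'
  obtain ⟨M, hM⟩ : ∃ M, M = kap q * kap (((n : ℝ) + 2) / 2) * CC n q /
    (kap (((n : ℝ) + 2) / 2 - q) * 2 ^ q) := ⟨_, rfl⟩
  have hM0 : 0 < M := by rw [hM]; positivity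
  have hK : K0 n q ≤ M := by
    rw [hM, le_div_iff₀' (by positivity), mul_assoc, K0_CI hq]
    exact mul_le_mul_of_nonneg_left (le_max_right _ _) (by positivity)
  have hI : II n q 2 ≤ ENNReal.ofReal M := by
    have := fourier_eq n hq (by linarith) [1, 1] fun t => by simpa [PJ] using mul_self_nonneg _
    rw [IP_pair, NN_pair, abs_one, psi_one hq', ← ENNReal.ofReal_mul (by positivity)] at this
    rw [← ENNReal.mul_le_mul_iff_right (a := ENNReal.ofReal (kap (((n : ℝ) + 2) / 2 - q)))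
      (by simpa using k3) ENNReal.ofReal_ne_top, ← this, ← ENNReal.ofReal_mul k3.le]
    refine ENNReal.ofReal_le_ofReal ?_
    have e : kap (((n : ℝ) + 2) / 2 - q) * M =
        kap q * kap (((n : ℝ) + 2) / 2) * (CC n q / 2 ^ q) := by
      rw [hM]
      generalize kap (((n : ℝ) + 2) / 2 - q) = K at k3
      field_simp
    rw [e]
    refine mul_le_mul_of_nonneg_left ?_ (by positivity)
    rw [le_div_iff₀' h2]
    exact le_max_left _ _
  have h := (fourier_le n hq (by linarith) l).trans (mul_le_mul_right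
    (holder n _ (fun s hs => crit_main hL hq hq'.le hK hI hs) l hA0 ha) _)
  rw [← ENNReal.mul_le_mul_iff_right (a := ENNReal.ofReal (kap q * kap (((n : ℝ) + 2) / 2)))
    (by simpa using mul_pos k1 k2) ENNReal.ofReal_ne_top]
  refine h.trans (le_of_eq ?_)
  rw [← ENNReal.ofReal_mul (by positivity), ← ENNReal.ofReal_mul (by positivity),
    ← ENNReal.ofReal_mul (by positivity), hM, div_rpow hA0.le zero_le_two, rpow_neg zero_le_two]
  congr 1
  generalize kap (((n : ℝ) + 2) / 2 - q) = K at k3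
  field_simp

theorem sharp_inf {q : ℝ} (hq : 0 < q) (hq' : q < ((n : ℝ) + 2) / 2) :
    ENNReal.ofReal (CI n q) ≤ ⨆ i : ℕ, NN n (Fq q) (List.replicate (2 * i + 2) 1) *
      ENNReal.ofReal (((2 * i + 2 : ℕ) : ℝ) ^ q) := by
  have k1 := kap_pos hq
  have k2 := kap_pos (s := ((n : ℝ) + 2) / 2) (by positivity)
  have k3 := kap_pos (s := ((n : ℝ) + 2) / 2 - q) (by linarith)
  have hP : ∀ i t, PJ n (List.replicate (2 * i + 2) 1) t = jn n t ^ (2 * i + 2) := fun i t => by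
    simp [PJ]
  have hP0 : ∀ i t, 0 ≤ PJ n (List.replicate (2 * i + 2) 1) t := fun i t => by
    rw [hP]; exact Even.pow_nonneg ⟨i + 1, by ring⟩ _
  rw [← ENNReal.mul_le_mul_iff_right (a := ENNReal.ofReal (kap q * kap (((n : ℝ) + 2) / 2)))
    (by simpa using mul_pos k1 k2) ENNReal.ofReal_ne_top, ← ENNReal.ofReal_mul (by positivity),
    ← K0_CI hq, ENNReal.ofReal_mul k3.le, ENNReal.mul_iSup]
  simp only [← mul_assoc, fourier_eq n hq hq' _ (hP0 _)]
  simp only [mul_assoc, ← ENNReal.mul_iSup]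
  refine mul_le_mul_right ?_ _
  have e : 2 ^ q * K0 n q = (1 / (2 * ((n : ℝ) + 2))) ^ (-q) * (1 / 2) * Gamma q := by
    rw [K0, one_div (2 * ((n : ℝ) + 2)), inv_rpow (by positivity), ← rpow_neg (by positivity),
      neg_neg, mul_rpow zero_le_two (by positivity)]
    ring
  rw [e, ← mw_gauss (by positivity) hq]
  have hlim : ∀ t : ℝ, Tendsto (fun i : ℕ => ENNReal.ofReal
      (max (1 + -(1 / (2 * ((n : ℝ) + 2)) * t ^ 2) / ((2 * i + 2 : ℕ) : ℝ)) 0 ^ (2 * i + 2))) atTop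
      (𝓝 (ENNReal.ofReal (exp (-(1 / (2 * ((n : ℝ) + 2)) * t ^ 2))))) := fun t => by
    refine ENNReal.tendsto_ofReal ?_
    have h1 : Tendsto (fun i : ℕ => 2 * i + 2) atTop atTop :=
      tendsto_atTop_mono (fun i => by simp only [id]; omega) tendsto_id
    generalize -(1 / (2 * ((n : ℝ) + 2)) * t ^ 2) = x
    have h2 : Tendsto (fun N : ℕ => max (1 + x / (N : ℝ)) 0 ^ N) atTop (𝓝 (exp x)) := by
      refine (tendsto_one_add_div_pow_exp x).congr' ?_
      have h3 := (tendsto_const_div_atTop_nhds_zero_nat x).const_add 1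
      filter_upwards [h3.eventually (lt_mem_nhds (by norm_num : (0 : ℝ) < 1 + 0))] with N hN
      rw [max_eq_left hN.le]
    exact h2.comp h1
  simp only [← fun t => (hlim t).liminf_eq]
  refine (lintegral_liminf_le fun i => by fun_prop).trans
    (liminf_le_of_frequently_le' (Frequently.of_forall fun i => le_iSup_of_le i ?_))
  have hN : (0 : ℝ) < ((2 * i + 2 : ℕ) : ℝ) := by positivity
  have hc := (continuous_PJ n (List.replicate (2 * i + 2) 1)).measurable
  have := mw_scale (2 * q) (a := (sqrt ((2 * i + 2 : ℕ) : ℝ))⁻¹) (by positivity)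
    (f := fun t => ENNReal.ofReal |PJ n (List.replicate (2 * i + 2) 1) t|) (by fun_prop)
  rw [inv_rpow (sqrt_nonneg _), ← rpow_neg (sqrt_nonneg _), neg_neg, sqrt_eq_rpow,
    ← rpow_mul hN.le, show 1 / 2 * (2 * q) = q by ring, ← sqrt_eq_rpow] at this
  rw [mul_comm (IP _ _ _), IP, ← this]
  refine lintegral_mono fun t => ENNReal.ofReal_le_ofReal ?_
  rw [hP, abs_pow]
  refine pow_le_pow_left₀ (le_max_right _ _) (max_le ?_ (abs_nonneg _)) _
  refine le_trans (le_of_eq ?_) ((one_sub_le_jn n _).trans (le_abs_self _))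
  rw [mul_pow, inv_pow, sq_sqrt hN.le]
  field_simp
  ring

end Pool.Agent.Lib.MP_237b21_an
end

-- part Pool.Agent.Lib.MP_237b21_an.Induct
section

/-! One large coefficient. -/

namespace Pool.Agent.Lib.MP_237b21_an

open MeasureTheory Set Real Filter
open scoped ENNReal Topology

variable {n : ℕ} {q : ℝ}

lemma ssq_cons (a : ℝ) (l : List ℝ) : ssq (a :: l) = a ^ 2 + ssq l := by simp [ssq]

lemma ssq_nil : ssq [] = 0 := rfl

lemma ssq_nonneg (l : List ℝ) : 0 ≤ ssq l := by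
  induction l with
  | nil => exact le_rfl
  | cons a l ih => rw [ssq_cons]; positivity

lemma ssq_perm {l l' : List ℝ} (h : l.Perm l') : ssq l = ssq l' := (h.map _).sum_eq

lemma ssq_map (c : ℝ) (l : List ℝ) : ssq (l.map (c * ·)) = c ^ 2 * ssq l := by
  induction l with
  | nil => simp [ssq]
  | cons a l ih => rw [List.map_cons, ssq_cons, ssq_cons, ih]; ring

lemma sq_le_ssq {a : ℝ} {l : List ℝ} (h : a ∈ l) : a ^ 2 ≤ ssq l := by
  rw [ssq_perm (List.perm_cons_erase h), ssq_cons]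
  linarith [ssq_nonneg (l.erase a)]

lemma NN_const (c : ℝ≥0∞) (l : List ℝ) : NN n (fun _ => c) l = c := by simp [NN]

lemma NN_one : NN n (Fq q) [1] = 1 := by
  rw [NN_single (Fq_meas q), Fq_pos q (by norm_num)]; simp

/-- The inequality when the largest coefficient is normalised to one. -/
def Big (n : ℕ) (q : ℝ) (k : ℕ) : Prop := ∀ l : List ℝ, l.length = k → ssq l ≤ 1 →
  NN n (Fq q) (1 :: l) ≤ ENNReal.ofReal (CC n q * (1 + ssq l) ^ (-q))

theorem reduce (hq : 0 < q) (hq' : q < ((n : ℝ) + 1) / 2) {k : ℕ} (h : Big n q k) (l : List ℝ)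
    (hl : l.length = k + 1) (hA : 0 < ssq l) :
    NN n (Fq q) l ≤ ENNReal.ofReal (CC n q * ssq l ^ (-q)) := by
  by_cases ha : ∀ a ∈ l, a ^ 2 ≤ ssq l / 2
  · exact small_coef hq hq' l hA ha
  push Not at ha
  obtain ⟨a, hal, ha⟩ := ha
  have ha2 : 0 < a ^ 2 := by linarith
  have ha0 : a ≠ 0 := by rintro rfl; simp at ha2
  have hp := List.perm_cons_erase hal
  have e : a :: l.erase a = (1 :: (l.erase a).map (a⁻¹ * ·)).map (a * ·) := by
    simp [List.map_map, Function.comp_def, ha0]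
  have hs := ssq_perm hp
  rw [ssq_cons] at hs
  have h1 := h ((l.erase a).map (a⁻¹ * ·)) (by simp [List.length_erase_of_mem hal, hl]) (by
    rw [ssq_map, inv_pow, inv_mul_le_iff₀ ha2]; linarith)
  rw [NN_perm hp, e, NN_scale (Fq_meas q)]
  simp only [Fq_mul ha2]
  rw [NN, lintegral_const_mul (f := fun y : V n => Fq q (‖y‖ ^ 2)) _ ((Fq_meas q).comp (by fun_prop))]
  refine (mul_le_mul_right h1 _).trans (le_of_eq ?_)
  have := ssq_nonneg (l.erase a)
  rw [← ENNReal.ofReal_mul (by positivity), mul_left_comm, ssq_map,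
    ← mul_rpow ha2.le (by positivity), hs]
  congr 3
  field_simp

theorem big_A (hq : 0 < q) (hqn : 2 * q + 2 ≤ n) (k : ℕ) : Big n q k := by
  intro l _ hl
  have h2 : (1 / sqrt 2) ^ 2 = 1 / 2 := by rw [div_pow, sq_sqrt (by norm_num), one_pow]
  have h0 := ssq_nonneg l
  have hs : ssq (1 / sqrt 2 :: 1 / sqrt 2 :: l) = 1 + ssq l := by rw [ssq_cons, ssq_cons, h2]; ring
  refine (split hq hqn one_pos l).trans ?_
  rw [← hs]
  refine small_coef hq (by linarith) _ (by linarith) fun a ha => ?_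
  rw [hs]
  simp only [List.mem_cons] at ha
  rcases ha with rfl | rfl | ha
  · linarith
  · linarith
  · linarith [sq_le_ssq ha]

lemma P1_le (n : ℕ) (q : ℝ) : P1 n q ≤ CC n q * 2 ^ (-q) := by
  rw [rpow_neg zero_le_two, ← div_eq_mul_inv, le_div_iff₀' (by positivity)]
  exact le_max_left _ _

theorem big_B (hq : 0 < q) (hq' : q < ((n : ℝ) + 1) / 2) (hqn : (n : ℝ) / 2 ≤ q) (k : ℕ) :
    Big n q k := by
  intro l _ hl
  have hP := P1_pos hq'
  have h1 : ∀ r, 0 ≤ r → r ≤ 1 → psi n q r ≤ ENNReal.ofReal (P1 n q) := fun r h0 h1 => by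
    rcases h1.eq_or_lt with rfl | h1
    · exact (psi_one hq').le
    exact compare hq rfl (f := fun _ => P1 n q) (f' := fun _ => 0) (f'' := fun _ => 0)
      (fun y _ => hasDerivAt_const _ _) (fun y _ => hasDerivAt_const _ _) (fun _ _ => hP)
      (Lf := fun _ => -((q - n / 2) * q * P1 n q)) (fun y => by ring) (fun _ _ _ _ _ h => h.le)
      (Or.inr fun _ _ => neg_nonpos.2 (mul_nonneg (mul_nonneg (by linarith) hq.le) hP.le))
      (Or.inl (psi_one hq').le) (Or.inr (psi_one hq').le) h0 h1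
  have h2 : ∀ r, 0 ≤ r → psi n q r ≤ ENNReal.ofReal (P1 n q) := fun r h0 => by
    rcases le_total r 1 with h | h
    · exact h1 r h0 h
    rw [psi_inv q (by linarith)]
    refine mul_le_of_le_one_of_le ?_ (h1 _ (by positivity) (inv_le_one_of_one_le₀ h))
    exact ENNReal.ofReal_le_one.2 (rpow_le_one_of_one_le_of_nonpos (one_le_pow₀ h) (by linarith))
  rw [NN_one_cons]
  refine (NN_mono (fun ρ _ => h2 _ (sqrt_nonneg ρ)) l).trans ?_
  rw [NN_const]
  refine ENNReal.ofReal_le_ofReal ((P1_le n q).trans (mul_le_mul_of_nonneg_left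
    (rpow_le_rpow_of_nonpos (by linarith [ssq_nonneg l]) (by linarith) (by linarith))
    (CC_pos hq').le))

lemma drop (hq : 0 < q) {a a' h : ℝ} (ha : 0 < a) (haa : a ≤ a') (hh : 0 ≤ h) :
    a' ^ (-q) - (a' + h) ^ (-q) ≤ a ^ (-q) - (a + h) ^ (-q) :=
  le_of_deriv_nonpos haa (f := fun a => a ^ (-q) - (a + h) ^ (-q))
    (fun t ht => (hasDerivAt_rpow_const (Or.inl (ha.trans_le ht.1).ne')).sub
      (((hasDerivAt_id t).add_const h).rpow_const (p := -q)
        (Or.inl (by have := ht.1; simp only [id]; linarith))))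
    (fun t ht => by
      have := rpow_le_rpow_of_nonpos (ha.trans ht.1) (le_add_of_nonneg_right hh)
        (by linarith : -q - 1 ≤ 0)
      simp only [id]
      nlinarith)

/-- The reflected function. -/
noncomputable def Phi (q x : ℝ) : ℝ :=
  if x ≤ 1 then 2 * 2 ^ (-q) - (3 - x) ^ (-q) else (1 + x) ^ (-q)

lemma Phi_meas (q : ℝ) : Measurable (Phi q) :=
  Measurable.ite measurableSet_Iic (by fun_prop) (by fun_prop)

lemma Phi_pos (hq : 0 < q) (x : ℝ) : 0 < Phi q x := by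
  unfold Phi
  split_ifs with h
  · have := rpow_le_rpow_of_nonpos two_pos (by linarith : 2 ≤ 3 - x) (by linarith : -q ≤ 0)
    have : (0 : ℝ) < 2 ^ (-q) := by positivity
    linarith
  · exact rpow_pos_of_pos (by linarith) _

lemma Phi_le (hq : 0 < q) {x : ℝ} (h0 : 0 ≤ x) (h : x ≤ 1) : Phi q x ≤ (1 + x) ^ (-q) := by
  have := drop hq (a := 1 + x) (a' := 2) (h := 1 - x) (by linarith) (by linarith) (by linarith)
  rw [show 2 + (1 - x) = 3 - x by ring, show 1 + x + (1 - x) = 2 by ring] at this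
  rw [Phi, if_pos h]
  linarith

lemma Phi_conc (hq : 0 < q) {x δ : ℝ} (h : x ≤ 1) (hδ : 0 ≤ δ) :
    Phi q (x + δ) + Phi q (x - δ) ≤ 2 * Phi q x := by
  rw [Phi, Phi, Phi, if_pos h, if_pos (by linarith : x - δ ≤ 1)]
  split_ifs with h1
  · have := drop hq (a := 3 - (x + δ)) (a' := 3 - x) (h := δ) (by linarith) (by linarith) hδ
    rw [show 3 - x + δ = 3 - (x - δ) by ring, show 3 - (x + δ) + δ = 3 - x by ring] at this
    linarith
  · have k1 := drop hq (a := 2) (a' := 1 + (x + δ)) (h := 1 - x) two_pos (by linarith) (by linarith)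
    have k2 := drop hq (a := 2) (a' := 2 + δ) (h := 1 - x) two_pos (by linarith) (by linarith)
    rw [show 2 + (1 - x) = 3 - x by ring] at k1 k2
    rw [show 1 + (x + δ) + (1 - x) = 2 + δ by ring] at k1
    rw [show 2 + δ + (1 - x) = 3 - (x - δ) by ring] at k2
    linarith

lemma base_C (hq : 0 < q) (hq' : q < (n : ℝ) / 2)
    (hB : 1 ≤ CC n q * (2 * 2 ^ (-q) - 3 ^ (-q))) {r : ℝ} (h0 : 0 ≤ r) (h1 : r ≤ 1) :
    psi n q r ≤ ENNReal.ofReal (CC n q * Phi q (r ^ 2)) := by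
  have hq2 : q < ((n : ℝ) + 1) / 2 := by linarith
  have hC := CC_pos hq2
  have hone : psi n q 1 ≤ ENNReal.ofReal (CC n q * (2 * 2 ^ (-q) - (3 - 1) ^ (-q))) := by
    rw [psi_one hq2]
    refine ENNReal.ofReal_le_ofReal ((P1_le n q).trans (le_of_eq ?_))
    rw [show (3 : ℝ) - 1 = 2 by norm_num]; ring
  rw [Phi, if_pos (pow_le_one₀ h0 h1)]
  rcases h1.eq_or_lt with rfl | h1
  · rwa [one_pow]
  obtain ⟨b, hb⟩ : ∃ b, b = q - n / 2 := ⟨_, rfl⟩
  have hb0 : b < 0 := by linarith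
  have hd : ∀ s y : ℝ, y ≤ 1 → HasDerivAt (fun y : ℝ => (3 - y) ^ (-s)) (s * (3 - y) ^ (-(s + 1))) y :=
    fun s y hy => (((hasDerivAt_id y).const_sub 3).rpow_const (p := -s)
      (Or.inl (by simp only [id]; linarith))).congr_deriv (by
        rw [show -(s + 1) = -s - 1 by ring]; simp only [id]; ring)
  have hz : ∀ s y : ℝ, y < 3 → (3 - y) ^ (-s) = (3 - y) * (3 - y) ^ (-(s + 1)) := fun s y hy => by
    rw [mul_comm, ← rpow_add_one (by linarith)]; congr 1; ring
  have hN : ∀ y : ℝ, y < 3 → y * (1 - y) * (CC n q * -(q * ((q + 1) * (3 - y) ^ (-(q + 1 + 1))))) +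
      ((n + 2) / 2 * (1 - y) - 2 * b * y) * (CC n q * -(q * (3 - y) ^ (-(q + 1)))) -
      b * q * (CC n q * (2 * 2 ^ (-q) - (3 - y) ^ (-q))) =
      CC n q * q * (3 - y) ^ (-(q + 1 + 1)) * (-3 * (q + 1) * (1 - y) + 4 * b * (3 - y) +
        (-b) * (2 * 2 ^ (-q)) * (3 - y) ^ (q + 1 + 1)) := fun y hy => by
    have h3 : (3 - y) ^ (-(q + 1 + 1)) * (3 - y) ^ (q + 1 + 1) = 1 := by
      rw [← rpow_add (by linarith), neg_add_cancel, rpow_zero]
    rw [hz q y hy, hz (q + 1) y hy, show ((n : ℝ) + 2) / 2 = q + 1 - b by linarith]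
    linear_combination (CC n q * q * b * (2 * 2 ^ (-q))) * h3
  refine compare hq hb (f := fun y => CC n q * (2 * 2 ^ (-q) - (3 - y) ^ (-q)))
    (f' := fun y => CC n q * -(q * (3 - y) ^ (-(q + 1))))
    (f'' := fun y => CC n q * -(q * ((q + 1) * (3 - y) ^ (-(q + 1 + 1)))))
    (fun y hy => ((hd q y hy.2).const_sub _).const_mul _)
    (fun y hy => (((hd (q + 1) y hy.2).const_mul q).neg).const_mul _)
    (fun y hy => mul_pos hC (by have := Phi_pos hq y; rwa [Phi, if_pos hy.2] at this))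
    (fun y => rfl) (fun x y hx hxy hy h => ?_) (Or.inl (by simpa using hB)) (Or.inl hone)
    (Or.inr hone) h0 h1
  rw [hN x (by linarith)] at h
  rw [hN y (by linarith)]
  have hx3 : 0 < 3 - x := by linarith
  have hy3 : 0 < 3 - y := by linarith
  have h' := neg_of_mul_neg_right h (by positivity)
  refine mul_nonpos_of_nonneg_of_nonpos (by positivity) ?_
  have hx1 : 0 < 1 - x := by linarith
  have hcv := (convexOn_rpow (p := q + 1 + 1) (by linarith)).2
    (mem_Ici.2 zero_le_two) (mem_Ici.2 hx3.le)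
    (div_nonneg (by linarith : 0 ≤ y - x) hx1.le) (div_nonneg (by linarith : 0 ≤ 1 - y) hx1.le)
    (by field_simp; ring)
  simp only [smul_eq_mul] at hcv
  rw [show (y - x) / (1 - x) * 2 + (1 - y) / (1 - x) * (3 - x) = 3 - y by field_simp; ring,
    div_mul_eq_mul_div, div_mul_eq_mul_div, ← add_div, le_div_iff₀ hx1] at hcv
  have h2 : (2 : ℝ) ^ (-q) * 2 ^ (q + 1 + 1) = 4 := by
    rw [← rpow_add two_pos, show -q + (q + 1 + 1) = 2 by ring, rpow_two]; norm_num
  have h3 : 0 ≤ -b * (2 * 2 ^ (-q)) := mul_nonneg (by linarith) (by positivity)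
  have h4 := mul_le_mul_of_nonneg_left hcv h3
  have h5 := mul_nonpos_of_nonneg_of_nonpos (by linarith : 0 ≤ 1 - y) h'.le
  refine le_of_mul_le_mul_right ?_ hx1
  have h6 : -b * (2 * 2 ^ (-q)) * ((y - x) * 2 ^ (q + 1 + 1)) = -b * 8 * (y - x) := by
    linear_combination (-b * 2 * (y - x)) * h2
  nlinarith

lemma merge_step {F : ℝ → ℝ≥0∞} (hF : Measurable F) (c a b : ℝ) (l : List ℝ) :
    NN n F (c :: a :: b :: l) =
      ∫⁻ α, NN n F (c :: sqrt (a ^ 2 + b ^ 2 + 2 * a * b * cos α) :: l) ∂ang n := by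
  rw [NN_perm (l' := a :: b :: c :: l) ((List.Perm.swap a c _).trans
    ((List.Perm.swap b c l).cons a)), NN_merge hF]
  exact lintegral_congr fun α => NN_perm (List.Perm.swap _ _ _)

lemma merge_nonneg (a b α : ℝ) : 0 ≤ a ^ 2 + b ^ 2 + 2 * a * b * cos α := by
  nlinarith [sq_nonneg (a + b * cos α), sin_sq_add_cos_sq α, sq_nonneg (b * sin α)]

theorem big_C (hq : 0 < q) (hq' : q < (n : ℝ) / 2)
    (hB : 1 ≤ CC n q * (2 * 2 ^ (-q) - 3 ^ (-q))) (k : ℕ) : Big n q k := by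
  have hq2 : q < ((n : ℝ) + 1) / 2 := by linarith
  have hC := CC_pos hq2
  have key : ∀ k : ℕ, ∀ l : List ℝ, l.length = k → ssq l ≤ 1 →
      NN n (Fq q) (1 :: l) ≤ ENNReal.ofReal (CC n q * Phi q (ssq l)) := by
    intro k
    induction k using Nat.twoStepInduction with
    | zero =>
      intro l hl _
      obtain rfl := List.length_eq_zero_iff.1 hl
      rw [NN_one, ssq_nil, Phi, if_pos zero_le_one, sub_zero]
      exact ENNReal.one_le_ofReal.2 hB
    | one =>
      intro l hl h1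
      obtain ⟨a, rfl⟩ := List.length_eq_one_iff.1 hl
      rw [ssq_cons, ssq_nil, add_zero] at h1 ⊢
      rw [NN_pair, ← sq_abs]
      exact base_C hq hq' hB (abs_nonneg a) ((sq_le_one_iff_abs_le_one a).1 h1)
    | more k _ ih =>
      have all : ∀ l : List ℝ, l.length = k + 1 →
          NN n (Fq q) (1 :: l) ≤ ENNReal.ofReal (CC n q * Phi q (ssq l)) := fun l hl => by
        rcases le_or_gt (ssq l) 1 with h | h
        · exact ih l hl h
        have := reduce hq hq2 (k := k + 1) (fun l hl h => (ih l hl h).trans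
          (ENNReal.ofReal_le_ofReal (mul_le_mul_of_nonneg_left (Phi_le hq (ssq_nonneg l) h) hC.le)))
          (1 :: l) (by simp [hl]) (by rw [ssq_cons]; linarith)
        rw [ssq_cons, one_pow] at this
        rwa [Phi, if_neg (not_le.2 h)]
      intro l hl h1
      match l, hl with
      | a :: b :: l, hl =>
        have hg : Measurable fun θ => ENNReal.ofReal
            (CC n q * Phi q (ssq (a :: b :: l) + 2 * a * b * θ)) :=
          (((Phi_meas q).comp (by fun_prop)).const_mul _).ennreal_ofReal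
        rw [merge_step (Fq_meas q)]
        refine (lintegral_mono (g := fun α => ENNReal.ofReal
          (CC n q * Phi q (ssq (a :: b :: l) + 2 * a * b * cos α))) fun α => ?_).trans ?_
        · refine (all _ (by simpa using hl)).trans (le_of_eq ?_)
          rw [ssq_cons, sq_sqrt (merge_nonneg a b α), ssq_cons, ssq_cons]
          congr 3; ring
        rw [← ENNReal.mul_le_mul_iff_right (a := 2) (by norm_num) (by norm_num),
          two_mul (∫⁻ _, _ ∂ang n)]
        nth_rewrite 2 [← ang_symm n _ hg]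
        rw [← lintegral_add_left (f := fun α => ENNReal.ofReal
          (CC n q * Phi q (ssq (a :: b :: l) + 2 * a * b * cos α))) (hg.comp measurable_cos)]
        refine (lintegral_mono (g := fun _ => 2 * ENNReal.ofReal
          (CC n q * Phi q (ssq (a :: b :: l)))) fun α => ?_).trans (by simp)
        have hp := Phi_pos hq
        simp only
        rw [two_mul (ENNReal.ofReal _), ← ENNReal.ofReal_add (mul_pos hC (hp _)).le (mul_pos hC (hp _)).le,
          ← ENNReal.ofReal_add (mul_pos hC (hp _)).le (mul_pos hC (hp _)).le, ← mul_add, ← mul_add,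
          ← two_mul (Phi _ _), mul_neg, ← sub_eq_add_neg]
        refine ENNReal.ofReal_le_ofReal (mul_le_mul_of_nonneg_left ?_ hC.le)
        rcases le_total 0 (2 * a * b * cos α) with h | h
        · exact Phi_conc hq h1 h
        · have := Phi_conc hq h1 (neg_nonneg.2 h)
          rwa [sub_neg_eq_add, ← sub_eq_add_neg, add_comm] at this
  exact fun l hl h => (key k l hl h).trans
    (ENNReal.ofReal_le_ofReal (mul_le_mul_of_nonneg_left (Phi_le hq (ssq_nonneg l) h) hC.le))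

end Pool.Agent.Lib.MP_237b21_an
end

-- part Pool.Agent.Lib.MP_237b21_an.Quad
section

/-! A quadratic majorant for the two-summand function. -/

namespace Pool.Agent.Lib.MP_237b21_an

open MeasureTheory Set Real Filter
open scoped ENNReal Topology

variable {n : ℕ} {q : ℝ}

lemma ang_quad (n : ℕ) (u v w : ℝ) :
    (∫ α in (0 : ℝ)..π, (u + v * cos α + w * cos α ^ 2) * sin α ^ n) / W n = u + w / (n + 2) := by
  have h1 := int_exact (g := fun α => sin α ^ (n + 1)) (g' := fun α => (n + 1) * (cos α * sin α ^ n))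
    (fun α => ((hasDerivAt_sin α).pow (n + 1)).congr_deriv (by
      simp only [Nat.add_sub_cancel]; push_cast; ring)) (by fun_prop) (by simp) (by simp)
  rw [intervalIntegral.integral_const_mul, mul_eq_zero] at h1
  have h2 := h1.resolve_left (by positivity)
  have e : ∀ α, (u + v * cos α + w * cos α ^ 2) * sin α ^ n = 1 * ((u + w) * sin α ^ n +
      (-w) * sin α ^ (n + 2)) + v * (cos α * sin α ^ n) := fun α => by
    rw [pow_add, sin_sq]; ring
  simp only [e]
  rw [int_lin _ _ (by fun_prop) (by fun_prop), int_lin _ _ (by fun_prop) (by fun_prop), h2]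
  have := W_succ n
  have h3 := W_pos n
  unfold W at *
  rw [this]
  field_simp
  ring

lemma NN_quad {β γ : ℝ} (hγ : 0 ≤ γ) (hP : ∀ ρ, 0 ≤ ρ → 0 ≤ 1 - β * ρ + γ * ρ ^ 2) (k : ℕ) :
    ∀ (a : ℝ) (l : List ℝ), l.length = k →
      NN n (fun ρ => ENNReal.ofReal (1 - β * ρ + γ * ρ ^ 2)) (a :: l) ≤
      ENNReal.ofReal (1 - β * ssq (a :: l) +
        γ * ((1 + 2 / (n + 2)) * ssq (a :: l) ^ 2 - 2 / (n + 2) * (a ^ 2) ^ 2)) := by
  have hF : Measurable fun ρ : ℝ => ENNReal.ofReal (1 - β * ρ + γ * ρ ^ 2) := by fun_prop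
  induction k with
  | zero =>
    intro a l hl
    obtain rfl := List.length_eq_zero_iff.1 hl
    rw [NN_single hF, ssq_cons, ssq_nil]
    exact le_of_eq (by congr 1; ring)
  | succ k ih =>
    intro a l hl
    match l, hl with
    | b :: l, hl =>
      have hs := ssq_nonneg l
      have hm : (0 : ℝ) < 2 / (n + 2) := by positivity
      rw [NN_merge hF]
      refine (lintegral_mono fun α => ih _ l (by simpa using hl)).trans ?_
      simp only [ssq_cons, sq_sqrt (merge_nonneg a b _)]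
      rw [lint_ang_cont n (by fun_prop) fun α => ?_]
      · refine ENNReal.ofReal_le_ofReal ?_
        have e : ∀ α, 1 - β * (a ^ 2 + b ^ 2 + 2 * a * b * cos α + ssq l) +
            γ * ((1 + 2 / (n + 2)) * (a ^ 2 + b ^ 2 + 2 * a * b * cos α + ssq l) ^ 2 -
              2 / (n + 2) * (a ^ 2 + b ^ 2 + 2 * a * b * cos α) ^ 2) =
            (1 - β * (a ^ 2 + b ^ 2 + ssq l) + γ * ((1 + 2 / (n + 2)) * (a ^ 2 + b ^ 2 + ssq l) ^ 2 -
              2 / (n + 2) * (a ^ 2 + b ^ 2) ^ 2)) + (2 * a * b * (-β + γ * (2 * (1 + 2 / (n + 2)) *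
              (a ^ 2 + b ^ 2 + ssq l) - 2 * (2 / (n + 2)) * (a ^ 2 + b ^ 2)))) * cos α +
              (γ * (2 * a * b) ^ 2) * cos α ^ 2 := fun α => by ring
        simp only [e]
        rw [ang_quad, show γ * (2 * a * b) ^ 2 / (n + 2) = γ * (2 / (n + 2) * (2 * a ^ 2 * b ^ 2)) by
          field_simp]
        nlinarith [mul_nonneg (mul_nonneg hγ hm.le) (sq_nonneg (b ^ 2))]
      · have h1 := merge_nonneg a b α
        have h2 := hP _ (add_nonneg h1 hs)
        have h3 := pow_le_pow_left₀ h1 (le_add_of_nonneg_right hs) 2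
        nlinarith [mul_nonneg (mul_nonneg hγ hm.le) (sub_nonneg.2 h3)]

lemma psi_one_le {f : ℝ → ℝ} (hf : ContinuousAt f 1)
    (h : ∀ r, 0 ≤ r → r < 1 → psi n q r ≤ ENNReal.ofReal (f r)) :
    psi n q 1 ≤ ENNReal.ofReal (f 1) := by
  have h1 : Tendsto (fun k : ℕ => 1 - 1 / ((k : ℝ) + 1)) atTop (𝓝 1) := by
    simpa using (tendsto_one_div_add_atTop_nhds_zero_nat (𝕜 := ℝ)).const_sub 1
  have h2 : ∀ α, Tendsto (fun k : ℕ => Fq q (1 + (1 - 1 / ((k : ℝ) + 1)) ^ 2 +
      2 * (1 - 1 / ((k : ℝ) + 1)) * cos α)) atTop (𝓝 (Fq q (1 + 1 ^ 2 + 2 * 1 * cos α))) := fun α =>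
    (ENNReal.continuous_rpow_const.comp ENNReal.continuous_ofReal).continuousAt.tendsto.comp
      (((h1.pow 2).const_add 1).add ((h1.const_mul 2).mul_const _))
  rw [psi, ← (ENNReal.tendsto_ofReal (hf.tendsto.comp h1)).liminf_eq]
  simp only [← fun α => (h2 α).liminf_eq]
  refine (lintegral_liminf_le fun k => (Fq_meas q).comp (by fun_prop)).trans
    (liminf_le_liminf (Eventually.of_forall fun k => h _ ?_ ?_))
  · rw [sub_nonneg, div_le_one (by positivity)]; linarith [k.cast_nonneg (α := ℝ)]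
  · exact sub_lt_self _ (by positivity)

lemma psi_tangent (hq : 0 < q) (h1 : (n : ℝ) / 2 - 1 ≤ q) (h2 : q ≤ (n : ℝ) / 2) {c : ℝ}
    (hc : c * ((n + 2) / 2) = q * (n / 2 - q)) (hc1 : c < 1) {r : ℝ} (h0 : 0 ≤ r) (hr : r ≤ 1) :
    psi n q r ≤ ENNReal.ofReal (1 - c * r ^ 2) := by
  have hc0 : 0 ≤ c := by
    refine nonneg_of_mul_nonneg_left ?_ (by positivity : (0 : ℝ) < (n + 2) / 2)
    rw [hc]; exact mul_nonneg hq.le (by linarith)
  have hL : ∀ y, 0 ≤ y → 0 ≤ c * y * ((q + 1) * (q - n / 2 + 1)) := fun y hy =>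
    mul_nonneg (mul_nonneg hc0 hy) (mul_nonneg (by linarith) (by linarith))
  have key : ∀ r, 0 ≤ r → r < 1 → psi n q r ≤ ENNReal.ofReal (1 - c * r ^ 2) := fun r h0 hr =>
    compare hq rfl (f := fun y => 1 - c * y) (f' := fun _ => -c) (f'' := fun _ => 0)
      (fun y _ => (((hasDerivAt_id y).const_mul c).const_sub 1).congr_deriv (by simp))
      (fun y _ => hasDerivAt_const _ _) (fun y hy => by nlinarith [hy.1, hy.2])
      (Lf := fun y => c * y * ((q + 1) * (q - n / 2 + 1))) (fun y => by linear_combination hc)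
      (fun x _ hx _ _ h => absurd (hL x hx.le) (not_le.2 h)) (Or.inl (by simp))
      (Or.inr fun y hy => hL y hy.1.le) (Or.inl (by simp)) h0 hr
  rcases hr.eq_or_lt with rfl | hr
  · exact psi_one_le (f := fun r => 1 - c * r ^ 2) (by fun_prop) key
  · exact key r h0 hr

theorem big_Q (hq : 0 < q) (h1 : (n : ℝ) / 2 - 1 ≤ q) (h2 : q ≤ (n : ℝ) / 2) {c g : ℝ}
    (hc : c * ((n + 2) / 2) = q * (n / 2 - q)) (hc1 : c < 1) (hg : 0 ≤ g)
    (hy : ∀ y, 1 ≤ y → (y - c) * (y + 1) ≤ (y + 1 + 2 * q * (y - 1)) * (1 - c * y + g * y ^ 2) * y)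
    (hD : 1 - c + g * (1 + 2 / (n + 2)) ≤ CC n q * 2 ^ (-q))
    (hD2 : c ≤ (1 - c) * q / 2) (k : ℕ) : Big n q k := by
  have hc0 : 0 ≤ c := by
    refine nonneg_of_mul_nonneg_left ?_ (by positivity : (0 : ℝ) < (n + 2) / 2)
    rw [hc]; exact mul_nonneg hq.le (by linarith)
  have hy' : ∀ y, 1 ≤ y → y ^ (-q) * (1 - c * y⁻¹) ≤ 1 - c * y + g * y ^ 2 := fun y h => by
    have h0 : 0 < y := by linarith
    have h3 := le_log_one_add_of_nonneg (x := y - 1) (by linarith)
    rw [add_sub_cancel, show y - 1 + 2 = y + 1 by ring] at h3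
    have h4 : (y + 1 + 2 * q * (y - 1)) / (y + 1) ≤ y ^ q := by
      rw [rpow_def_of_pos h0]
      refine le_trans ?_ (add_one_le_exp _)
      have := mul_le_mul_of_nonneg_right h3 hq.le
      refine le_trans (le_of_eq ?_) (add_le_add_left this 1)
      field_simp
      ring
    have h5 : 0 < y + 1 + 2 * q * (y - 1) := by nlinarith
    have h6 : 0 ≤ 1 - c * y⁻¹ := by
      rw [sub_nonneg, mul_inv_le_iff₀ h0]; linarith
    rw [rpow_neg h0.le]
    refine (mul_le_mul_of_nonneg_right (inv_anti₀ (by positivity) h4) h6).trans ?_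
    rw [inv_div, div_mul_eq_mul_div, div_le_iff₀ h5]
    refine le_of_mul_le_mul_right ?_ h0
    refine le_trans (le_of_eq ?_) ((hy y h).trans (le_of_eq (by ring)))
    field_simp
  have hP : ∀ ρ, 0 ≤ ρ → 0 ≤ 1 - c * ρ + g * ρ ^ 2 := fun ρ h0 => by
    rcases le_total ρ 1 with h | h
    · nlinarith [mul_nonneg hg (sq_nonneg ρ)]
    · refine le_trans (mul_nonneg (by positivity) ?_) (hy' ρ h)
      rw [sub_nonneg, mul_inv_le_iff₀ (by linarith)]; linarith
  have hpsi : ∀ ρ, 0 ≤ ρ → psi n q (sqrt ρ) ≤ ENNReal.ofReal (1 - c * ρ + g * ρ ^ 2) := fun ρ h0 => by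
    rcases le_total ρ 1 with h | h
    · refine (psi_tangent hq h1 h2 hc hc1 (sqrt_nonneg _) (sqrt_le_one.2 h)).trans
        (ENNReal.ofReal_le_ofReal ?_)
      rw [sq_sqrt h0]
      exact le_add_of_nonneg_right (by positivity)
    · have h3 : 1 ≤ sqrt ρ := one_le_sqrt.2 h
      rw [psi_inv q (by linarith)]
      refine (mul_le_mul_right (psi_tangent hq h1 h2 hc hc1 (by positivity)
        (inv_le_one_of_one_le₀ h3)) _).trans ?_
      rw [← ENNReal.ofReal_mul (by positivity), inv_pow, sq_sqrt h0]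
      exact ENNReal.ofReal_le_ofReal (hy' ρ h)
  have hm : (0 : ℝ) < 2 / (n + 2) := by positivity
  have hfin : ∀ x, 0 ≤ x → x ≤ 1 →
      1 - c * x + g * ((1 + 2 / (n + 2)) * x ^ 2) ≤ CC n q * (1 + x) ^ (-q) := fun x h0 hx => by
    have h3 : 1 + q * ((1 - x) / 2) ≤ ((1 + x) / 2) ^ (-q) := by
      rw [rpow_def_of_pos (by positivity)]
      have := log_le_sub_one_of_pos (x := (1 + x) / 2) (by positivity)
      nlinarith [add_one_le_exp (log ((1 + x) / 2) * -q)]
    have h4 : CC n q * (1 + x) ^ (-q) = CC n q * 2 ^ (-q) * ((1 + x) / 2) ^ (-q) := by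
      rw [mul_assoc, ← mul_rpow zero_le_two (by positivity)]; congr 2; ring
    have h5 : 0 ≤ g * (1 + 2 / ((n : ℝ) + 2)) := by positivity
    have h6 : 0 ≤ q * ((1 - x) / 2) := mul_nonneg hq.le (by linarith)
    rw [h4]
    refine le_trans ?_ (mul_le_mul hD h3 (by linarith) (le_trans (by linarith) hD))
    have h7 : x ^ 2 ≤ 1 := pow_le_one₀ h0 hx
    nlinarith [mul_nonneg h5 h6, mul_nonneg h5 (sub_nonneg.2 h7),
      mul_nonneg (sub_nonneg.2 hD2) (sub_nonneg.2 hx)]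
  intro l _ hl
  match l with
  | [] =>
    rw [NN_one]
    exact ENNReal.one_le_ofReal.2 (by simpa [ssq] using hfin 0 le_rfl zero_le_one)
  | a :: l =>
    rw [NN_one_cons]
    refine (NN_mono hpsi _).trans ((NN_quad hg hP _ a l rfl).trans
      (ENNReal.ofReal_le_ofReal (le_trans ?_ (hfin _ (ssq_nonneg _) hl))))
    have : 0 ≤ 2 / ((n : ℝ) + 2) * (a ^ 2) ^ 2 := by positivity
    nlinarith

end Pool.Agent.Lib.MP_237b21_an
end
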