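import Pool.Agent.Lib.MP_237b21_an.Defs

/-! Polar coordinates, rotation invariance and the law of a coordinate on the sphere. -/

namespace Pool.Agent.Lib.MP_237b21_an

open MeasureTheory Set Metric
open scoped ENNReal RealInnerProductSpace

section polar
variable {E : Type*} [NormedAddCommGroup E] [NormedSpace ℝ E] [MeasurableSpace E] [BorelSpace E]
  [FiniteDimensional ℝ E] [Nontrivial E] (μ : Measure E) [μ.IsAddHaarMeasure]

lemma polar_lint (F : E → ℝ≥0∞) (hF : Measurable F) :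
    ∫⁻ y, F y ∂μ = ∫⁻ x : sphere (0 : E) 1, ∫⁻ r in Ioi (0 : ℝ),
      ENNReal.ofReal (r ^ (Module.finrank ℝ E - 1)) * F (r • (x : E)) ∂volume ∂μ.toSphere := by
  have h1 : ∫⁻ y, F y ∂μ = ∫⁻ y : ({(0 : E)}ᶜ : Set E), F y ∂(μ.comap (↑)) := by
    rw [lintegral_subtype_comap (measurableSet_singleton _).compl, restrict_compl_singleton]
  have hm : Measurable (fun p : sphere (0 : E) 1 × Ioi (0 : ℝ) => F ((p.2 : ℝ) • (p.1 : E))) := by
    apply hF.comp
    fun_prop
  have h2 := μ.measurePreserving_homeomorphUnitSphereProd.lintegral_comp hm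
  have h3 : ∀ y : ({(0 : E)}ᶜ : Set E),
      F (((homeomorphUnitSphereProd E y).2 : ℝ) • ((homeomorphUnitSphereProd E y).1 : E)) = F y := by
    intro y
    congr 1
    have := homeomorphUnitSphereProd_symm_apply_coe E (homeomorphUnitSphereProd E y)
    rw [← this, Homeomorph.symm_apply_apply]
  simp only [h3] at h2
  rw [h1, h2, lintegral_prod _ hm.aemeasurable]
  refine lintegral_congr fun x => ?_
  rw [Measure.volumeIoiPow, lintegral_withDensity_eq_lintegral_mul _ (by fun_prop)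
    (by apply hF.comp; fun_prop)]
  exact lintegral_subtype_comap measurableSet_Ioi
    (fun r : ℝ => ENNReal.ofReal (r ^ (Module.finrank ℝ E - 1)) * F (r • (x : E)))

lemma polar_prod (f : E → ℝ≥0∞) (hf : Measurable f) (g : ℝ → ℝ≥0∞) (hg : Measurable g) :
    ∫⁻ y, f (‖y‖⁻¹ • y) * g ‖y‖ ∂μ = (∫⁻ x : sphere (0 : E) 1, f x ∂μ.toSphere) *
      ∫⁻ r in Ioi (0 : ℝ), ENNReal.ofReal (r ^ (Module.finrank ℝ E - 1)) * g r := by
  rw [polar_lint μ _ (by fun_prop), ← lintegral_mul_const _ (by fun_prop)]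
  refine lintegral_congr fun x => ?_
  rw [← lintegral_const_mul _ (by fun_prop)]
  refine setLIntegral_congr_fun measurableSet_Ioi fun r hr => ?_
  have hr' : (0 : ℝ) < r := hr
  have hx : ‖(x : E)‖ = 1 := by simp
  have : ‖r • (x : E)‖ = r := by rw [norm_smul, hx, Real.norm_of_nonneg hr'.le, mul_one]
  simp only [this, smul_smul, inv_mul_cancel₀ hr'.ne', one_smul]
  ring

end polar

lemma ind_lint (k : ℕ) : ∫⁻ r in Ioi (0 : ℝ), ENNReal.ofReal (r ^ k) *
    (Iio (1 : ℝ)).indicator (fun _ => (1 : ℝ≥0∞)) r = ENNReal.ofReal (1 / (k + 1)) := by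
  have : ∫⁻ r in Ioi (0 : ℝ), ENNReal.ofReal (r ^ k) *
      (Iio (1 : ℝ)).indicator (fun _ => (1 : ℝ≥0∞)) r =
      ∫⁻ r in Ioi (0 : ℝ), (Iio (1 : ℝ)).indicator (fun r => ENNReal.ofReal (r ^ k)) r := by
    refine lintegral_congr fun r => ?_
    by_cases h : r ∈ Iio (1 : ℝ) <;> simp [h]
  rw [this, lintegral_indicator measurableSet_Iio, Measure.restrict_restrict measurableSet_Iio,
    show Iio (1 : ℝ) ∩ Ioi 0 = Ioo 0 1 by ext; simp [and_comm],
    Measure.restrict_congr_set Ioo_ae_eq_Ioc,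
    ← ofReal_integral_eq_lintegral_ofReal (intervalIntegral.intervalIntegrable_pow k).1,
    ← intervalIntegral.integral_of_le zero_le_one]
  · simp
  · filter_upwards [ae_restrict_mem measurableSet_Ioc] with y hy
    exact pow_nonneg hy.1.le _

/-- The ambient Euclidean space of dimension `n + 2`. -/
abbrev V (n : ℕ) := EuclideanSpace ℝ (Fin (n + 2))

/-- The uniform measure on the unit sphere, as a measure on the ambient space. -/
noncomputable def sv (n : ℕ) : Measure (V n) := (sph (n + 2)).map Subtype.val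

lemma toSphere_ne_top (n : ℕ) : (volume : Measure (V n)).toSphere univ ≠ ⊤ := measure_ne_top _ _

lemma toSphere_ne_zero' (n : ℕ) : (volume : Measure (V n)).toSphere univ ≠ 0 := by
  rw [Ne, Measure.measure_univ_eq_zero]
  exact Measure.toSphere_ne_zero _

instance (n : ℕ) : IsProbabilityMeasure (sph (n + 2)) := ⟨by
  rw [sph, Measure.smul_apply, smul_eq_mul,
    ENNReal.inv_mul_cancel (toSphere_ne_zero' n) (toSphere_ne_top n)]⟩

instance (n : ℕ) : IsProbabilityMeasure (sv n) :=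
  Measure.isProbabilityMeasure_map measurable_subtype_coe.aemeasurable

lemma lint_sv (n : ℕ) (f : V n → ℝ≥0∞) (hf : Measurable f) :
    ∫⁻ x, f x ∂sv n = ((volume : Measure (V n)).toSphere univ)⁻¹ *
      ∫⁻ x : sphere (0 : V n) 1, f x ∂(volume : Measure (V n)).toSphere := by
  rw [sv, lintegral_map hf measurable_subtype_coe, sph, lintegral_smul_measure, smul_eq_mul]

lemma sv_norm (n : ℕ) : ∀ᵐ x ∂sv n, ‖x‖ = 1 := by
  rw [sv, ae_map_iff measurable_subtype_coe.aemeasurable (by measurability)]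
  exact Filter.Eventually.of_forall fun x => by simp

lemma sv_iso (n : ℕ) (U : V n ≃ₗᵢ[ℝ] V n) (f : V n → ℝ≥0∞) (hf : Measurable f) :
    ∫⁻ x, f (U x) ∂sv n = ∫⁻ x, f x ∂sv n := by
  have hU : Measurable U := U.continuous.measurable
  have hfU : Measurable (fun x => f (U x)) := hf.comp hU
  rw [lint_sv n _ hfU, lint_sv n _ hf]
  congr 1
  have hg : Measurable ((Iio (1 : ℝ)).indicator (fun _ => (1 : ℝ≥0∞))) :=
    measurable_const.indicator measurableSet_Iio
  have h1 := polar_prod (volume : Measure (V n)) (fun x => f (U x)) hfU _ hg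
  have h2 := polar_prod (volume : Measure (V n)) f hf _ hg
  have h3 := (U.measurePreserving).lintegral_comp
    (f := fun y => f (‖y‖⁻¹ • y) * (Iio (1 : ℝ)).indicator (fun _ => (1 : ℝ≥0∞)) ‖y‖)
    (by fun_prop)
  simp only [LinearIsometryEquiv.norm_map, ← map_smul] at h3
  rw [h3, h2, ind_lint] at h1
  have hpos : (0 : ℝ) < 1 / (((Module.finrank ℝ (V n) - 1 : ℕ) : ℝ) + 1) := by positivity
  exact ((ENNReal.mul_left_inj (by simpa using hpos) ENNReal.ofReal_ne_top).1 h1).symm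

lemma sv_map_iso (n : ℕ) (U : V n ≃ₗᵢ[ℝ] V n) : (sv n).map U = sv n := by
  have hU : Measurable U := U.continuous.measurable
  ext s hs
  rw [← lintegral_indicator_one hs, ← lintegral_indicator_one hs,
    lintegral_map (measurable_one.indicator hs) hU]
  exact sv_iso n U _ (measurable_one.indicator hs)

lemma exists_iso (n : ℕ) (v w : V n) (h : ‖v‖ = ‖w‖) : ∃ U : V n ≃ₗᵢ[ℝ] V n, U v = w :=
  ⟨Submodule.reflection (ℝ ∙ (v - w))ᗮ, Submodule.reflection_sub h⟩

/-- Splitting off the first coordinate. -/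
lemma lint_split (n : ℕ) (H : ℝ → ℝ → ℝ≥0∞) (hH : Measurable (Function.uncurry H)) :
    ∫⁻ y : V n, H (y 0) ‖y‖ = ∫⁻ t : ℝ, ∫⁻ z : EuclideanSpace ℝ (Fin (n + 1)),
      H t (Real.sqrt (t ^ 2 + ‖z‖ ^ 2)) := by
  have hm : Measurable (fun y : V n => H (y 0) ‖y‖) :=
    hH.comp (f := fun y : V n => (y 0, ‖y‖)) (by fun_prop)
  have h1 := (PiLp.volume_preserving_toLp (Fin (n + 2))).lintegral_comp hm
  rw [← h1]
  have hm2 : Measurable (fun p : ℝ × (Fin (n + 1) → ℝ) =>
      H p.1 (Real.sqrt (p.1 ^ 2 + ∑ i, p.2 i ^ 2))) :=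
    hH.comp (f := fun p : ℝ × (Fin (n + 1) → ℝ) => (p.1, Real.sqrt (p.1 ^ 2 + ∑ i, p.2 i ^ 2)))
      (by fun_prop)
  have h2 := (volume_preserving_piFinSuccAbove (fun _ : Fin (n + 2) => ℝ) 0).lintegral_comp hm2
  have h3 : ∀ a : Fin (n + 2) → ℝ, H ((WithLp.toLp 2 a : V n) 0) ‖(WithLp.toLp 2 a : V n)‖ =
      H (MeasurableEquiv.piFinSuccAbove (fun _ : Fin (n + 2) => ℝ) 0 a).1
        (Real.sqrt ((MeasurableEquiv.piFinSuccAbove (fun _ : Fin (n + 2) => ℝ) 0 a).1 ^ 2 +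
          ∑ i, (MeasurableEquiv.piFinSuccAbove (fun _ : Fin (n + 2) => ℝ) 0 a).2 i ^ 2)) := by
    intro a
    simp [EuclideanSpace.norm_eq, Fin.sum_univ_succ, Fin.tail]
  simp only [h3]
  rw [h2, Measure.volume_eq_prod, lintegral_prod _ hm2.aemeasurable]
  refine lintegral_congr fun t => ?_
  have hm3 : Measurable (fun z : EuclideanSpace ℝ (Fin (n + 1)) =>
      H t (Real.sqrt (t ^ 2 + ‖z‖ ^ 2))) :=
    hH.comp (f := fun z : EuclideanSpace ℝ (Fin (n + 1)) => (t, Real.sqrt (t ^ 2 + ‖z‖ ^ 2)))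
      (by fun_prop)
  rw [← (PiLp.volume_preserving_toLp (Fin (n + 1))).lintegral_comp hm3]
  refine lintegral_congr fun a => ?_
  rw [EuclideanSpace.norm_sq_eq]
  simp

lemma lint_plane (n : ℕ) (f g : ℝ → ℝ≥0∞) (hf : Measurable f) (hg : Measurable g) :
    ∫⁻ t : ℝ, ∫⁻ ρ in Ioi (0 : ℝ), ENNReal.ofReal (ρ ^ n) *
      (f ((Real.sqrt (t ^ 2 + ρ ^ 2))⁻¹ * t) * g (Real.sqrt (t ^ 2 + ρ ^ 2))) =
    (∫⁻ α in Ioo (0 : ℝ) Real.pi, ENNReal.ofReal (Real.sin α ^ n) * f (Real.cos α)) *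
      ∫⁻ r in Ioi (0 : ℝ), ENNReal.ofReal (r ^ (n + 1)) * g r := by
  set F : ℝ × ℝ → ℝ≥0∞ := fun p => (Ioi (0 : ℝ)).indicator (fun ρ => ENNReal.ofReal (ρ ^ n) *
      (f ((Real.sqrt (p.1 ^ 2 + ρ ^ 2))⁻¹ * p.1) * g (Real.sqrt (p.1 ^ 2 + ρ ^ 2)))) p.2 with hF
  have hFm : Measurable F := by
    have : F = (Prod.snd ⁻¹' Ioi (0 : ℝ)).indicator (fun p : ℝ × ℝ => ENNReal.ofReal (p.2 ^ n) *
      (f ((Real.sqrt (p.1 ^ 2 + p.2 ^ 2))⁻¹ * p.1) * g (Real.sqrt (p.1 ^ 2 + p.2 ^ 2)))) := by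
      ext p
      by_cases h : p.2 ∈ Ioi (0 : ℝ)
      · simp only [hF]; rw [indicator_of_mem h, indicator_of_mem (by exact h)]
      · simp only [hF]; rw [indicator_of_notMem h, indicator_of_notMem (by exact h)]
    rw [this]
    exact Measurable.indicator (by fun_prop) (measurable_snd measurableSet_Ioi)
  have h1 : ∫⁻ t : ℝ, ∫⁻ ρ in Ioi (0 : ℝ), ENNReal.ofReal (ρ ^ n) *
      (f ((Real.sqrt (t ^ 2 + ρ ^ 2))⁻¹ * t) * g (Real.sqrt (t ^ 2 + ρ ^ 2))) = ∫⁻ p, F p := by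
    rw [Measure.volume_eq_prod, lintegral_prod _ hFm.aemeasurable]
    refine lintegral_congr fun t => ?_
    simp only [hF]
    rw [lintegral_indicator measurableSet_Ioi]
  rw [h1, ← lintegral_comp_polarCoord_symm, polarCoord_target, Measure.volume_eq_prod,
    ← Measure.prod_restrict]
  have h2 : ∀ p : ℝ × ℝ, p.1 ∈ Ioi (0 : ℝ) → p.2 ∈ Ioo (-Real.pi) Real.pi →
      ENNReal.ofReal p.1 • F (polarCoord.symm p) =
      (ENNReal.ofReal (p.1 ^ (n + 1)) * g p.1) * (Ioi (0 : ℝ)).indicator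
        (fun α => ENNReal.ofReal (Real.sin α ^ n) * f (Real.cos α)) p.2 := by
    rintro ⟨r, α⟩ (hr : 0 < r) ⟨h1, h2⟩
    simp only [hF, polarCoord_symm_apply, smul_eq_mul]
    have hs : Real.sqrt ((r * Real.cos α) ^ 2 + (r * Real.sin α) ^ 2) = r := by
      rw [show (r * Real.cos α) ^ 2 + (r * Real.sin α) ^ 2 = r ^ 2 by
        nlinarith [Real.sin_sq_add_cos_sq α], Real.sqrt_sq hr.le]
    by_cases hα : 0 < α
    · have hsin : 0 < Real.sin α := Real.sin_pos_of_pos_of_lt_pi hα h2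
      rw [indicator_of_mem (show r * Real.sin α ∈ Ioi (0 : ℝ) from mul_pos hr hsin),
        indicator_of_mem (show α ∈ Ioi (0 : ℝ) from hα), hs, ← mul_assoc r⁻¹,
        inv_mul_cancel₀ hr.ne', one_mul, mul_pow, pow_succ,
        ENNReal.ofReal_mul (by positivity), ENNReal.ofReal_mul (by positivity)]
      ring
    · have hsin : Real.sin α ≤ 0 := Real.sin_nonpos_of_nonpos_of_neg_pi_le (not_lt.1 hα) h1.le
      rw [indicator_of_notMem (show r * Real.sin α ∉ Ioi (0 : ℝ) from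
        not_lt.2 (mul_nonpos_of_nonneg_of_nonpos hr.le hsin)),
        indicator_of_notMem (show α ∉ Ioi (0 : ℝ) from hα)]
      simp
  rw [lintegral_congr_ae (g := fun p : ℝ × ℝ => (ENNReal.ofReal (p.1 ^ (n + 1)) * g p.1) *
      (Ioi (0 : ℝ)).indicator (fun α => ENNReal.ofReal (Real.sin α ^ n) * f (Real.cos α)) p.2)]
  · rw [lintegral_prod_mul (f := fun r => ENNReal.ofReal (r ^ (n + 1)) * g r) (by fun_prop)
      (Measurable.indicator (by fun_prop) measurableSet_Ioi).aemeasurable, mul_comm,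
      lintegral_indicator measurableSet_Ioi, Measure.restrict_restrict measurableSet_Ioi]
    congr 3
    ext α
    simp only [mem_inter_iff, mem_Ioi, mem_Ioo]
    constructor
    · rintro ⟨h1, _, h3⟩; exact ⟨h1, h3⟩
    · rintro ⟨h1, h3⟩; exact ⟨h1, by linarith [Real.pi_pos], h3⟩
  · rw [Measure.prod_restrict]
    filter_upwards [ae_restrict_mem (measurableSet_Ioi.prod measurableSet_Ioo)] with p hp
    exact h2 p hp.1 hp.2

/-- The Wallis integral. -/
noncomputable def W (n : ℕ) : ℝ := ∫ α in (0 : ℝ)..Real.pi, Real.sin α ^ n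

lemma W_pos (n : ℕ) : 0 < W n := integral_sin_pow_pos n

lemma W_succ (n : ℕ) : W (n + 2) = (n + 1) / (n + 2) * W n := by
  rw [W, integral_sin_pow n, W]; simp

lemma lint_sin (n : ℕ) :
    ∫⁻ α in Ioo (0 : ℝ) Real.pi, ENNReal.ofReal (Real.sin α ^ n) = ENNReal.ofReal (W n) := by
  rw [Measure.restrict_congr_set Ioo_ae_eq_Ioc, W, intervalIntegral.integral_of_le Real.pi_pos.le,
    ofReal_integral_eq_lintegral_ofReal]
  · exact (Continuous.intervalIntegrable (by fun_prop) _ _).1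
  · filter_upwards [ae_restrict_mem measurableSet_Ioc] with y hy
    exact pow_nonneg (Real.sin_nonneg_of_nonneg_of_le_pi hy.1.le hy.2) _

lemma lint_coord_aux (n : ℕ) (f : ℝ → ℝ≥0∞) (hf : Measurable f) :
    ∫⁻ x : sphere (0 : V n) 1, f ((x : V n) 0) ∂(volume : Measure (V n)).toSphere =
      (volume : Measure (EuclideanSpace ℝ (Fin (n + 1)))).toSphere univ *
      ∫⁻ α in Ioo (0 : ℝ) Real.pi, ENNReal.ofReal (Real.sin α ^ n) * f (Real.cos α) := by
  set g : ℝ → ℝ≥0∞ := (Iio (1 : ℝ)).indicator (fun _ => (1 : ℝ≥0∞)) with hgd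
  have hg : Measurable g := measurable_const.indicator measurableSet_Iio
  have h1 := polar_prod (volume : Measure (V n)) (fun x => f (x 0)) (by fun_prop) g hg
  have h2 := lint_split n (fun t R => f (R⁻¹ * t) * g R) (by
    change Measurable fun p : ℝ × ℝ => f (p.2⁻¹ * p.1) * g p.2
    fun_prop)
  have h3 : ∀ t : ℝ, ∫⁻ z : EuclideanSpace ℝ (Fin (n + 1)),
      f ((Real.sqrt (t ^ 2 + ‖z‖ ^ 2))⁻¹ * t) * g (Real.sqrt (t ^ 2 + ‖z‖ ^ 2)) =
      (volume : Measure (EuclideanSpace ℝ (Fin (n + 1)))).toSphere univ *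
      ∫⁻ ρ in Ioi (0 : ℝ), ENNReal.ofReal (ρ ^ n) *
      (f ((Real.sqrt (t ^ 2 + ρ ^ 2))⁻¹ * t) * g (Real.sqrt (t ^ 2 + ρ ^ 2))) := by
    intro t
    have := polar_prod (volume : Measure (EuclideanSpace ℝ (Fin (n + 1)))) (fun _ => 1)
      measurable_const
      (fun ρ => f ((Real.sqrt (t ^ 2 + ρ ^ 2))⁻¹ * t) * g (Real.sqrt (t ^ 2 + ρ ^ 2))) (by fun_prop)
    simpa using this
  simp only [h3] at h2
  rw [lintegral_const_mul' _ _ (measure_ne_top _ _), lint_plane n f g hf hg] at h2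
  simp only [PiLp.smul_apply, smul_eq_mul] at h1
  rw [h2] at h1
  have hd : Module.finrank ℝ (V n) - 1 = n + 1 := by simp
  rw [hd, hgd, ind_lint, ← mul_assoc] at h1
  have hpos : (0 : ℝ) < 1 / (((n + 1 : ℕ) : ℝ) + 1) := by positivity
  exact ((ENNReal.mul_left_inj (by simpa using hpos) ENNReal.ofReal_ne_top).1 h1).symm

lemma lint_coord (n : ℕ) (f : ℝ → ℝ≥0∞) (hf : Measurable f) :
    ∫⁻ x, f (x 0) ∂sv n = (ENNReal.ofReal (W n))⁻¹ *
      ∫⁻ α in Ioo (0 : ℝ) Real.pi, ENNReal.ofReal (Real.sin α ^ n) * f (Real.cos α) := by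
  rw [lint_sv n _ (by fun_prop), lint_coord_aux n f hf]
  have h1 := lint_coord_aux n (fun _ => 1) measurable_const
  simp only [lintegral_one, mul_one, lint_sin] at h1
  have h0 : (volume : Measure (EuclideanSpace ℝ (Fin (n + 1)))).toSphere univ ≠ 0 := by
    rw [Ne, Measure.measure_univ_eq_zero]
    exact Measure.toSphere_ne_zero _
  have ht : (volume : Measure (EuclideanSpace ℝ (Fin (n + 1)))).toSphere univ ≠ ⊤ :=
    measure_ne_top _ _
  rw [h1, ENNReal.mul_inv (Or.inl h0) (Or.inl ht), mul_comm _ (ENNReal.ofReal (W n))⁻¹, mul_assoc,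
    ← mul_assoc _ ((volume : Measure (EuclideanSpace ℝ (Fin (n + 1)))).toSphere univ),
    ENNReal.inv_mul_cancel h0 ht, one_mul]

/-- The law of the angle to a fixed direction. -/
noncomputable def ang (n : ℕ) : Measure ℝ :=
  (volume.restrict (Ioo (0 : ℝ) Real.pi)).withDensity
    fun α => ENNReal.ofReal (Real.sin α ^ n / W n)

lemma lint_ang (n : ℕ) (f : ℝ → ℝ≥0∞) (hf : Measurable f) :
    ∫⁻ α, f α ∂ang n = (ENNReal.ofReal (W n))⁻¹ *
      ∫⁻ α in Ioo (0 : ℝ) Real.pi, ENNReal.ofReal (Real.sin α ^ n) * f α := by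
  rw [ang, lintegral_withDensity_eq_lintegral_mul _ (by fun_prop) hf,
    ← lintegral_const_mul _ (by fun_prop)]
  refine lintegral_congr fun α => ?_
  simp only [Pi.mul_apply]
  rw [ENNReal.ofReal_div_of_pos (W_pos n), ENNReal.div_eq_inv_mul, mul_assoc]

lemma lint_inner (n : ℕ) (e : V n) (he : ‖e‖ = 1) (f : ℝ → ℝ≥0∞) (hf : Measurable f) :
    ∫⁻ x, f ⟪e, x⟫ ∂sv n = ∫⁻ α, f (Real.cos α) ∂ang n := by
  rw [lint_ang n _ (by fun_prop), ← lint_coord n f hf]
  obtain ⟨U, hU⟩ := exists_iso n (EuclideanSpace.single 0 1) e (by simp [he])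
  rw [← sv_iso n U _ (by fun_prop)]
  refine lintegral_congr fun x => ?_
  rw [← hU, U.inner_map_map]
  simp [EuclideanSpace.inner_single_left]

instance (n : ℕ) : IsProbabilityMeasure (ang n) := ⟨by
  have := lint_inner n (EuclideanSpace.single 0 1) (by simp) (fun _ => 1) measurable_const
  simpa using this.symm⟩

lemma map_inner (n : ℕ) (e : V n) (he : ‖e‖ = 1) :
    (sv n).map (fun x => ⟪e, x⟫) = (ang n).map Real.cos := by
  ext s hs
  rw [← lintegral_indicator_one hs, ← lintegral_indicator_one hs,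
    lintegral_map (measurable_one.indicator hs) (by fun_prop),
    lintegral_map (measurable_one.indicator hs) (by fun_prop)]
  exact lint_inner n e he _ (measurable_one.indicator hs)

lemma int_ang (n : ℕ) (f : ℝ → ℝ) :
    ∫ α, f α ∂ang n = (∫ α in (0 : ℝ)..Real.pi, f α * Real.sin α ^ n) / W n := by
  rw [ang, integral_withDensity_eq_integral_toReal_smul (by fun_prop)
    (Filter.Eventually.of_forall fun _ => ENNReal.ofReal_lt_top),
    intervalIntegral.integral_of_le Real.pi_pos.le, integral_Ioc_eq_integral_Ioo, ← integral_div]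
  refine setIntegral_congr_fun measurableSet_Ioo fun α hα => ?_
  have : 0 ≤ Real.sin α ^ n / W n :=
    div_nonneg (pow_nonneg (Real.sin_pos_of_mem_Ioo hα).le _) (W_pos n).le
  simp only [ENNReal.toReal_ofReal this, smul_eq_mul]
  ring

lemma int_inner (n : ℕ) (e : V n) (he : ‖e‖ = 1) (f : ℝ → ℝ) (hf : Continuous f) :
    ∫ x, f ⟪e, x⟫ ∂sv n = (∫ α in (0 : ℝ)..Real.pi, f (Real.cos α) * Real.sin α ^ n) / W n := by
  rw [← int_ang n (fun α => f (Real.cos α)),
    ← integral_map (φ := fun x => ⟪e, x⟫) (by fun_prop) hf.aestronglyMeasurable, map_inner n e he,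
    integral_map (by fun_prop) hf.aestronglyMeasurable]

lemma ang_symm (n : ℕ) (f : ℝ → ℝ≥0∞) (hf : Measurable f) :
    ∫⁻ α, f (-Real.cos α) ∂ang n = ∫⁻ α, f (Real.cos α) ∂ang n := by
  have he : ‖(EuclideanSpace.single 0 1 : V n)‖ = 1 := by simp
  rw [← lint_inner n _ he f hf, ← lint_inner n _ he (fun t => f (-t)) (by fun_prop),
    ← sv_iso n (LinearIsometryEquiv.neg ℝ) _ (by fun_prop)]
  simp

end Pool.Agent.Lib.MP_237b21_an
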